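import Pool.Agent.P.MP_246241_nt.VN.Iface
import Pool.Agent.P.MP_246241_nt.BV.Iface

/-! Definitions and small tools. -/

set_option autoImplicit false
set_option linter.unusedSectionVars false

namespace Pool.Agent.P.MP_246241_nt.TH

export BV (ip nn nn_eq nn_nonneg ip_comm ip_sq_le nn_add nn_mono nn_mul RR two_le two_le' card_RR
  pow_eq_zero' unit_one_add unit_or_dvd int_dvd_iff card_mult)
export EK (Vc Mt Gl Dl Prim Far Tm Short Frame col fr pre mem_Dl vecMul_Tm_zero vecMul_Tm_succ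
  mul_Tm_zero mul_Tm_succ det_Tm det_frame col_mul fr_spec pre_pre pre_zero det_unit)
export VN (rd rv AA Pr FF Shell ShW rd_apply rv_apply rv_mulVec rv_vecMul rv_dot rd_mul_inv
  rd_inv_mul card_AA unit_int FF_nonneg short_le det_le_prod det_rd)

open Finset Matrix
open scoped Classical

/-! ### Sums over units -/

section sym
variable {D p j : ℕ} [hp : Fact p.Prime]

/-- Invariance under the units. -/
def UI (F : AA D p j → ℝ) : Prop := ∀ (u : (RR p j)ˣ) (x : AA D p j), F ((u : RR p j) • x) = F x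
/-- The sum over the units. -/
noncomputable def Sy (F : AA D p j → ℝ) (x : AA D p j) : ℝ :=
  ∑ u : (RR p j)ˣ, F ((u : RR p j) • x)
/-- The number of units. -/
noncomputable def nU (p j : ℕ) [Fact p.Prime] : ℝ := Fintype.card (RR p j)ˣ

theorem nU_pos : 0 < nU p j := Nat.cast_pos.2 Fintype.card_pos
theorem Pr_smul (u : (RR p j)ˣ) (x : AA D p j) : Pr ((u : RR p j) • x) ↔ Pr x :=
  exists_congr fun c => by rw [Pi.smul_apply, smul_eq_mul, Units.isUnit_units_mul]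
theorem sum_smul_unit (u : (RR p j)ˣ) (F : AA D p j → ℝ) :
    ∑ x, F ((u : RR p j) • x) = ∑ x, F x :=
  Equiv.sum_comp (MulAction.toPerm u) F
theorem Sy_nonneg {F : AA D p j → ℝ} (h : ∀ x, 0 ≤ F x) (x : AA D p j) : 0 ≤ Sy F x :=
  sum_nonneg fun _ _ => h _
theorem Sy_supp {F : AA D p j → ℝ} {E : AA D p j → Prop}
    (hE : ∀ (u : (RR p j)ˣ) x, E ((u : RR p j) • x) → E x) (h : ∀ x, ¬ E x → F x = 0)
    (x : AA D p j) (hx : ¬ E x) : Sy F x = 0 :=
  sum_eq_zero fun u _ => h _ fun e => hx (hE u x e)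
theorem Sy_Pr {F : AA D p j → ℝ} (h : ∀ x, ¬ Pr x → F x = 0) (x : AA D p j) (hx : ¬ Pr x) :
    Sy F x = 0 := Sy_supp (fun u x => (Pr_smul u x).1) h x hx
theorem UI_Sy (F : AA D p j → ℝ) : UI (Sy F) := fun u x => by
  rw [Sy, Sy, ← Equiv.sum_comp (Equiv.mulRight u) fun v : (RR p j)ˣ => F ((v : RR p j) • x)]
  simp [smul_smul]
theorem sum_Sy (F : AA D p j → ℝ) : ∑ x, Sy F x = nU p j * ∑ x, F x := by
  simp only [Sy]
  rw [sum_comm, sum_congr rfl fun u _ => sum_smul_unit u F, sum_const, nsmul_eq_mul, card_univ, nU]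
theorem ip_Sy (F : AA D p j → ℝ) {G : AA D p j → ℝ} (h : UI G) :
    ip (Sy F) G = nU p j * ip F G := by
  have : ∀ u : (RR p j)ˣ, ∑ x, F ((u : RR p j) • x) * G x = ∑ x, F x * G x := fun u => by
    rw [← sum_smul_unit u fun x => F x * G x]
    exact sum_congr rfl fun x _ => by rw [h]
  simp only [ip, Sy, sum_mul]
  rw [sum_comm, sum_congr rfl fun u _ => this u, sum_const, nsmul_eq_mul, card_univ, nU]
theorem UI.comp {G : AA D p j → ℝ} (h : UI G) (M : Matrix (Fin D) (Fin D) (RR p j)) :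
    UI fun x => G (M *ᵥ x) := fun u x => by
  simp only [mulVec_smul]; exact h u _
theorem nn_le_sq {ι : Type} [Fintype ι] {F : ι → ℝ} (h : ∀ x, 0 ≤ F x) : nn F ≤ (∑ x, F x) ^ 2 :=
  sum_sq_le_sq_sum_of_nonneg fun x _ => h x

/-! ### Forms that kill a vector -/

/-- The forms that kill `x` modulo `p ^ i`. -/
def DlA (i : ℕ) (x : AA D p j) : Set (Vc D) := {ρ | (p : RR p j) ^ i ∣ rv (RR p j) ρ ⬝ᵥ x}

theorem mem_DlA {i : ℕ} {x : AA D p j} {ρ : Vc D} :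
    ρ ∈ DlA i x ↔ (p : RR p j) ^ i ∣ rv (RR p j) ρ ⬝ᵥ x := Iff.rfl
theorem DlA_rv {i : ℕ} (h : i ≤ j) (u : Vc D) : DlA i (rv (RR p j) u) = Dl p i u := by
  ext ρ; rw [mem_DlA, rv_dot, int_dvd_iff h, mem_Dl]
theorem rv_surj (x : AA D p j) : ∃ u : Vc D, rv (RR p j) u = x :=
  ⟨fun c => (ZMod.intCast_surjective (x c)).choose,
    funext fun c => (ZMod.intCast_surjective (x c)).choose_spec⟩
theorem Pr_rv (hj : 1 ≤ j) (u : Vc D) : Pr (rv (RR p j) u) ↔ Prim p u :=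
  exists_congr fun c => ⟨fun h e => by
    have e1 : (p : RR p j) ^ 1 ∣ ((u c : ℤ) : RR p j) := (int_dvd_iff hj _).2 (by simpa using e)
    have e2 : IsUnit (p : RR p j) := isUnit_of_dvd_unit (by simpa using e1) h
    have e3 : (p : RR p j) ^ 0 ∣ ((1 : ℤ) : RR p j) := by simp
    have e4 : (p : RR p j) ^ 1 ∣ ((1 : ℤ) : RR p j) := by simpa using e2.dvd
    have e5 := (int_dvd_iff hj _).1 e4
    have := Int.le_of_dvd one_pos e5
    have p2 : (2 : ℤ) ≤ p := by exact_mod_cast hp.out.two_le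
    rw [pow_one] at this
    omega, unit_int⟩
theorem DlA_smul (i : ℕ) (u : (RR p j)ˣ) (x : AA D p j) : DlA i ((u : RR p j) • x) = DlA i x := by
  ext ρ; rw [mem_DlA, mem_DlA, dotProduct_smul, smul_eq_mul, Units.dvd_mul_left]
theorem DlA_add {i i' : ℕ} (h : i' ≤ i) (x t : AA D p j) :
    DlA i' (x + (p : RR p j) ^ i • t) = DlA i' x := by
  ext ρ
  rw [mem_DlA, mem_DlA, dotProduct_add, dotProduct_smul, smul_eq_mul]
  exact dvd_add_left ((pow_dvd_pow _ h).mul_right _)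
theorem Pr_add {i : ℕ} (h : 1 ≤ i) {x : AA D p j} (hx : Pr x) (t : AA D p j) :
    Pr (x + (p : RR p j) ^ i • t) := by
  obtain ⟨c, u, hu⟩ := hx
  obtain ⟨i, rfl⟩ := Nat.exists_eq_add_of_le' h
  refine ⟨c, ?_⟩
  have e : (x + (p : RR p j) ^ (i + 1) • t) c =
      u * (1 + p * ((u⁻¹ : (RR p j)ˣ) * ((p : RR p j) ^ i * t c))) := by
    rw [Pi.add_apply, Pi.smul_apply, smul_eq_mul, ← hu, mul_add, mul_one, mul_left_comm,
      Units.mul_inv_cancel_left]
    ring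
  rw [e]
  exact u.isUnit.mul (unit_one_add _)

/-- The primitive vectors that no small form kills, up to level `i`. -/
noncomputable def XX (D p j : ℕ) [Fact p.Prime] (G i : ℕ) : Finset (AA D p j) :=
  {x | Pr x ∧ ∀ i' ≤ i, Far p G i' (DlA i' x)}

theorem mem_XX {G i : ℕ} {x : AA D p j} :
    x ∈ XX D p j G i ↔ Pr x ∧ ∀ i' ≤ i, Far p G i' (DlA i' x) := by simp [XX]
theorem XX_anti {G i i' : ℕ} (h : i ≤ i') : XX D p j G i' ⊆ XX D p j G i := fun _ hx =>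
  mem_XX.2 ⟨(mem_XX.1 hx).1, fun k hk => (mem_XX.1 hx).2 k (hk.trans h)⟩
theorem XX_smul {G i : ℕ} (u : (RR p j)ˣ) (x : AA D p j) :
    (u : RR p j) • x ∈ XX D p j G i ↔ x ∈ XX D p j G i := by
  simp only [mem_XX, Pr_smul, DlA_smul]
theorem XX_add {G i : ℕ} (h : 1 ≤ i) {x : AA D p j} (hx : x ∈ XX D p j G i) (t : AA D p j) :
    x + (p : RR p j) ^ i • t ∈ XX D p j G i :=
  mem_XX.2 ⟨Pr_add h (mem_XX.1 hx).1 t, fun k hk => by
    rw [DlA_add hk]; exact (mem_XX.1 hx).2 k hk⟩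

end sym

/-- The normalised norm of the distribution of the first columns. -/
noncomputable def vv {n : ℕ} (p j : ℕ) [Fact p.Prime] (B l : ℕ) (S : Finset (Vc n)) : ℝ :=
  √(nn (Sy (FF p j B l S)) * ((p : ℝ) ^ j) ^ (n + 1)) / nU p j

theorem vv_nonneg {n : ℕ} (p j : ℕ) [Fact p.Prime] (B l : ℕ) (S : Finset (Vc n)) :
    0 ≤ vv p j B l S := div_nonneg (Real.sqrt_nonneg _) nU_pos.le

/-! ### Cubes -/

/-- The integer points of a cube. -/
noncomputable def cube (D y : ℕ) : Finset (Vc D) := Fintype.piFinset fun _ => Icc (-(y : ℤ)) y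

theorem mem_cube {D y : ℕ} {ρ : Vc D} : ρ ∈ cube D y ↔ ∀ c, |ρ c| ≤ y := by
  simp only [cube, Fintype.mem_piFinset, mem_Icc, abs_le]
theorem card_cube (D y : ℕ) : #(cube D y) = (2 * y + 1) ^ D := by
  simp only [cube, Fintype.card_piFinset, Int.card_Icc, prod_const, card_univ, Fintype.card_fin]
  congr 1
  omega

/-- The radius at level `k`. -/
def rad (D p G k : ℕ) : ℕ := Nat.findGreatest (fun y => G * y ^ D ≤ p ^ k) (p ^ k)

theorem le_rad {D p G k y : ℕ} (hD : 1 ≤ D) (hG : 1 ≤ G) : y ≤ rad D p G k ↔ G * y ^ D ≤ p ^ k := by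
  refine ⟨fun h => le_trans (Nat.mul_le_mul_left _ (Nat.pow_le_pow_left h _)) ?_, fun h =>
    Nat.le_findGreatest ((Nat.le_self_pow (by omega) y).trans
      ((Nat.le_mul_of_pos_left _ hG).trans h)) h⟩
  exact Nat.findGreatest_spec (P := fun y => G * y ^ D ≤ p ^ k) (Nat.zero_le _)
    (by rw [zero_pow (by omega)]; exact Nat.zero_le _)
theorem rad_spec {D p G k : ℕ} (hD : 1 ≤ D) (hG : 1 ≤ G) : G * rad D p G k ^ D ≤ p ^ k :=
  (le_rad hD hG).1 le_rfl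
theorem lt_rad {D p G k : ℕ} (hD : 1 ≤ D) (hG : 1 ≤ G) : p ^ k < G * (rad D p G k + 1) ^ D :=
  not_le.1 fun h => Nat.not_succ_le_self _ ((le_rad hD hG).2 h)
theorem abs_le_rad {D p G k : ℕ} (hD : 1 ≤ D) (hG : 1 ≤ G) {z : ℤ} :
    |z| ≤ rad D p G k ↔ (G : ℤ) * |z| ^ D ≤ (p : ℤ) ^ k := by
  rw [Int.abs_eq_natAbs, Nat.cast_le, le_rad hD hG]
  norm_cast

/-! ### Strings -/

theorem card_children {n p b : ℕ} (hp : 0 < p) (a₀ : Vc n) (S : Finset (Vc n))
    (h : ∀ a ∈ S, pre p b a = a₀) : #S ≤ p ^ (n * b) := by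
  have q0 : (0 : ℤ) < (p : ℤ) ^ b := by positivity
  refine (card_le_card (t := Fintype.piFinset fun i =>
    Ico ((p : ℤ) ^ b * a₀ i) ((p : ℤ) ^ b * (a₀ i + 1))) fun a ha => ?_).trans_eq ?_
  · refine Fintype.mem_piFinset.2 fun i => ?_
    have e : a i / (p : ℤ) ^ b = a₀ i := congrFun (h a ha) i
    rw [← e, mem_Ico]
    exact ⟨Int.mul_ediv_self_le q0.ne', (Int.lt_mul_ediv_self_add q0).trans_eq (by ring)⟩
  · simp only [Fintype.card_piFinset, Int.card_Ico, mul_add, mul_one, add_sub_cancel_left,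
      prod_const, card_univ, Fintype.card_fin]
    rw [← Nat.cast_pow, Int.toNat_natCast, ← pow_mul, mul_comm]

theorem card_le_parents {n p b : ℕ} (hp : 0 < p) (S S₀ : Finset (Vc n))
    (h : ∀ a ∈ S, pre p b a ∈ S₀) : #S ≤ p ^ (n * b) * #S₀ :=
  card_le_mul_card_image_of_maps_to h _ fun a₀ _ =>
    card_children hp a₀ _ fun _ ha => (mem_filter.1 ha).2

/-- The set of the theorem. -/
def Ex (n p : ℕ) (f : ℕ → ℝ) : Set (Fin n → ℝ) := {α | ∃ δ : ℝ, 0 < δ ∧ ∃ N : ℕ, ∀ k : ℕ, N ≤ k →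
  ∃ i, δ ≤ ((k : ℝ) * ((padicNorm p (k : ℚ) : ℚ) : ℝ) * f k) ^ ((1 : ℝ) / (n : ℝ)) *
    |(k : ℝ) * α i - ((round ((k : ℝ) * α i) : ℤ) : ℝ)|}

end Pool.Agent.P.MP_246241_nt.TH
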