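import Pool.Agent.P.MP_246241_nt.TH.Base

/-! The statements of the steps. -/

set_option autoImplicit false

namespace Pool.Agent.P.MP_246241_nt.TH

open Finset Matrix
open scoped Classical

/-! ### The gap -/

-- deps:
def S_FIB2 : Prop :=
  ∀ (p j : ℕ) [Fact p.Prime],
    (∀ h : AA 2 p j → ℝ, (∀ x, ¬ Pr x → h x = 0) →
      ∑ y : BV.GG p j, h (fun c => y 1 c) = (p : ℝ) ^ j * ∑ x, h x) ∧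
    ((p : ℝ) ^ j) ^ 3 ≤ 2 * BV.oG p j

-- deps: FIB2 BV.GAP
def S_SL1 : Prop :=
  ∀ (p : ℕ) [Fact p.Prime], ∃ K : ℝ, 0 ≤ K ∧ ∀ (j Y₀ : ℕ) (F₁ F₂ : AA 2 p j → ℝ) (X Y Z : ℝ),
    1 ≤ Y₀ → (∀ x, 0 ≤ F₁ x) → (∀ x, ¬ Pr x → F₁ x = 0) → (∀ x, ¬ Pr x → F₂ x = 0) → UI F₁ →
    0 ≤ X → 0 ≤ Y → 0 ≤ Z → nn F₁ ≤ X ^ 2 → nn F₂ ≤ Y ^ 2 →
    (∑ x, F₁ x) ^ 2 ≤ Z ^ 2 * ((p : ℝ) ^ j) ^ 2 →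
    ∑ γ ∈ BV.ball (Y₀ ^ 24), ip F₁ (fun x => F₂ (x ᵥ* rd (RR p j) (γ : Mt 2))) ≤
      K * ((Y₀ : ℝ) ^ 47 * X + (Y₀ : ℝ) ^ 350 * Z) * Y

/-- The gap in dimension `n`. -/
def Gap (n : ℕ) : Prop :=
  ∃ e : ℕ, ∀ (p : ℕ) [Fact p.Prime], ∃ K : ℝ, 0 ≤ K ∧ ∀ (j C g : ℕ) (S : Finset (Gl (n + 1)))
    (F₁ F₂ : AA (n + 1) p j → ℝ) (X Y Z : ℝ), p ≤ C → 1 ≤ g →
    (∀ γ ∈ S, Shell C (p ^ (24 * g)) γ) → (∀ x, 0 ≤ F₁ x) → (∀ x, 0 ≤ F₂ x) →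
    (∀ x, ¬ Pr x → F₁ x = 0) → (∀ x, ¬ Pr x → F₂ x = 0) → UI F₁ → 0 ≤ X → 0 ≤ Y → 0 ≤ Z →
    nn F₁ ≤ X ^ 2 → nn F₂ ≤ Y ^ 2 → (∑ x, F₁ x) ^ 2 ≤ Z ^ 2 * ((p : ℝ) ^ j) ^ (n + 1) →
    ∑ γ ∈ S, ip F₁ (fun x => F₂ (rd (RR p j) (γ : Mt (n + 1)) *ᵥ x)) ≤
      K * (C : ℝ) ^ e * (p : ℝ) ^ (n * ((n + 1) * (24 * g))) *
        (X / (p : ℝ) ^ g + (p : ℝ) ^ (e * g) * Z) * Y

-- deps: SL1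
def S_GAP1 : Prop := Gap 1

-- deps: GAP1 VN.GAP
def S_GAPU : Prop := ∀ n : ℕ, 1 ≤ n → Gap n

-- deps: VN.SHELL EK.MULT
def S_DOMS : Prop :=
  ∀ n : ℕ, ∃ e : ℕ, ∀ (p j : ℕ) [Fact p.Prime] (B l β : ℕ) (S S' : Finset (Vc n)), 2 ≤ B →
    (∀ a ∈ S', pre p ((n + 1) * β) a ∈ S) → (∀ a ∈ S, ∃ g, Frame p B l a g) →
    (∀ a ∈ S', ∃ g, Frame p B (l + (n + 1) * β) a g) →
    ∃ Γ : Finset (Gl (n + 1)), (∀ γ ∈ Γ, Shell (2 * B) (p ^ β) γ) ∧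
      nn (Sy (FF p j B (l + (n + 1) * β) S')) ≤ (B : ℝ) ^ e * ∑ γ ∈ Γ, ip (Sy (FF p j B l S))
        (fun x => Sy (FF p j B (l + (n + 1) * β) S') (rd (RR p j) (γ : Mt (n + 1)) *ᵥ x))

-- deps: DOMS GAPU VN.FFB
def S_STEP : Prop :=
  ∀ n : ℕ, 1 ≤ n → ∃ e : ℕ, 1 ≤ e ∧ ∀ (p : ℕ) [Fact p.Prime], ∃ K : ℝ, 0 ≤ K ∧
    ∀ (j B l g : ℕ) (S S' : Finset (Vc n)), p ≤ B → 1 ≤ g →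
    (∀ a ∈ S', pre p ((n + 1) * (24 * g)) a ∈ S) → (∀ a ∈ S, ∃ γ, Frame p B l a γ) →
    (∀ a ∈ S', ∃ γ, Frame p B (l + (n + 1) * (24 * g)) a γ) →
    vv p j B (l + (n + 1) * (24 * g)) S' ≤ K * (B : ℝ) ^ e * (p : ℝ) ^ (n * ((n + 1) * (24 * g))) *
      (vv p j B l S / (p : ℝ) ^ g + (p : ℝ) ^ (e * g) * #S)

-- deps:
def S_REC : Prop :=
  ∀ (M r a a' : ℕ) (L : Finset ℕ) (s v : ℕ → ℝ) (Λ R W K J : ℝ), 2 ≤ R → 2 ≤ W → 0 < Λ → 0 ≤ K →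
    K ≤ R ^ r → 1 ≤ r → 0 ≤ J → 0 ∈ L → s 0 = 1 → (∀ i, 0 ≤ s i) →
    (∀ i < M, s (i + 1) ≤ Λ * s i) → (∀ i ≤ M, v i ≤ J * s i) →
    (∀ i ∈ L, ∀ k, r ≤ k → i + k ≤ M → i + k ∈ L →
      v (i + k) ≤ K * Λ ^ k * (v i / R ^ (3 * k) + W ^ k * s i)) →
    Λ ^ M ≤ s M * R ^ a → (W * R) ^ #(range (M + 1) \ L) ≤ R ^ a' →
    ∃ N ∈ L, N ≤ M ∧ M ≤ N + a + a' ∧ 0 < s N ∧
      v N ≤ (J * R ^ (2 * r) / R ^ N + 2 * K * (W * R) ^ r) * s N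

/-! ### Low and high times -/

-- deps:
def S_PT2 : Prop :=
  ∀ (n p H η δ l : ℕ) (a₀ a : Vc n), 2 ≤ p → δ < η → ¬ Short p (H * p ^ ((n + 1) * δ)) l a₀ →
    pre p ((n + 1) * η) a = a₀ → Short p H (l + (n + 1) * η) a →
    ∃ w v : Vc (n + 1), v = w ᵥ* Tm p l a₀ ∧ v 0 ≠ 0 ∧
      (∀ c, (H : ℤ) * |v c| ^ (n + 1) ≤ 2 ^ (n + 1) * (p : ℤ) ^ (n * (l + (n + 1) * η))) ∧
      ∀ i : Fin n, |(p : ℤ) ^ ((n + 1) * η) * v i.succ +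
        v 0 * (a i - (p : ℤ) ^ ((n + 1) * η) * a₀ i)| ≤ 2 * (p : ℤ) ^ (n * η + δ) * |v 0|

-- deps: VN.HYP VN.SLAB PT2
def S_CRU2 : Prop :=
  ∀ n : ℕ, 1 ≤ n → ∃ w : ℕ, 1 ≤ w ∧ ∀ (p H η δ l : ℕ) (a₀ : Vc n) (S : Finset (Vc n)),
    2 ≤ p → δ < η → p ^ (w * η) ≤ H → ¬ Short p (H * p ^ ((n + 1) * δ)) l a₀ →
    (∀ a ∈ S, pre p ((n + 1) * η) a = a₀ ∧ Short p H (l + (n + 1) * η) a) →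
    #S * p ^ η ≤ 5 * n * p ^ δ * p ^ (n * ((n + 1) * η))

-- deps:
def S_UP : Prop :=
  ∀ (n p H b l : ℕ) (a : Vc n), 0 < p → Short p (H * (2 ^ (n + 1) * p ^ (n * b))) (l + b) a →
    Short p H l (pre p b a)

-- deps:
def S_BADC : Prop :=
  ∀ (n p b R : ℕ) (bad : ℕ → Vc n → Prop) (z : Vc n), 0 < p →
    (∀ (i : ℕ) (a₀ : Vc n) (S : Finset (Vc n)), (∀ a ∈ S, pre p b a = a₀ ∧ bad i a) →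
      #S * R ≤ p ^ (n * b)) →
    ∀ (M : ℕ) (S : Finset (Vc n)), (∀ x ∈ S, pre p (M * b) x = z) →
      ∑ x ∈ S, R ^ #{i ∈ range M | bad i (pre p ((M - (i + 1)) * b) x)} ≤ (2 * p ^ (n * b)) ^ M

-- deps:
def S_HT : Prop :=
  ∀ (G M : ℕ) (h : ℕ → ℕ), h 0 = 0 → (∀ i < M, h (i + 1) ≤ h i + G) →
    #{i ∈ range (M + 1) | h i ≠ 0} ≤ (G + 1) * #{i ∈ range M | max (h i) 1 ≤ h (i + 1)}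

-- deps: CRU2 UP BADC HT
def S_LOWT : Prop :=
  ∀ n : ℕ, 1 ≤ n → ∃ w : ℕ, 1 ≤ w ∧ ∀ (p u M m : ℕ) (z : Vc n) (S : Finset (Vc n)), 2 ≤ p →
    1 ≤ u → 5 * n ≤ p ^ u → (∀ x ∈ S, pre p (M * ((n + 1) * (72 * u))) x = z) →
    (∀ x ∈ S, (72 * n + 2) * m < #{i ∈ range (M + 1) | Short p (p ^ (w * (72 * u)))
      (i * ((n + 1) * (72 * u))) (pre p ((M - i) * ((n + 1) * (72 * u))) x)}) →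
    #S * (p ^ u) ^ m ≤ (2 * p ^ (n * ((n + 1) * (72 * u)))) ^ M

/-! ### Lattice points -/

-- deps:
def S_PACK : Prop :=
  ∀ (n y r : ℕ) (P : Finset (Vc (n + 1))) (ξ : Fin (n + 1) → ℝ) (t : ℝ), ξ ≠ 0 → 1 ≤ t →
    (y : ℝ) ≤ t * (r + 1) → P ⊆ cube (n + 1) y → (∀ ρ ∈ P, rv ℝ ρ ⬝ᵥ ξ = 0) →
    (∀ ρ ∈ P, ∀ ρ' ∈ P, (∀ c, |ρ c - ρ' c| ≤ r) → ρ = ρ') → (#P : ℝ) ≤ (4 * (n + 1) * t) ^ n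

-- deps: PACK VN.HYP
def S_DICH : Prop :=
  ∀ n : ℕ, ∃ C θ : ℝ, 0 ≤ C ∧ 0 ≤ θ ∧ θ < 1 ∧ ∀ (p G i m y : ℕ) (u : Vc (n + 1))
    (P : Finset (Vc (n + 1))), 2 ≤ p → 1 ≤ G → Far p G i (Dl p i u) →
    G * y ^ (n + 1) ≤ p ^ (i + m) → P ⊆ cube (n + 1) y → (∀ ρ ∈ P, ρ ∈ Dl p i u) →
    (∃ V : Mt (n + 1), V.det ≠ 0 ∧ ∀ r, V r ∈ P) ∨ (#P : ℝ) ≤ C * (p * θ) ^ m

-- deps:
def S_RED : Prop :=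
  ∀ (D y : ℕ) (V : Mt D) (ρ : Vc D), V.det ≠ 0 → (∀ r, V r ∈ cube D y) →
    ∃ σ : Vc D, ρ - σ ᵥ* V ∈ cube D (D * y)

-- deps: RED
def S_FULL : Prop :=
  ∀ (D p i y : ℕ) (u : Vc D) (V : Mt D) (P : Finset (Vc D)), p.Prime → Prim p u → V.det ≠ 0 →
    (∀ r, V r ∈ cube D y ∧ V r ∈ Dl p i u) → P ⊆ cube D y → (∀ ρ ∈ P, ρ ∈ Dl p i u) →
    #P * p ^ i ≤ (2 * ((D + 1) * y) + 1) ^ D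

-- deps: DICH FULL
def S_UPB : Prop :=
  ∀ n : ℕ, ∃ C θ : ℝ, 0 ≤ C ∧ 0 ≤ θ ∧ θ < 1 ∧ ∀ (p G i m : ℕ) (u : Vc (n + 1)), p.Prime → 1 ≤ G →
    Prim p u → Far p G i (Dl p i u) →
    (#{ρ ∈ cube (n + 1) (rad (n + 1) p G (i + m)) | ρ ∈ Dl p i u} : ℝ) ≤
      C * (p : ℝ) ^ m * (1 / G + θ ^ m)

-- deps:
def S_PIG : Prop :=
  ∀ (D p i y : ℕ) (u : Vc D), 0 < p → y ^ D ≤ #{ρ ∈ cube D y | ρ ∈ Dl p i u} * p ^ i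

-- deps: RED
def S_ODD : Prop :=
  ∀ (n p i y : ℕ) (u : Vc (n + 1)) (V : Mt (n + 1)), 1 ≤ n → p.Prime → Prim p u → V.det ≠ 0 →
    (∀ r, V r ∈ cube (n + 1) y ∧ V r ∈ Dl p i u) →
    #{ρ ∈ cube (n + 1) y | ρ ∈ Dl p i u} ≤
      2 * #{ρ ∈ cube (n + 1) ((n + 2) * y) | ρ ∈ Dl p i u ∧ Prim p ρ}

-- deps: DICH PIG ODD
def S_LOWB : Prop :=
  ∀ n : ℕ, 1 ≤ n → ∃ (c : ℝ) (G₀ : ℕ), 0 < c ∧ 1 ≤ G₀ ∧ ∀ (p G i m : ℕ) (u : Vc (n + 1)), p.Prime →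
    G₀ ≤ G → G ≤ m → Prim p u → Far p G i (Dl p i u) →
    c * (p : ℝ) ^ m / G ≤
      #{ρ ∈ cube (n + 1) (rad (n + 1) p G (i + m)) | ρ ∈ Dl p i u ∧ Prim p ρ}

/-! ### The density -/

-- deps:
def S_MART : Prop :=
  ∀ (D p j : ℕ) [Fact p.Prime] (i : ℕ) (Y : Finset (AA D p j)) (ρ : Vc D), i + 1 ≤ j → Prim p ρ →
    (∀ x ∈ Y, ∀ t, x + (p : RR p j) ^ i • t ∈ Y) →
    #{x ∈ Y | ρ ∈ DlA i x} ≤ p * #{x ∈ Y | ρ ∈ DlA (i + 1) x}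

/-- The potential. -/
noncomputable def Ph (D p j : ℕ) [Fact p.Prime] (G a b i : ℕ) (x : AA D p j) : ℝ :=
  ∑ k ∈ Ico a b with i ≤ k,
    (#{ρ ∈ cube D (rad D p G k) | ρ ∈ DlA i x ∧ Prim p ρ} : ℝ) * (p : ℝ) ^ i / (p : ℝ) ^ k

-- deps: MART
def S_ONE : Prop :=
  ∀ (D p j : ℕ) [Fact p.Prime] (G a b i : ℕ), 1 ≤ D → 1 ≤ G → 1 ≤ i → i + 1 ≤ j →
    ∑ x ∈ XX D p j G i, Ph D p j G a b i x ≤ ∑ x ∈ XX D p j G i, Ph D p j G a b (i + 1) x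

-- deps: UPB LOWB
def S_PHB : Prop :=
  ∀ n : ℕ, 1 ≤ n → ∀ (p : ℕ) [Fact p.Prime], ∃ (c A : ℝ) (G₀ : ℕ), 0 < c ∧ 0 < A ∧ 1 ≤ G₀ ∧
    ∀ (j G i : ℕ) (x : AA (n + 1) p j), G₀ ≤ G → 1 ≤ j → i ≤ j → x ∈ XX (n + 1) p j G i →
      c ≤ Ph (n + 1) p j G (i + G) (i + 2 * G) i x ∧
      ∀ a, Ph (n + 1) p j G a (a + G) (i + 1) x ≤ A

-- deps: ONE PHB
def S_WIN : Prop :=
  ∀ n : ℕ, 1 ≤ n → ∀ (p : ℕ) [Fact p.Prime], ∃ (θ : ℝ) (G₀ : ℕ), 0 ≤ θ ∧ θ < 1 ∧ 1 ≤ G₀ ∧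
    ∀ j G i : ℕ, G₀ ≤ G → 1 ≤ i → i + 2 * G ≤ j →
      (#(XX (n + 1) p j G (i + 2 * G)) : ℝ) ≤ θ * #(XX (n + 1) p j G i)

-- deps: WIN
def S_DENS : Prop :=
  ∀ n : ℕ, 1 ≤ n → ∀ (p : ℕ) [Fact p.Prime] (ε : ℝ), 0 < ε → ∃ K₀ G₀ : ℕ, ∀ j G : ℕ, G₀ ≤ G →
    K₀ * G ≤ j → (#(XX (n + 1) p j G j) : ℝ) ≤ ε * ((p : ℝ) ^ j) ^ (n + 1)

-- deps:
def S_FAR : Prop :=
  ∀ (n p B H l i : ℕ) (a : Vc n) (g : Gl (n + 1)), 0 < p → i ≤ l → Frame p B l a g →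
    ¬ Short p H (l - i) a → Far p ((n + 1) ^ (n + 1) * B * H) i (Dl p i (col g))

-- deps: FAR VN.FFB
def S_SUPP : Prop :=
  ∀ (n p j : ℕ) [Fact p.Prime] (B l : ℕ) (S : Finset (Vc n)),
    vv p j B l S ≤ √(((p : ℝ) ^ j) ^ (n + 1)) * #S ∧
    ∀ H : ℕ, j ≤ l → (∀ a ∈ S, (∃ g, Frame p B l a g) ∧ ∀ i ≤ j, ¬ Short p H (l - i) a) →
      (#S : ℝ) ^ 2 * ((p : ℝ) ^ j) ^ (n + 1) ≤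
        vv p j B l S ^ 2 * #(XX (n + 1) p j ((n + 1) ^ (n + 1) * B * H) j)

/-! ### The count -/

-- deps: STEP SUPP REC EK.FRAME
def S_NU : Prop :=
  ∀ n w : ℕ, 1 ≤ n → 1 ≤ w → ∃ e : ℕ, 1 ≤ e ∧ ∀ (p : ℕ) [Fact p.Prime], ∃ u₀ : ℕ, ∀ u : ℕ,
    u₀ ≤ u → 1 ≤ u → ∃ (A : ℝ) (B M₀ : ℕ), 1 ≤ B ∧
    ∀ (M j a : ℕ) (z : Vc n) (S : Finset (Vc n)) (L : Finset ℕ), M₀ ≤ M →
      2 * (n + 1) * j ≤ u * M → 4 * a ≤ M → 4 * e * #(range (M + 1) \ L) ≤ M → 0 ∈ L →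
      (∀ x ∈ S, pre p (M * ((n + 1) * (72 * u))) x = z ∧ ∀ i ∈ L, i ≤ M →
        ¬ Short p (p ^ (w * (72 * u))) (i * ((n + 1) * (72 * u)))
          (pre p ((M - i) * ((n + 1) * (72 * u))) x)) →
      (p ^ (n * ((n + 1) * (72 * u)))) ^ M < #S * (p ^ u) ^ a →
      ∃ N ≤ M, M ≤ 2 * N ∧
        (∀ x ∈ S, ∃ g, Frame p B (N * ((n + 1) * (72 * u)))
          (pre p ((M - N) * ((n + 1) * (72 * u))) x) g) ∧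
        vv p j B (N * ((n + 1) * (72 * u))) (S.image (pre p ((M - N) * ((n + 1) * (72 * u))))) ≤
          A * #(S.image (pre p ((M - N) * ((n + 1) * (72 * u)))))

-- deps: NU SUPP DENS
def S_MIX : Prop :=
  ∀ n w : ℕ, 1 ≤ n → 1 ≤ w → ∃ e : ℕ, 1 ≤ e ∧ ∀ (p : ℕ) [Fact p.Prime], ∃ u₀ : ℕ, ∀ u : ℕ,
    u₀ ≤ u → 1 ≤ u → ∃ K H₀ M₀ : ℕ,
    ∀ (M j a H : ℕ) (z : Vc n) (S : Finset (Vc n)) (L : Finset ℕ), M₀ ≤ M → H₀ ≤ H → K * H ≤ j →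
      2 * (n + 1) * j ≤ u * M → 4 * a ≤ M → 4 * e * #(range (M + 1) \ L) ≤ M → 0 ∈ L →
      (∀ x ∈ S, pre p (M * ((n + 1) * (72 * u))) x = z ∧ (∀ i ∈ L, i ≤ M →
        ¬ Short p (p ^ (w * (72 * u))) (i * ((n + 1) * (72 * u)))
          (pre p ((M - i) * ((n + 1) * (72 * u))) x)) ∧
        ∀ t ≤ M * ((n + 1) * (72 * u)), ∀ l ≤ t,
          ¬ Short p H l (pre p (M * ((n + 1) * (72 * u)) - t) x)) →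
      #S * (p ^ u) ^ a ≤ (p ^ (n * ((n + 1) * (72 * u)))) ^ M

-- deps: LOWT MIX
def S_CNT : Prop :=
  ∀ n : ℕ, 1 ≤ n → ∃ g : ℕ, 1 ≤ g ∧ ∀ (p : ℕ) [Fact p.Prime], ∃ u₀ : ℕ, ∀ u : ℕ, u₀ ≤ u → 1 ≤ u →
    ∃ K H₀ : ℕ, ∀ (m H : ℕ) (z : Vc n) (S : Finset (Vc n)), H₀ ≤ H → K * H ≤ m →
      (∀ x ∈ S, pre p (g * m * ((n + 1) * (72 * u))) x = z ∧
        ∀ t ≤ g * m * ((n + 1) * (72 * u)), ∀ l ≤ t,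
          ¬ Short p H l (pre p (g * m * ((n + 1) * (72 * u)) - t) x)) →
      #S * (p ^ u) ^ m ≤ 3 * (2 * p ^ (n * ((n + 1) * (72 * u)))) ^ (g * m)

-- deps: CNT
def S_CORE : Prop :=
  ∀ n : ℕ, 1 ≤ n → ∃ c : ℝ, 0 < c ∧ c < 1 ∧ ∀ p : ℕ, p.Prime → ∃ L K H₀ : ℕ, 1 ≤ L ∧ 1 ≤ K ∧
    ∀ (m H : ℕ) (z : Vc n), H₀ ≤ H → K * H ≤ m → ∃ S : Finset (Vc n),
      Real.log (#S) ≤ (n - c) * Real.log p * (L * m : ℕ) ∧ ∀ x, pre p (L * m) x = z →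
        (∀ t ≤ L * m, ∀ l ≤ t, ¬ Short p H l (pre p (L * m - t) x)) → x ∈ S

/-! ### Dimension -/

-- deps:
-- imports: Pool.Agent.P.MP_246241_nt.EK.TDIM
def S_DIM : Prop :=
  ∀ (n p : ℕ) (E : Set (Fin n → ℝ)) (s : ℝ), 2 ≤ p → 0 < s →
    (∀ T₁ : ℕ, ∃ T ≥ T₁, ∃ F : Finset (Vc n), Real.log (#F) ≤ s * Real.log p * T ∧
      ∀ α ∈ E, (fun i => ⌊(p : ℝ) ^ T * α i⌋) ∈ F) → dimH E ≤ ENNReal.ofReal s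

-- deps:
def S_PICK : Prop :=
  ∀ (p L K H₀ T₁ : ℕ) (f : ℕ → ℝ) (A : ℝ), 2 ≤ p → 1 ≤ L → 1 ≤ K → Monotone f →
    (¬ ∃ δ : ℝ, 0 < δ ∧ ∃ N : ℕ, ∀ k : ℕ, N ≤ k → δ * Real.log k ≤ f k) →
    ∃ m H : ℕ, T₁ ≤ L * m ∧ H₀ ≤ H ∧ K * H ≤ m ∧ A * max 1 (f (p ^ (L * m))) < H

-- deps: CORE DIM PICK EK.FIN
def S_PIECE : Prop :=
  ∀ n : ℕ, 1 ≤ n → ∃ c : ℝ, 0 < c ∧ ∀ (p : ℕ) (f : ℕ → ℝ) (δ : ℝ) (z : Vc n), p.Prime →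
    Monotone f → (¬ ∃ δ : ℝ, 0 < δ ∧ ∃ N : ℕ, ∀ k : ℕ, N ≤ k → δ * Real.log k ≤ f k) → 0 < δ →
    dimH {α : Fin n → ℝ | (fun i => ⌊α i⌋) = z ∧ ∀ k : ℕ, 1 ≤ k → ∃ i, δ ≤
      ((k : ℝ) * ((padicNorm p (k : ℚ) : ℚ) : ℝ)) ^ ((1 : ℝ) / (n : ℝ)) *
        max 1 (f k) ^ ((1 : ℝ) / (n : ℝ)) *
        |(k : ℝ) * α i - ((round ((k : ℝ) * α i) : ℤ) : ℝ)|} ≤ ENNReal.ofReal (n - c)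

-- deps: PIECE
-- imports: Pool.Agent.P.MP_246241_nt.EK.TMAIN
def S_UPPER : Prop :=
  ∀ n : ℕ, 1 ≤ n → ∃ c : ℝ, 0 < c ∧ ∀ (p : ℕ) (f : ℕ → ℝ), p.Prime → Monotone f → 0 ≤ f 0 →
    (¬ ∃ δ : ℝ, 0 < δ ∧ ∃ N : ℕ, ∀ k : ℕ, N ≤ k → δ * Real.log k ≤ f k) →
    dimH (Ex n p f) ≤ ENNReal.ofReal (n - c)

-- deps:
-- imports: Pool.Agent.P.MP_246241_nt.EK.TMAIN
def S_LOWER : Prop :=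
  ∀ (n p : ℕ) (f : ℕ → ℝ), 1 ≤ n → p.Prime → dimH (VN.Mad n p) = n →
    (∃ δ : ℝ, 0 < δ ∧ ∃ N : ℕ, ∀ k : ℕ, N ≤ k → δ * Real.log k ≤ f k) → dimH (Ex n p f) = n

end Pool.Agent.P.MP_246241_nt.TH
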