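import Pool.Agent.P.MP_246241_nt.TH.Iface

/-! Step CNT. -/

set_option autoImplicit false
set_option linter.unusedSectionVars false

namespace Pool.Agent.P.MP_246241_nt.TH

open Finset Matrix
open scoped Classical

theorem p_CNT (hLOWT : S_LOWT) (hMIX : S_MIX) :
    S_CNT := by
  intro n hn
  obtain ⟨w, hw, hlow⟩ := hLOWT n hn
  obtain ⟨e, he, hmix⟩ := hMIX n w hn hw
  refine ⟨4 * e * (72 * n + 2), by nlinarith, fun p hp => ?_⟩
  obtain ⟨u₀, hmix⟩ := hmix p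
  refine ⟨u₀ + 5 * n, fun u hu hu1 => ?_⟩
  obtain ⟨K, H₀, M₀, hmix⟩ := hmix u (by omega) hu1
  refine ⟨K + 1, H₀ + M₀, fun m H z S hH hK hS => ?_⟩
  have p2 : 2 ≤ p := hp.out.two_le
  obtain ⟨M, hM⟩ : ∃ M, M = 4 * e * (72 * n + 2) * m := ⟨_, rfl⟩
  rw [← hM] at hS ⊢
  obtain ⟨Sh, hSh⟩ : ∃ Sh : ℕ → Vc n → Prop, Sh = fun i x => Short p (p ^ (w * (72 * u)))
      (i * ((n + 1) * (72 * u))) (pre p ((M - i) * ((n + 1) * (72 * u))) x) := ⟨_, rfl⟩
  obtain ⟨Q, hQ⟩ : ∃ Q, Q = p ^ (n * ((n + 1) * (72 * u))) := ⟨_, rfl⟩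
  have hHm : H ≤ m := by nlinarith
  have hg : 2 * (n + 1) ≤ 4 * e * (72 * n + 2) := by nlinarith
  have hg4 : 4 ≤ 4 * e * (72 * n + 2) := by nlinarith
  have hm4 : 4 * m ≤ M := by rw [hM]; exact Nat.mul_le_mul_right _ hg4
  have h5 : 5 * n ≤ p ^ u := by
    have := Nat.lt_pow_self (n := u) (show 1 < p by omega)
    omega
  have h1 := hlow p u M m z {x ∈ S | (72 * n + 2) * m < #{i ∈ range (M + 1) | Sh i x}} p2 hu1 h5
    (fun x hx => (hS x (mem_filter.1 hx).1).1)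
    (fun x hx => by have := (mem_filter.1 hx).2; rw [hSh] at this; convert this)
  obtain ⟨S₂, hS₂⟩ : ∃ S₂ : Finset (Vc n),
      S₂ = {x ∈ S | ¬ (72 * n + 2) * m < #{i ∈ range (M + 1) | Sh i x}} := ⟨_, rfl⟩
  have h2 : #S₂ * (p ^ u) ^ m ≤ 2 ^ (M + 1) * Q ^ M := by
    rw [card_eq_sum_card_fiberwise (s := S₂) (t := (range (M + 1)).powerset)
      (f := fun x => {i ∈ range (M + 1) | ¬ Sh i x})
      (fun x _ => by simp only [coe_powerset, Set.mem_preimage, Set.mem_powerset_iff, coe_subset]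
                     exact filter_subset _ _), sum_mul]
    refine (sum_le_card_nsmul _ _ (Q ^ M) fun L _ => ?_).trans_eq
      (by rw [card_powerset, card_range, smul_eq_mul])
    rcases eq_empty_or_nonempty {x ∈ S₂ | {i ∈ range (M + 1) | ¬ Sh i x} = L} with h0 | ⟨x₀, hx₀⟩
    · rw [h0, card_empty, zero_mul]; exact Nat.zero_le _
    obtain ⟨hx₁, hx₂⟩ := mem_filter.1 hx₀
    rw [hS₂] at hx₁
    have hc : #(range (M + 1) \ L) ≤ (72 * n + 2) * m := by
      refine le_trans (card_le_card fun i hi => ?_) (not_lt.1 (mem_filter.1 hx₁).2)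
      obtain ⟨hi1, hi2⟩ := mem_sdiff.1 hi
      refine mem_filter.2 ⟨hi1, by_contra fun h => hi2 ?_⟩
      rw [← hx₂]
      exact mem_filter.2 ⟨hi1, h⟩
    rw [hQ]
    refine hmix M (u * m) m H z _ L (by omega) (by omega) ?_ ?_ hm4 ?_ ?_ fun x hx => ?_
    · calc K * H ≤ m := by nlinarith
        _ ≤ u * m := Nat.le_mul_of_pos_left _ hu1
    · calc 2 * (n + 1) * (u * m) ≤ 4 * e * (72 * n + 2) * (u * m) := Nat.mul_le_mul_right _ hg
        _ = u * M := by rw [hM]; ring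
    · calc 4 * e * #(range (M + 1) \ L) ≤ 4 * e * ((72 * n + 2) * m) := Nat.mul_le_mul_left _ hc
        _ = M := by rw [hM]; ring
    · rw [← hx₂]
      refine mem_filter.2 ⟨mem_range.2 (by omega), fun h => ?_⟩
      rw [hSh] at h
      have h3 := short_le (by omega) h
      rw [zero_mul, mul_zero, pow_zero] at h3
      have h4 : 1 < p ^ (w * (72 * u)) := Nat.one_lt_pow (by positivity) (by omega)
      omega
    · obtain ⟨hy₁, hy₂⟩ := mem_filter.1 hx
      rw [hS₂] at hy₁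
      have hy := hS x (mem_filter.1 hy₁).1
      refine ⟨hy.1, fun i hi _ => ?_, hy.2⟩
      rw [← hy₂] at hi
      have := (mem_filter.1 hi).2
      rw [hSh] at this
      exact this
  rw [← card_filter_add_card_filter_not (s := S)
    (fun x => (72 * n + 2) * m < #{i ∈ range (M + 1) | Sh i x}), add_mul, ← hS₂, ← hQ]
  rw [← hQ] at h1
  calc _ ≤ (2 * Q) ^ M + 2 ^ (M + 1) * Q ^ M := Nat.add_le_add h1 h2
    _ = 3 * (2 * Q) ^ M := by rw [mul_pow, pow_succ]; ring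

end Pool.Agent.P.MP_246241_nt.TH
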