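import Pool.Agent.P.MP_246241_nt.TH.Iface

/-! Step CORE. -/

set_option autoImplicit false
set_option linter.unusedSectionVars false

namespace Pool.Agent.P.MP_246241_nt.TH

open Finset Matrix
open scoped Classical

theorem p_CORE (hCNT : S_CNT) :
    S_CORE := by
  intro n hn
  obtain ⟨g, hg, hC⟩ := hCNT n hn
  have hg' : (1 : ℝ) ≤ g := by exact_mod_cast hg
  have hn' : (1 : ℝ) ≤ n := by exact_mod_cast hn
  have hden : (1 : ℝ) < 144 * (n + 1) * g := by nlinarith
  refine ⟨1 / (144 * (n + 1) * g), by positivity, by rw [div_lt_one (by linarith)]; exact hden,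
    fun p hp => ?_⟩
  haveI : Fact p.Prime := ⟨hp⟩
  obtain ⟨u₀, hu⟩ := hC p
  obtain ⟨u, hu1, hu2⟩ : ∃ u : ℕ, u₀ ≤ u ∧ 2 * g + 4 ≤ u := ⟨u₀ + 2 * g + 4, by omega, by omega⟩
  obtain ⟨K, H₀, hK⟩ := hu u hu1 (by omega)
  refine ⟨g * ((n + 1) * (72 * u)), K + 1, H₀ + 1, ?_, by omega, fun m H z hH hm => ?_⟩
  · exact Nat.mul_pos hg (Nat.mul_pos (by omega) (by omega))
  have hm1 : 1 ≤ m := le_trans (Nat.mul_pos (by omega) (by omega)) hm
  have hT : g * ((n + 1) * (72 * u)) * m = g * m * ((n + 1) * (72 * u)) := by ring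
  rw [hT]
  obtain ⟨T, hTd⟩ : ∃ T, T = g * m * ((n + 1) * (72 * u)) := ⟨_, rfl⟩
  have hpT : (0 : ℤ) < (p : ℤ) ^ T := by have := hp.pos; positivity
  obtain ⟨S, hS⟩ : ∃ S : Finset (Vc n), S = (Fintype.piFinset fun i =>
      Finset.Ico ((p : ℤ) ^ T * z i) ((p : ℤ) ^ T * (z i + 1))).filter
        fun x => pre p T x = z ∧ ∀ t ≤ T, ∀ l ≤ t, ¬ Short p H l (pre p (T - t) x) := ⟨_, rfl⟩
  have key := hK m H z S (by omega) (le_trans (Nat.mul_le_mul_right H (Nat.le_succ K)) hm)
    (by rw [← hTd]; exact fun x hx => (mem_filter.1 (hS.le hx)).2)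
  rw [← hTd]
  have hp2 : (2 : ℝ) ≤ p := by exact_mod_cast hp.two_le
  have hl2 : 0 < Real.log 2 := Real.log_pos one_lt_two
  have hlp : Real.log 2 ≤ Real.log p := Real.log_le_log two_pos hp2
  have hc1 : 1 / (144 * ((n : ℝ) + 1) * g) ≤ 1 := by rw [div_le_one (by linarith)]; exact hden.le
  refine ⟨S, ?_, fun x hx hs => ?_⟩
  · rcases S.eq_empty_or_nonempty with h0 | h0
    · rw [h0]
      simp only [card_empty, Nat.cast_zero, Real.log_zero]
      exact mul_nonneg (mul_nonneg (by linarith) (by linarith)) (Nat.cast_nonneg _)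
    · have c0 : (0 : ℝ) < #S := by exact_mod_cast h0.card_pos
      have hp0 : (0 : ℝ) < p := by linarith
      have k1 : (#S : ℝ) * ((p : ℝ) ^ u) ^ m ≤
          3 * (2 * (p : ℝ) ^ (n * ((n + 1) * (72 * u)))) ^ (g * m) := by exact_mod_cast key
      have k2 := Real.log_le_log (by positivity) k1
      rw [Real.log_mul c0.ne' (by positivity), Real.log_mul (by norm_num) (by positivity),
        Real.log_pow, Real.log_pow, Real.log_pow, Real.log_mul (by norm_num) (by positivity),
        Real.log_pow] at k2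
      have h3 : Real.log 3 ≤ 2 * Real.log 2 := by
        have : Real.log 3 ≤ Real.log (2 ^ 2) := Real.log_le_log (by norm_num) (by norm_num)
        rwa [Real.log_pow] at this
      have hm' : (1 : ℝ) ≤ m := by exact_mod_cast hm1
      have hu' : 2 * (g : ℝ) + 4 ≤ u := by exact_mod_cast hu2
      have e1 : (n - 1 / (144 * ((n : ℝ) + 1) * g)) * Real.log p * (T : ℕ) =
          g * m * (n * ((n + 1) * (72 * u)) * Real.log p) - m * (u * Real.log p) / 2 := by
        rw [hTd]
        push_cast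
        field_simp
        ring
      rw [e1]
      push_cast at k2
      have k3 : 2 * Real.log 2 + g * m * Real.log 2 ≤ m * (u * Real.log p) / 2 := by
        have a1 : (2 * (g : ℝ) + 4) * Real.log 2 ≤ u * Real.log p :=
          mul_le_mul hu' hlp hl2.le (by positivity)
        have a2 := mul_le_mul_of_nonneg_left a1 (by linarith : (0 : ℝ) ≤ m)
        nlinarith
      nlinarith
  · rw [hS, mem_filter, Fintype.mem_piFinset]
    refine ⟨fun i => ?_, hx, hs⟩
    have e : x i / (p : ℤ) ^ T = z i := congrFun hx i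
    rw [← e, Finset.mem_Ico]
    exact ⟨Int.mul_ediv_self_le hpT.ne', Int.lt_mul_ediv_self_add hpT |>.trans_eq (by ring)⟩

end Pool.Agent.P.MP_246241_nt.TH
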