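import Pool.Agent.P.MP_246241_nt.TH.Iface

/-! Step CRU2. -/

set_option autoImplicit false
set_option linter.unusedSectionVars false

namespace Pool.Agent.P.MP_246241_nt.TH

open Finset Matrix
open scoped Classical

theorem p_CRU2 (hHYP : VN.S_HYP) (hSLAB : VN.S_SLAB) (hPT2 : S_PT2) :
    S_CRU2 := by
  intro n hn
  refine ⟨n * (n + 1) + (n + 1).factorial * 2 ^ (n + 1),
    le_trans (Nat.mul_pos hn (Nat.succ_pos n)) (Nat.le_add_right _ _),
    fun p H η δ l a₀ S hp hδ hH h0 hS => ?_⟩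
  have hη : 1 ≤ η := by omega
  rcases S.eq_empty_or_nonempty with rfl | ⟨a₁, h₁⟩
  · simp
  choose W V hV h1 h2' h3 using fun a : S =>
    hPT2 n p H η δ l a₀ a hp hδ h0 (hS a a.2).1 (hS a a.2).2
  have h2 : ∀ (a : S) c, ((p ^ ((n * (n + 1) + (n + 1).factorial * 2 ^ (n + 1)) * η) : ℕ) : ℤ) *
      |V a c| ^ (n + 1) ≤ 2 ^ (n + 1) * (p : ℤ) ^ (n * (l + (n + 1) * η)) := fun a c =>
    le_trans (mul_le_mul_of_nonneg_right (by exact_mod_cast hH) (by positivity)) (h2' a c)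
  have p0 : (0 : ℤ) < p := by exact_mod_cast (by omega : 0 < p)
  have p1 : (0 : ℝ) < p := by exact_mod_cast p0
  obtain ⟨ξ, hξ, hx⟩ := hHYP (n + 1) (Set.range fun a : S => rv ℝ (V a)) fun M hM => by
    choose f hf using hM
    have e0 : ∀ i j, (Matrix.of (fun i => W (f i)) * Tm p l a₀) i j = V (f i) j := fun i j => by
      rw [hV]; rfl
    have e : M = rd ℝ (Matrix.of (fun i => W (f i)) * Tm p l a₀) := by
      ext i j
      rw [rd_apply, e0, ← hf i]; rfl
    rw [e, det_rd, Int.cast_eq_zero]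
    obtain ⟨x, hm⟩ := Finite.exists_max fun x : Fin (n + 1) × Fin (n + 1) => |V (f x.1) x.2|
    refine Int.eq_zero_of_abs_lt_dvd (m := (p : ℤ) ^ (n * l)) ?_ ?_
    · rw [det_mul, ← det_Tm p l a₀, abs_dvd]; exact dvd_mul_left _ _
    refine (det_le_prod _ (fun _ => |V (f x.1) x.2|) fun i j => by
      rw [e0]; exact hm (i, j)).trans_lt ?_
    have a := h2 (f x.1) x.2
    rw [prod_const, card_univ, Fintype.card_fin]
    generalize |V (f x.1) x.2| ^ (n + 1) = u at a ⊢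
    have b : (((n + 1).factorial * 2 ^ (n + 1) : ℕ) : ℤ) <
        (p ^ ((n + 1).factorial * 2 ^ (n + 1) * η) : ℕ) := by
      exact_mod_cast (Nat.lt_pow_self hp).trans_le
        (Nat.pow_le_pow_right (by omega) (Nat.le_mul_of_pos_right _ hη))
    rw [add_mul (n * (n + 1)), pow_add p, mul_add n l, pow_add (p : ℤ), mul_assoc n] at a
    generalize p ^ ((n + 1).factorial * 2 ^ (n + 1) * η) = K at a b
    push_cast at a b
    have a' : (K : ℤ) * u ≤ 2 ^ (n + 1) * (p : ℤ) ^ (n * l) :=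
      le_of_mul_le_mul_left (a := (p : ℤ) ^ (n * ((n + 1) * η))) (by linarith) (by positivity)
    have k0 : (0 : ℤ) < K := lt_of_le_of_lt (by positivity) b
    refine lt_of_mul_lt_mul_left ?_ k0.le
    calc _ = ((n + 1).factorial : ℤ) * (K * u) := by ring
      _ ≤ ((n + 1).factorial : ℤ) * 2 ^ (n + 1) * (p : ℤ) ^ (n * l) := by
          rw [mul_assoc]; gcongr
      _ < _ := by gcongr
  have hy : ∀ a : S, (V a 0 : ℝ) * ξ 0 + ∑ i : Fin n, (V a i.succ : ℝ) * ξ i.succ = 0 := fun a => by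
    simpa only [dotProduct, Fin.sum_univ_succ, rv_apply] using hx _ ⟨a, rfl⟩
  have v0 : ∀ a : S, (V a 0 : ℝ) ≠ 0 := fun a => by exact_mod_cast h1 a
  have k := hSLAB n (p ^ ((n + 1) * η))
    (S.image fun a => a - fun i => (p : ℤ) ^ ((n + 1) * η) * a₀ i) (fun i => ξ i.succ)
    ((p : ℝ) ^ ((n + 1) * η) * ξ 0) (2 * (p : ℝ) ^ (n * η + δ)) (fun h => hξ (by
      have h' : ∀ i : Fin n, ξ i.succ = 0 := congrFun h
      have := hy ⟨a₁, h₁⟩
      simp only [h', mul_zero, sum_const_zero, add_zero] at this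
      exact funext fun j => Fin.cases ((mul_eq_zero.1 this).resolve_left (v0 _)) h' j))
    (by positivity) fun d hd => by
      obtain ⟨a, ha, rfl⟩ := mem_image.1 hd
      have q0 : (0 : ℤ) < (p : ℤ) ^ ((n + 1) * η) := by positivity
      refine ⟨fun i => ?_, fun i => -(p : ℝ) ^ ((n + 1) * η) * V ⟨a, ha⟩ i.succ / V ⟨a, ha⟩ 0,
        ?_, fun i => ?_⟩
      · rw [← (hS a ha).1]
        simp only [Pi.sub_apply, pre, ← Int.emod_def, Nat.cast_pow]
        exact ⟨Int.emod_nonneg _ q0.ne', Int.emod_lt_of_pos _ q0⟩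
      · have := v0 ⟨a, ha⟩
        simp only [dotProduct, div_mul_eq_mul_div, mul_assoc, ← sum_div, ← mul_sum]
        rw [eq_neg_of_add_eq_zero_right (hy ⟨a, ha⟩)]
        field_simp
      · have := v0 ⟨a, ha⟩
        have h : |(p : ℝ) ^ ((n + 1) * η) * V ⟨a, ha⟩ i.succ + V ⟨a, ha⟩ 0 *
            (a i - (p : ℝ) ^ ((n + 1) * η) * a₀ i)| ≤
            2 * (p : ℝ) ^ (n * η + δ) * |(V ⟨a, ha⟩ 0 : ℝ)| := by
          exact_mod_cast h3 ⟨a, ha⟩ i
        rw [← div_le_iff₀ (abs_pos.2 this), ← abs_div] at h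
        refine le_of_eq_of_le (congrArg _ ?_) h
        rw [Pi.sub_apply]
        push_cast
        field_simp
        ring
  rw [card_image_of_injective _ sub_left_injective] at k
  have n1 : (1 : ℝ) ≤ n := by exact_mod_cast hn
  have q1 : (1 : ℝ) ≤ (p : ℝ) ^ (n * η + δ) := one_le_pow₀ (by exact_mod_cast (by omega : 1 ≤ p))
  have : (#S : ℝ) * (p : ℝ) ^ η ≤ 5 * n * (p : ℝ) ^ δ * (p : ℝ) ^ (n * ((n + 1) * η)) := by
    refine le_of_mul_le_mul_left (a := (p : ℝ) ^ (n * η)) ?_ (by positivity)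
    push_cast at k
    rw [← pow_mul, mul_comm _ n] at k
    calc _ = (#S : ℝ) * (p : ℝ) ^ ((n + 1) * η) := by ring
      _ ≤ _ := k
      _ ≤ 5 * n * (p : ℝ) ^ (n * η + δ) * (p : ℝ) ^ (n * ((n + 1) * η)) := by
          gcongr; nlinarith
      _ = _ := by ring
  exact_mod_cast this

end Pool.Agent.P.MP_246241_nt.TH
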