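import Pool.Agent.P.MP_246241_nt.TH.Iface

/-! Step DENS. -/

set_option autoImplicit false
set_option linter.unusedSectionVars false

namespace Pool.Agent.P.MP_246241_nt.TH

open Finset Matrix
open scoped Classical

theorem p_DENS (hWIN : S_WIN) :
    S_DENS := by
  intro n hn p _ ε hε
  obtain ⟨θ, G₀, h0, h1, hG₀, H⟩ := hWIN n hn p
  obtain ⟨s, hs⟩ := exists_pow_lt_of_lt_one hε h1
  refine ⟨2 * s + 1, G₀, fun j G hG hj => ?_⟩
  have hq : (0 : ℝ) ≤ ((p : ℝ) ^ j) ^ (n + 1) := by positivity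
  have key : ∀ t : ℕ, 1 + 2 * G * t ≤ j →
      (#(XX (n + 1) p j G (1 + 2 * G * t)) : ℝ) ≤ θ ^ t * ((p : ℝ) ^ j) ^ (n + 1) := by
    intro t
    induction t with
    | zero =>
      intro _
      have := card_le_univ (XX (n + 1) p j G (1 + 2 * G * 0))
      rw [card_AA] at this
      rw [pow_zero, one_mul]
      exact_mod_cast this
    | succ t ih =>
      intro ht
      have e : 1 + 2 * G * (t + 1) = 1 + 2 * G * t + 2 * G := by ring
      rw [e] at ht ⊢
      refine (H j G (1 + 2 * G * t) hG (by omega) ht).trans ?_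
      rw [pow_succ θ, mul_comm (θ ^ t), mul_assoc θ]
      exact mul_le_mul_of_nonneg_left (ih (by omega)) h0
  have hj' : 1 + 2 * G * s ≤ j := by nlinarith
  have h2 : (#(XX (n + 1) p j G j) : ℝ) ≤ #(XX (n + 1) p j G (1 + 2 * G * s)) := by
    exact_mod_cast card_le_card (XX_anti hj')
  exact h2.trans ((key s hj').trans (mul_le_mul_of_nonneg_right hs.le hq))

end Pool.Agent.P.MP_246241_nt.TH
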