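import Pool.Agent.P.MP_246241_nt.TH.Iface

/-! Step DICH. -/

set_option autoImplicit false
set_option linter.unusedSectionVars false

namespace Pool.Agent.P.MP_246241_nt.TH

open Finset Matrix
open scoped Classical

theorem p_DICH (hPACK : S_PACK) (hHYP : VN.S_HYP) :
    S_DICH := by
  intro n
  have hθ : (((1 : ℝ) / 2) ^ (((n + 1 : ℕ) : ℝ)⁻¹)) ^ (n + 1) = 1 / 2 :=
    Real.rpow_inv_natCast_pow (by norm_num) (Nat.succ_ne_zero n)
  have h0 : (0 : ℝ) ≤ ((1 : ℝ) / 2) ^ (((n + 1 : ℕ) : ℝ)⁻¹) := by positivity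
  refine ⟨(4 * (n + 1)) ^ n, _, by positivity, h0,
    Real.rpow_lt_one (by norm_num) (by norm_num) (by positivity), ?_⟩
  generalize ((1 : ℝ) / 2) ^ (((n + 1 : ℕ) : ℝ)⁻¹) = θ at hθ h0
  intro p G i m y u P hp hG hF hy hP hD
  refine or_iff_not_imp_left.2 fun hV => ?_
  obtain ⟨ξ, x0, hξ⟩ := hHYP (n + 1) (rv ℝ '' (P : Set (Vc (n + 1)))) fun M hM => by
    choose V h1 h2 using hM
    have e : M = rd ℝ (Matrix.of V) := by ext a c; rw [← h2 a]; rfl
    by_contra h3
    rw [e, det_rd] at h3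
    exact hV ⟨Matrix.of V, fun e => h3 (by rw [e, Int.cast_zero]), h1⟩
  set r := rad (n + 1) p G i with hr
  have r0 : (0 : ℝ) < r + 1 := by positivity
  have p2 : (2 : ℝ) ≤ p := by exact_mod_cast hp
  set t : ℝ := max 1 (y / (r + 1)) with ht
  have t1 : 1 ≤ t := le_max_left _ _
  have k1 : t ^ (n + 1) ≤ (p : ℝ) ^ m := by
    rcases le_total 1 ((y : ℝ) / (r + 1)) with h | h
    · rw [ht, max_eq_right h, div_pow, div_le_iff₀ (by positivity)]
      have a1 : G * y ^ (n + 1) ≤ G * (p ^ m * (r + 1) ^ (n + 1)) := by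
        refine hy.trans ?_
        rw [pow_add, mul_left_comm, mul_comm (p ^ i)]
        exact Nat.mul_le_mul_left _ (lt_rad (by omega) hG).le
      exact_mod_cast Nat.le_of_mul_le_mul_left a1 hG
    · rw [ht, max_eq_left h, one_pow]
      exact one_le_pow₀ (by linarith)
  have k2 : t ^ n ≤ (p * θ) ^ m := by
    refine le_of_pow_le_pow_left₀ (Nat.succ_ne_zero n) (by positivity) ?_
    rw [← pow_mul, mul_comm n, pow_mul, ← pow_mul (p * θ), mul_comm m, pow_mul, mul_pow, hθ]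
    refine (pow_le_pow_left₀ (by positivity) k1 n).trans ?_
    rw [← pow_mul, mul_comm m, pow_mul]
    refine pow_le_pow_left₀ (by positivity) ?_ m
    have : (0 : ℝ) ≤ (p : ℝ) ^ n := by positivity
    rw [pow_succ]
    nlinarith
  refine (hPACK n y r P ξ t x0 t1 ?_ hP (fun ρ h => hξ _ ⟨ρ, h, rfl⟩) fun ρ h ρ' h' e => ?_).trans ?_
  · exact (div_le_iff₀ r0).1 (le_max_right _ _)
  · refine sub_eq_zero.1 (hF (ρ - ρ') ?_ fun c => (abs_le_rad (by omega) hG).1 (e c))
    rw [mem_Dl, sub_dotProduct]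
    exact dvd_sub (hD ρ h) (hD ρ' h')
  · rw [mul_pow]
    exact mul_le_mul_of_nonneg_left k2 (by positivity)

end Pool.Agent.P.MP_246241_nt.TH
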