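import Pool.Agent.P.MP_246241_nt.TH.Iface

/-! Step DOMS. -/

set_option autoImplicit false
set_option linter.unusedSectionVars false

namespace Pool.Agent.P.MP_246241_nt.TH

open Finset Matrix
open scoped Classical

namespace DOMSx

theorem sum_FF {n p j : ℕ} [Fact p.Prime] (B l : ℕ) (S : Finset (Vc n))
    (φ : AA (n + 1) p j → ℝ) :
    ∑ y, FF p j B l S y * φ y = ∑ a ∈ S, φ (rv (RR p j) (col (fr p B l a))) := by
  rw [← sum_fiberwise S (fun a => rv (RR p j) (col (fr p B l a)))]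
  refine sum_congr rfl fun y _ => ?_
  rw [sum_congr rfl fun a ha => congrArg φ (mem_filter.1 ha).2, sum_const, nsmul_eq_mul, VN.FF]

end DOMSx

theorem p_DOMS (hSHELL : VN.S_SHELL) (hMULT : EK.S_MULT) :
    S_DOMS := by
  intro n
  obtain ⟨e, he⟩ := hMULT n
  refine ⟨e, ?_⟩
  intro p j hp B l β S S' hB hpre hS hS'
  have hp0 : 0 < p := hp.out.pos
  obtain ⟨gam, hg⟩ : ∃ gam : Vc n → Gl (n + 1), ∀ a, gam a =
    fr p B (l + (n + 1) * β) a * (fr p B l (pre p ((n + 1) * β) a))⁻¹ := ⟨_, fun _ => rfl⟩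
  have hg' : ∀ a, fr p B (l + (n + 1) * β) a = gam a * fr p B l (pre p ((n + 1) * β) a) :=
    fun a => by rw [hg, inv_mul_cancel_right]
  refine ⟨S'.image gam, fun γ hγ => ?_, ?_⟩
  · obtain ⟨a, ha, rfl⟩ := mem_image.1 hγ
    rw [hg]
    exact hSHELL n p B l β _ a _ _ hp0 (by omega) rfl (fr_spec (hS _ (hpre a ha)))
      (fr_spec (hS' a ha))
  obtain ⟨F, hF⟩ : ∃ F, F = Sy (FF p j B (l + (n + 1) * β) S') := ⟨_, rfl⟩
  have hF0 : ∀ x, 0 ≤ F x := fun x => hF ▸ Sy_nonneg (VN.FF_nonneg p j B _ S') x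
  have hU : UI F := hF ▸ UI_Sy _
  obtain ⟨ψ, hψ⟩ : ∃ ψ : Gl (n + 1) × Vc n → ℝ, ∀ z, ψ z =
    F (rd (RR p j) (z.1 : Mt (n + 1)) *ᵥ rv (RR p j) (col (fr p B l z.2))) := ⟨_, fun _ => rfl⟩
  have h1 : nn (Sy (FF p j B (l + (n + 1) * β) S')) =
      nU p j * ∑ a ∈ S', ψ (gam a, pre p ((n + 1) * β) a) := by
    rw [nn_eq, ip_Sy _ (UI_Sy _), BV.ip, DOMSx.sum_FF]
    refine congrArg _ (sum_congr rfl fun a _ => ?_)
    rw [hψ, ← hF, hg' a, col_mul, rv_mulVec]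
  have h2 : ∑ γ ∈ S'.image gam, ip (Sy (FF p j B l S))
      (fun x => Sy (FF p j B (l + (n + 1) * β) S') (rd (RR p j) (γ : Mt (n + 1)) *ᵥ x)) =
      nU p j * ∑ z ∈ S'.image gam ×ˢ S, ψ z := by
    rw [sum_product, mul_sum]
    refine sum_congr rfl fun γ _ => ?_
    rw [ip_Sy _ ((UI_Sy _).comp _), BV.ip, DOMSx.sum_FF]
    exact congrArg _ (sum_congr rfl fun a _ => by rw [hψ, ← hF])
  rw [h1, h2, mul_left_comm]
  refine mul_le_mul_of_nonneg_left ?_ nU_pos.le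
  rw [← sum_fiberwise_of_maps_to (t := S'.image gam ×ˢ S)
    (g := fun a => (gam a, pre p ((n + 1) * β) a))
    fun a ha => mem_product.2 ⟨mem_image_of_mem _ ha, hpre a ha⟩, mul_sum]
  refine sum_le_sum fun z _ => ?_
  rw [sum_congr rfl fun a ha => congrArg ψ (mem_filter.1 ha).2, sum_const, nsmul_eq_mul]
  refine mul_le_mul_of_nonneg_right ?_ (by rw [hψ]; exact hF0 _)
  obtain ⟨T, hT1, hT2⟩ := he p B (l + (n + 1) * β) (z.1 * fr p B l z.2) hp0 hB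
  have : #{a ∈ S' | (gam a, pre p ((n + 1) * β) a) = z} ≤ B ^ e := by
    refine (card_le_card fun a ha => hT2 a ?_).trans hT1
    obtain ⟨h3, h4⟩ := mem_filter.1 ha
    rw [← h4, ← hg' a]
    exact fr_spec (hS' a h3)
  exact_mod_cast this

end Pool.Agent.P.MP_246241_nt.TH
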