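import Pool.Agent.P.MP_246241_nt.TH.Iface

/-! Step FAR. -/

set_option autoImplicit false
set_option linter.unusedSectionVars false

namespace Pool.Agent.P.MP_246241_nt.TH

open Finset Matrix
open scoped Classical

namespace FARx

theorem sum_pow {n : ℕ} (t : Fin (n + 1) → ℤ) (G M : ℤ) (hG : 0 ≤ G)
    (h : ∀ k, G * |t k| ^ (n + 1) ≤ M) :
    G * |∑ k, t k| ^ (n + 1) ≤ ((n + 1 : ℕ) : ℤ) ^ (n + 1) * M := by
  obtain ⟨k, -, hk⟩ := exists_max_image (univ : Finset (Fin (n + 1))) (fun k => |t k|) univ_nonempty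
  have h1 : |∑ k, t k| ≤ ((n + 1 : ℕ) : ℤ) * |t k| := by
    refine (abs_sum_le_sum_abs _ _).trans ?_
    have := sum_le_card_nsmul (univ : Finset (Fin (n + 1))) (fun k => |t k|) _ hk
    simpa using this
  calc G * |∑ k, t k| ^ (n + 1) ≤ G * (((n + 1 : ℕ) : ℤ) * |t k|) ^ (n + 1) :=
        mul_le_mul_of_nonneg_left (pow_le_pow_left₀ (abs_nonneg _) h1 _) hG
    _ = ((n + 1 : ℕ) : ℤ) ^ (n + 1) * (G * |t k| ^ (n + 1)) := by rw [mul_pow]; ring
    _ ≤ _ := mul_le_mul_of_nonneg_left (h k) (by positivity)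

end FARx

theorem p_FAR :
    S_FAR := by
  intro n p B H l i x g hp hl hg hs
  obtain ⟨l, rfl⟩ := Nat.exists_eq_add_of_le' hl
  rw [Nat.add_sub_cancel] at hs
  have hB : 0 < B := Nat.pos_of_ne_zero fun e => by
    have h1 := det_frame p (l + i) x g
    rw [det_eq_zero_of_row_eq_zero 0 fun j => by
      have := hg 0 j
      rw [e, Nat.cast_zero, zero_mul] at this
      exact abs_eq_zero.1 (pow_eq_zero_iff (Nat.succ_ne_zero n) |>.1
        (le_antisymm this (by positivity))), abs_zero] at h1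
    exact absurd h1 (ne_of_lt (by positivity))
  intro ρ hρ hs'
  set w : Vc (n + 1) := ρ ᵥ* (g : Mt (n + 1)) with hw
  have h0 : (p : ℤ) ^ i ∣ w 0 := hρ
  obtain ⟨q, hq⟩ := h0
  set w' : Vc (n + 1) := Fin.cons q fun j => w j.succ with hw'
  have e : ∀ j, (p : ℤ) ^ i * (w' ᵥ* Tm p l x) j = (w ᵥ* Tm p (l + i) x) j := by
    intro j
    refine Fin.cases ?_ (fun j => ?_) j
    · rw [vecMul_Tm_zero, vecMul_Tm_zero, hq]; simp [hw']
    · rw [vecMul_Tm_succ, vecMul_Tm_succ, hq]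
      simp only [hw', Fin.cons_zero, Fin.cons_succ]; ring
  have hz : w' = 0 := by
    by_contra hne
    refine hs ⟨w', hne, fun j => ?_⟩
    have h1 := FARx.sum_pow (fun k => ρ k * ((g : Mt (n + 1)) * Tm p (l + i) x) k j)
      (((n + 1) ^ (n + 1) * B * H : ℕ) : ℤ)
      ((p : ℤ) ^ i * ((B : ℤ) * (p : ℤ) ^ (n * (l + i)))) (by positivity) fun k => by
        rw [abs_mul, mul_pow, ← mul_assoc]
        exact mul_le_mul (hs' k) (hg k j) (by positivity) (by positivity)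
    have h2 : ∑ k, ρ k * ((g : Mt (n + 1)) * Tm p (l + i) x) k j =
        (p : ℤ) ^ i * (w' ᵥ* Tm p l x) j := by
      rw [e, hw, vecMul_vecMul]; rfl
    rw [h2, abs_mul, abs_pow, Nat.abs_cast, mul_pow] at h1
    have hc : (0 : ℤ) < ((n + 1 : ℕ) : ℤ) ^ (n + 1) * (B : ℤ) * ((p : ℤ) ^ i) ^ (n + 1) := by
      positivity
    refine le_of_mul_le_mul_left ?_ hc
    calc _ = (((n + 1) ^ (n + 1) * B * H : ℕ) : ℤ) *
          (((p : ℤ) ^ i) ^ (n + 1) * |(w' ᵥ* Tm p l x) j| ^ (n + 1)) := by push_cast; ring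
      _ ≤ _ := h1
      _ = _ := by ring
  have hw0 : w = 0 := by
    ext j
    refine Fin.cases ?_ (fun j => ?_) j
    · have : q = 0 := by simpa [hw'] using congrFun hz 0
      simp [hq, this]
    · simpa [hw'] using congrFun hz j.succ
  have : ρ = w ᵥ* ((g⁻¹ : Gl (n + 1)) : Mt (n + 1)) := by simp [hw]
  rw [this, hw0, zero_vecMul]

end Pool.Agent.P.MP_246241_nt.TH
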