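import Pool.Agent.P.MP_246241_nt.TH.Iface

/-! Step FULL. -/

set_option autoImplicit false
set_option linter.unusedSectionVars false

namespace Pool.Agent.P.MP_246241_nt.TH

open Finset Matrix
open scoped Classical

theorem p_FULL (hRED : S_RED) :
    S_FULL := by
  intro D p i y u V P hp hu hV hr hP hD
  obtain ⟨a, ha⟩ := hu
  obtain ⟨t, s, hs⟩ : IsCoprime ((p : ℤ) ^ i) (u a) :=
    ((Nat.prime_iff_prime_int.1 hp).coprime_iff_not_dvd.2 ha).pow_left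
  have key : ∀ c : ℕ, ∃ ρ : Vc D, ρ ∈ cube D (D * y) ∧ (p : ℤ) ^ i ∣ ρ ⬝ᵥ u - c := by
    intro c
    obtain ⟨σ, hσ⟩ := hRED D y V (Pi.single a (c * s)) hV fun r => (hr r).1
    refine ⟨_, hσ, ?_⟩
    have e1 : (p : ℤ) ^ i ∣ (σ ᵥ* V) ⬝ᵥ u := by
      rw [← dotProduct_mulVec]
      exact dvd_sum fun r _ => Dvd.dvd.mul_left (mem_Dl.1 (hr r).2) _
    rw [sub_dotProduct, single_dotProduct]
    have e2 : (c : ℤ) * s * u a - (σ ᵥ* V) ⬝ᵥ u - c = (p : ℤ) ^ i * (-(c * t)) - (σ ᵥ* V) ⬝ᵥ u := by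
      linear_combination (c : ℤ) * hs
    rw [e2]
    exact dvd_sub (dvd_mul_right _ _) e1
  choose g hg1 hg2 using key
  rw [← card_cube, ← card_range (p ^ i), ← card_product]
  refine card_le_card_of_injOn (fun z => z.1 + g z.2) (fun z hz => ?_) (fun z hz w hw e => ?_)
  · obtain ⟨h1, -⟩ := mem_product.1 (mem_coe.1 hz)
    refine mem_coe.2 (mem_cube.2 fun c => ?_)
    have h2 := mem_cube.1 (hP h1) c
    have h3 := mem_cube.1 (hg1 z.2) c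
    have h4 := abs_add_le (z.1 c) (g z.2 c)
    simp only [Pi.add_apply]
    push_cast at h3 ⊢
    linarith
  · obtain ⟨h1, h2⟩ := mem_product.1 (mem_coe.1 hz)
    obtain ⟨h3, h4⟩ := mem_product.1 (mem_coe.1 hw)
    have e' : z.1 + g z.2 = w.1 + g w.2 := e
    have e3 : z.1 ⬝ᵥ u + g z.2 ⬝ᵥ u = w.1 ⬝ᵥ u + g w.2 ⬝ᵥ u := by
      rw [← add_dotProduct, ← add_dotProduct, e']
    have e4 : (p : ℤ) ^ i ∣ (z.2 : ℤ) - w.2 := by
      have : (z.2 : ℤ) - w.2 = w.1 ⬝ᵥ u - z.1 ⬝ᵥ u + (g w.2 ⬝ᵥ u - w.2) - (g z.2 ⬝ᵥ u - z.2) := by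
        linarith
      rw [this]
      exact dvd_sub (dvd_add (dvd_sub (mem_Dl.1 (hD _ h3)) (mem_Dl.1 (hD _ h1))) (hg2 _)) (hg2 _)
    have h5 : (z.2 : ℤ) < (p : ℤ) ^ i := by exact_mod_cast mem_range.1 h2
    have h6 : (w.2 : ℤ) < (p : ℤ) ^ i := by exact_mod_cast mem_range.1 h4
    have e5 : z.2 = w.2 := by
      have := Int.eq_zero_of_abs_lt_dvd e4 (abs_lt.2 ⟨by omega, by omega⟩)
      omega
    rw [e5] at e'
    exact Prod.ext (add_right_cancel e') e5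

end Pool.Agent.P.MP_246241_nt.TH
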