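import Pool.Agent.P.MP_246241_nt.TH.Iface

/-! Step GAP1. -/

set_option autoImplicit false
set_option linter.unusedSectionVars false

namespace Pool.Agent.P.MP_246241_nt.TH

open Finset Matrix
open scoped Classical

namespace GAP1x

theorem ent {C lam : ℕ} (hl : 1 ≤ lam) {γ : Gl 2} (h : Shell C lam γ) (i c : Fin 2) :
    |(γ : Mt 2) i c| ≤ (2 * C ^ 2 * lam : ℕ) := by
  obtain ⟨w, h0, h1, h2, h3⟩ := h
  have l1 : (1 : ℝ) ≤ lam := by exact_mod_cast hl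
  have C0 : (0 : ℝ) ≤ C := Nat.cast_nonneg C
  have a0 : |(rd ℝ (γ : Mt 2) * w) i 0| ≤ C * lam := by simpa using h2 i
  have a1 : |(rd ℝ (γ : Mt 2) * w) i 1| ≤ C * lam :=
    ((le_mul_of_one_le_right (abs_nonneg _) l1).trans (h3 i 0)).trans
      (le_mul_of_one_le_right C0 l1)
  have key : ∀ s t : ℝ, |s| ≤ C → |t| ≤ C → ((γ : Mt 2) i c : ℝ) * w.det =
      (rd ℝ (γ : Mt 2) * w) i 0 * s - (rd ℝ (γ : Mt 2) * w) i 1 * t →
      |(γ : Mt 2) i c| ≤ (2 * C ^ 2 * lam : ℕ) := fun s t hs ht e => by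
    have b : |((γ : Mt 2) i c : ℝ)| ≤ 2 * C ^ 2 * lam := by
      refine (le_mul_of_one_le_right (abs_nonneg _) h0).trans ?_
      rw [← abs_mul, e]
      refine (abs_sub _ _).trans ?_
      rw [abs_mul, abs_mul]
      have b1 := mul_le_mul a0 hs (abs_nonneg _) (by positivity)
      have b2 := mul_le_mul a1 ht (abs_nonneg _) (by positivity)
      linarith
    exact_mod_cast b
  fin_cases c
  · exact key (w 1 1) (w 1 0) (h1 _ _) (h1 _ _) (by
      simp [det_fin_two, Matrix.mul_apply, Fin.sum_univ_two]; ring)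
  · exact key (-w 0 1) (-w 0 0) (by rw [abs_neg]; exact h1 _ _) (by rw [abs_neg]; exact h1 _ _) (by
      simp [det_fin_two, Matrix.mul_apply, Fin.sum_univ_two]; ring)

theorem toBall {p j : ℕ} [Fact p.Prime] {ι : Type} (S : Finset ι) (m : ι → Mt 2) (W : ℕ)
    (hm : Set.InjOn m S) (hS : ∀ γ ∈ S, (m γ).det = 1 ∧ ∀ i c, |m γ i c| ≤ W)
    {F₁ F₂ : AA 2 p j → ℝ} (p1 : ∀ x, 0 ≤ F₁ x) (p2 : ∀ x, 0 ≤ F₂ x) :
    ∑ γ ∈ S, ip F₁ (fun x => F₂ (rd (RR p j) (m γ) *ᵥ x)) ≤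
      ∑ γ ∈ BV.ball W, ip F₁ (fun x => F₂ (x ᵥ* rd (RR p j) (γ : Mt 2))) := by
  let τ : ι → BV.Ga := fun γ =>
    if h : (m γ).det = 1 then ⟨(m γ)ᵀ, by rw [det_transpose, h]⟩ else 1
  have hτ : ∀ γ ∈ S, (τ γ : Mt 2) = (m γ)ᵀ := fun γ h => by simp only [τ, dif_pos (hS γ h).1]
  have e : ∀ γ ∈ S, ip F₁ (fun x => F₂ (rd (RR p j) (m γ) *ᵥ x)) =
      ip F₁ (fun x => F₂ (x ᵥ* rd (RR p j) (τ γ : Mt 2))) := fun γ h => by
    rw [hτ γ h]
    exact congrArg _ (funext fun x => congrArg F₂ (vecMul_transpose _ x).symm)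
  rw [sum_congr rfl e, ← sum_image (g := τ)
    (f := fun g : BV.Ga => ip F₁ fun x => F₂ (x ᵥ* rd (RR p j) (g : Mt 2))) fun a ha b hb h =>
      hm ha hb (transpose_injective ((hτ a ha).symm.trans
        ((congrArg (fun g : BV.Ga => (g : Mt 2)) h).trans (hτ b hb))))]
  refine sum_le_sum_of_subset_of_nonneg (fun g hg => ?_) fun _ _ _ =>
    sum_nonneg fun _ _ => mul_nonneg (p1 _) (p2 _)
  obtain ⟨γ, h, rfl⟩ := mem_image.1 hg
  exact BV.mem_ball.2 (BV.nm_le.2 fun r c => by rw [hτ γ h]; exact (hS γ h).2 c r)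

/-- The reflection. -/
def sg : Mt 2 := !![1, 0; 0, -1]

theorem sg_sq : sg * sg = 1 := by
  ext i c; fin_cases i <;> fin_cases c <;> simp [sg, Matrix.mul_apply, Fin.sum_univ_two]

theorem sg_det : sg.det = -1 := by simp [sg]

end GAP1x

open GAP1x in
theorem p_GAP1 (hSL1 : S_SL1) :
    S_GAP1 := by
  refine ⟨350, fun p hp => ?_⟩
  obtain ⟨K, K0, hK⟩ := hSL1 p
  refine ⟨2 * K, by positivity,
    fun j C g S F₁ F₂ X Y Z hC hg hS p1 p2 s1 s2 hu X0 Y0 Z0 n1 n2 z1 => ?_⟩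
  have p2' := hp.out.two_le
  have C2 : 2 ≤ C := p2'.trans hC
  have W1 : 1 ≤ C * p ^ g := Nat.mul_pos (by omega) (by positivity)
  have hb : ∀ γ ∈ S, ∀ i c, |(γ : Mt 2) i c| ≤ ((C * p ^ g) ^ 24 : ℕ) := fun γ h i c => by
    refine (ent (Nat.pow_pos hp.out.pos) (hS γ h) i c).trans (Nat.cast_le.2 ?_)
    rw [mul_pow, ← pow_mul, mul_comm g]
    refine Nat.mul_le_mul_right _ ?_
    calc 2 * C ^ 2 ≤ C * C ^ 2 := Nat.mul_le_mul_right _ C2
      _ = C ^ 3 := by ring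
      _ ≤ _ := Nat.pow_le_pow_right (by omega) (by norm_num)
  have hd : IsUnit (rd (RR p j) sg).det := by rw [det_rd, sg_det]; simp
  have a1 := (toBall (S.filter fun γ : Gl 2 => (γ : Mt 2).det = 1) (fun γ : Gl 2 => (γ : Mt 2)) _
    Units.val_injective.injOn
    (fun γ h => ⟨(mem_filter.1 h).2, hb γ (mem_filter.1 h).1⟩) p1 p2).trans
    (hK j _ F₁ F₂ X Y Z W1 p1 s1 s2 hu X0 Y0 Z0 n1 n2 z1)
  have a2 := (toBall (S.filter fun γ : Gl 2 => ¬ (γ : Mt 2).det = 1)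
    (fun γ : Gl 2 => (γ : Mt 2) * sg) _
    (fun a _ b _ e => Units.ext (by
      simpa only [mul_assoc, sg_sq, mul_one] using congrArg (· * sg) e))
    (fun γ h => ⟨by
      rw [det_mul, sg_det, (abs_eq (by norm_num)).1 (det_unit γ) |>.resolve_left
        (mem_filter.1 h).2]; rfl, fun i c => by
      have := hb γ (mem_filter.1 h).1 i c
      fin_cases c <;> simpa [sg, Matrix.mul_apply, Fin.sum_univ_two] using this⟩)
    (F₁ := fun x => F₁ (rd (RR p j) sg *ᵥ x)) (fun _ => p1 _) p2).trans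
    (hK j _ _ F₂ X Y Z W1 (fun _ => p1 _) (fun x h => s1 _ fun ⟨c, hc⟩ => h ⟨c, by
      fin_cases c <;> simpa [sg, mulVec, dotProduct, Fin.sum_univ_two] using hc⟩) s2
      (hu.comp _) X0 Y0 Z0 ((VN.sum_mulVec_unit hd fun x => F₁ x ^ 2).trans_le n1) n2
      (by rw [VN.sum_mulVec_unit hd F₁]; exact z1))
  have e : ∀ γ : Gl 2, ip (fun x => F₁ (rd (RR p j) sg *ᵥ x))
      (fun x => F₂ (rd (RR p j) ((γ : Mt 2) * sg) *ᵥ x)) =
      ip F₁ fun x => F₂ (rd (RR p j) (γ : Mt 2) *ᵥ x) := fun γ => by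
    simp only [ip, map_mul, ← mulVec_mulVec]
    exact VN.sum_mulVec_unit hd fun x => F₁ x * F₂ (rd (RR p j) (γ : Mt 2) *ᵥ x)
  simp only [e] at a2
  rw [← sum_filter_add_sum_filter_not S fun γ : Gl 2 => (γ : Mt 2).det = 1]
  refine (add_le_add a1 a2).trans ?_
  rw [← two_mul, ← mul_assoc, ← mul_assoc, mul_assoc (2 * K * _), mul_assoc (2 * K) ((C : ℝ) ^ 350)]
  refine mul_le_mul_of_nonneg_right (mul_le_mul_of_nonneg_left ?_ (by positivity)) Y0
  have C1 : (1 : ℝ) ≤ C := by exact_mod_cast (show 1 ≤ C by omega)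
  have q1 : (1 : ℝ) ≤ (p : ℝ) ^ g := one_le_pow₀ (by exact_mod_cast hp.out.one_le)
  rw [show 1 * ((1 + 1) * (24 * g)) = g * 48 by ring, mul_comm 350 g, pow_mul, pow_mul]
  push_cast
  generalize (p : ℝ) ^ g = q at q1
  have q0 : 0 < q := by linarith
  rw [mul_add, mul_add, mul_pow, mul_pow]
  refine add_le_add ?_ ?_
  · rw [show q ^ 48 * (X / q) = q ^ 47 * X by field_simp, mul_assoc]
    exact mul_le_mul_of_nonneg_right (pow_le_pow_right₀ C1 (by norm_num)) (by positivity)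
  · rw [mul_assoc]
    exact mul_le_mul_of_nonneg_left (le_mul_of_one_le_left (by positivity) (one_le_pow₀ q1))
      (by positivity)

end Pool.Agent.P.MP_246241_nt.TH
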