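import Pool.Agent.P.MP_246241_nt.TH.Iface

/-! Step GAPU. -/

set_option autoImplicit false
set_option linter.unusedSectionVars false

namespace Pool.Agent.P.MP_246241_nt.TH

open Finset Matrix
open scoped Classical

theorem p_GAPU (hGAP1 : S_GAP1) (hGAP : VN.S_GAP) :
    S_GAPU := by
  intro n hn
  rcases hn.eq_or_lt with rfl | hn
  · exact hGAP1
  obtain ⟨e, he⟩ := hGAP n hn
  refine ⟨e + 72 * (n + 1), fun p _ => ⟨1, zero_le_one, ?_⟩⟩
  intro j C g S F₁ F₂ X Y Z hC hg hS h1 h2 _ h4 _ hX hY hZ n1 n2 hs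
  have h := he p j C (12 * g) S F₁ F₂ X Y hC (by omega)
    (by rw [show 2 * (12 * g) = 24 * g by ring]; exact hS) h1 h2 h4 hX hY n1 n2
  rw [show 2 * (12 * g) = 24 * g by ring] at h
  refine h.trans ?_
  have p2 : (2 : ℝ) ≤ p := two_le'
  have p1 : (1 : ℝ) ≤ p := by linarith
  have C1 : (1 : ℝ) ≤ C := p1.trans (by exact_mod_cast hC)
  set Q : ℝ := ((p : ℝ) ^ j) ^ (n + 1) with hQ
  have Q0 : 0 < Q := by positivity
  have s2 : (∑ x, F₂ x) ^ 2 ≤ Q * Y ^ 2 := by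
    have := sq_sum_le_card_mul_sum_sq (s := univ) (f := F₂)
    rw [card_univ, card_AA] at this
    push_cast at this
    exact this.trans (mul_le_mul_of_nonneg_left n2 Q0.le)
  have s3 : (∑ x, F₂ x) * (∑ x, F₁ x) ≤ Q * (Y * Z) := by
    refine (abs_le_of_sq_le_sq' ?_ (by positivity)).2
    rw [mul_pow]
    calc _ ≤ Q * Y ^ 2 * (Z ^ 2 * Q) := mul_le_mul s2 hs (sq_nonneg _) (by positivity)
      _ = _ := by ring
  have a1 : X * Y / (p : ℝ) ^ (12 * g) ≤ X / (p : ℝ) ^ g * Y := by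
    rw [div_mul_eq_mul_div]
    exact div_le_div_of_nonneg_left (by positivity) (by positivity)
      (pow_le_pow_right₀ p1 (by omega))
  have a2 : (p : ℝ) ^ (6 * (n + 1) * (12 * g)) / Q * (∑ x, F₂ x) * (∑ x, F₁ x) ≤
      (p : ℝ) ^ ((e + 72 * (n + 1)) * g) * Z * Y := by
    calc _ = (p : ℝ) ^ (6 * (n + 1) * (12 * g)) / Q * ((∑ x, F₂ x) * ∑ x, F₁ x) := by ring
      _ ≤ (p : ℝ) ^ (6 * (n + 1) * (12 * g)) / Q * (Q * (Y * Z)) :=
        mul_le_mul_of_nonneg_left s3 (by positivity)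
      _ = (p : ℝ) ^ (6 * (n + 1) * (12 * g)) * (Z * Y) := by field_simp
      _ ≤ (p : ℝ) ^ ((e + 72 * (n + 1)) * g) * (Z * Y) :=
        mul_le_mul_of_nonneg_right (pow_le_pow_right₀ p1 (by nlinarith [Nat.zero_le (e * g)]))
          (by positivity)
      _ = _ := by ring
  have a3 : (C : ℝ) ^ e ≤ (C : ℝ) ^ (e + 72 * (n + 1)) := pow_le_pow_right₀ C1 (by omega)
  rw [one_mul, mul_assoc _ _ Y, add_mul (X / _)]
  refine mul_le_mul (mul_le_mul_of_nonneg_right a3 (by positivity)) (add_le_add a1 a2) ?_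
    (by positivity)
  have b1 : 0 ≤ ∑ x, F₁ x := sum_nonneg fun x _ => h1 x
  have b2 : 0 ≤ ∑ x, F₂ x := sum_nonneg fun x _ => h2 x
  positivity

end Pool.Agent.P.MP_246241_nt.TH
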