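import Pool.Agent.P.MP_246241_nt.TH.Iface

/-! Step HT. -/

set_option autoImplicit false
set_option linter.unusedSectionVars false

namespace Pool.Agent.P.MP_246241_nt.TH

open Finset Matrix
open scoped Classical

theorem p_HT :
    S_HT := by
  intro G M h h0 hG
  have key : ∀ N, N ≤ M → #{i ∈ range (N + 1) | h i ≠ 0} + h N ≤
      (G + 1) * #{i ∈ range N | max (h i) 1 ≤ h (i + 1)} := by
    intro N
    induction N with
    | zero => intro _; simp [h0]
    | succ N ih =>
      intro hN
      have i1 := ih (by omega)
      have i2 := hG N (by omega)
      simp only [card_filter] at i1 ⊢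
      rw [sum_range_succ (fun i => if h i ≠ 0 then 1 else 0) (N + 1),
        sum_range_succ (fun i => if max (h i) 1 ≤ h (i + 1) then 1 else 0) N, Nat.mul_add]
      by_cases hb : max (h N) 1 ≤ h (N + 1)
      · rw [if_pos hb]
        split_ifs <;> omega
      · rw [if_neg hb]
        by_cases h1 : h (N + 1) ≠ 0
        · rw [if_pos h1]
          have : h (N + 1) < h N := by
            rcases le_total (h N) 1 with h2 | h2
            · rw [max_eq_right h2] at hb; omega
            · rw [max_eq_left h2] at hb; omega
          omega
        · rw [if_neg h1]
          omega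
  have := key M le_rfl
  omega

end Pool.Agent.P.MP_246241_nt.TH
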