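import Pool.Agent.P.MP_246241_nt.TH.Iface

/-! Step LOWB. -/

set_option autoImplicit false
set_option linter.unusedSectionVars false

namespace Pool.Agent.P.MP_246241_nt.TH

open Finset Matrix
open scoped Classical

namespace LOWBx

theorem ev (r A : ℝ) (h0 : 0 ≤ r) (h1 : r < 1) : ∃ G₀ : ℕ, ∀ G ≥ G₀, A * ((G : ℝ) * r ^ G) ≤ 1 := by
  have h := (tendsto_self_mul_const_pow_of_lt_one h0 h1).const_mul A
  rw [mul_zero] at h
  exact Filter.eventually_atTop.1 (h.eventually (ge_mem_nhds one_pos))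

end LOWBx

theorem p_LOWB (hDICH : S_DICH) (hPIG : S_PIG) (hODD : S_ODD) :
    S_LOWB := by
  intro n hn
  obtain ⟨C, θ, hC, h0, h1, H⟩ := hDICH n
  obtain ⟨W, hW⟩ : ∃ W : ℕ, W = (2 * (n + 2)) ^ (n + 1) := ⟨_, rfl⟩
  have W0 : (0 : ℝ) < W := by rw [hW]; positivity
  obtain ⟨G₁, a1⟩ := LOWBx.ev (1 / 2) (((n + 2) ^ (n + 1) : ℕ) : ℝ) (by norm_num) (by norm_num)
  obtain ⟨G₂, a2⟩ := LOWBx.ev θ (C * W) h0 h1
  refine ⟨1 / (2 * W), G₁ + G₂ + 1, by positivity, by omega, fun p G i m u hp hG hm hu hF => ?_⟩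
  have G1 : 1 ≤ G := by omega
  have G0 : (0 : ℝ) < G := by exact_mod_cast G1
  have p2 := hp.two_le
  have hD : 1 ≤ n + 1 := by omega
  obtain ⟨R, hR⟩ : ∃ R, R = rad (n + 1) p G (i + m) := ⟨_, rfl⟩
  have b1 : G * (n + 2) ^ (n + 1) ≤ 2 ^ G := by
    have e := a1 G (by omega)
    rw [one_div, inv_pow, ← mul_assoc, ← div_eq_mul_inv, div_le_one (by positivity), mul_comm] at e
    exact_mod_cast e
  have b2 : n + 2 ≤ R := by
    rw [hR, le_rad hD G1]
    exact b1.trans ((Nat.pow_le_pow_left p2 _).trans (Nat.pow_le_pow_right (by omega) (by omega)))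
  obtain ⟨y, hy⟩ : ∃ y, y = R / (n + 2) := ⟨_, rfl⟩
  have y1 : 1 ≤ y := by rw [hy]; exact Nat.div_pos b2 (by omega)
  have y2 : (n + 2) * y ≤ R := by rw [hy]; exact Nat.mul_div_le _ _
  have y3 : R + 1 ≤ 2 * (n + 2) * y := by
    have e : R < (n + 2) * (y + 1) := by rw [hy]; exact Nat.lt_mul_div_succ _ (by omega)
    nlinarith
  have y4 : y ≤ R := (Nat.le_mul_of_pos_left _ (by omega)).trans y2
  obtain ⟨P, hP⟩ : ∃ P, P = {ρ ∈ cube (n + 1) y | ρ ∈ Dl p i u} := ⟨_, rfl⟩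
  have b3 : p ^ m < G * W * #P := by
    have e1 := lt_rad (p := p) (k := i + m) hD G1
    rw [← hR] at e1
    have e2 := hPIG (n + 1) p i y u (by omega)
    rw [← hP] at e2
    have e3 : (R + 1) ^ (n + 1) ≤ W * (#P * p ^ i) := by
      refine (Nat.pow_le_pow_left y3 _).trans ?_
      rw [mul_pow, ← hW]
      exact Nat.mul_le_mul_left _ e2
    have e4 := e1.trans_le (Nat.mul_le_mul_left G e3)
    rw [pow_add, mul_comm (p ^ i), ← mul_assoc, ← mul_assoc] at e4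
    exact Nat.lt_of_mul_lt_mul_right e4
  have b4 : (p : ℝ) ^ m < G * W * #P := by exact_mod_cast b3
  rcases H p G i m y u P p2 G1 hF ((le_rad hD G1).1 (hR ▸ y4)) (hP ▸ filter_subset _ _)
    (fun ρ hρ => (mem_filter.1 (hP ▸ hρ)).2) with ⟨V, hV, hr⟩ | h
  · have e1 := hODD n p i y u V hn hp hu hV fun r => mem_filter.1 (hP ▸ hr r)
    rw [← hP] at e1
    have e2 : #{ρ ∈ cube (n + 1) ((n + 2) * y) | ρ ∈ Dl p i u ∧ Prim p ρ} ≤
        #{ρ ∈ cube (n + 1) R | ρ ∈ Dl p i u ∧ Prim p ρ} :=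
      card_le_card (filter_subset_filter _ fun ρ hρ => mem_cube.2 fun c =>
        (mem_cube.1 hρ c).trans (by exact_mod_cast y2))
    rw [← hR]
    generalize #{ρ ∈ cube (n + 1) R | ρ ∈ Dl p i u ∧ Prim p ρ} = N at e2
    have e3 : (#P : ℝ) ≤ 2 * N := by exact_mod_cast e1.trans (Nat.mul_le_mul_left 2 e2)
    rw [div_le_iff₀ G0, div_mul_eq_mul_div, div_le_iff₀ (by positivity)]
    have e4 := mul_le_mul_of_nonneg_left e3 (mul_pos G0 W0).le
    linarith
  · exfalso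
    have e1 := a2 G (by omega)
    have e2 : θ ^ m ≤ θ ^ G := pow_le_pow_of_le_one h0 h1.le hm
    have q0 : (0 : ℝ) < (p : ℝ) ^ m := by positivity
    rw [mul_pow] at h
    have e3 := mul_le_mul_of_nonneg_left h (mul_pos G0 W0).le
    have e4 := mul_le_mul_of_nonneg_left e2 (show 0 ≤ G * W * C * (p : ℝ) ^ m by positivity)
    have e5 := mul_le_mul_of_nonneg_left e1 q0.le
    linarith

end Pool.Agent.P.MP_246241_nt.TH
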