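import Pool.Agent.P.MP_246241_nt.TH.Iface
import Pool.Agent.P.MP_246241_nt.EK.TMAIN

/-! Step LOWER. -/

set_option autoImplicit false
set_option linter.unusedSectionVars false

namespace Pool.Agent.P.MP_246241_nt.TH

open Finset Matrix
open scoped Classical

theorem p_LOWER :
    S_LOWER := by
  intro n p f _ hp hM ⟨δ, hδ, N, hN⟩
  have hsub : VN.Mad n p ⊆ Ex n p f := by
    rintro α ⟨c, hc, h⟩
    refine ⟨δ ^ ((1 : ℝ) / (n : ℝ)) * c, mul_pos (Real.rpow_pos_of_pos hδ _) hc, max N 2,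
      fun k hk => ?_⟩
    have hk2 : 2 ≤ k := (le_max_right _ _).trans hk
    obtain ⟨i, hi⟩ := h k hk2
    refine ⟨i, ?_⟩
    have hw := EK.MAINc.wpos hp (by omega : 1 ≤ k)
    have hl : 0 ≤ Real.log k := Real.log_natCast_nonneg k
    have h1 := hN k ((le_max_left _ _).trans hk)
    have h2 : δ ^ ((1 : ℝ) / (n : ℝ)) *
        ((k : ℝ) * ((padicNorm p (k : ℚ) : ℚ) : ℝ) * Real.log k) ^ ((1 : ℝ) / (n : ℝ)) ≤
        ((k : ℝ) * ((padicNorm p (k : ℚ) : ℚ) : ℝ) * f k) ^ ((1 : ℝ) / (n : ℝ)) := by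
      rw [← Real.mul_rpow hδ.le (mul_nonneg hw.le hl)]
      refine Real.rpow_le_rpow (mul_nonneg hδ.le (mul_nonneg hw.le hl)) ?_ (by positivity)
      rw [mul_left_comm]
      exact mul_le_mul_of_nonneg_left h1 hw.le
    refine (mul_le_mul_of_nonneg_left hi (Real.rpow_pos_of_pos hδ _).le).trans ?_
    rw [← mul_assoc]
    exact mul_le_mul_of_nonneg_right h2 (abs_nonneg _)
  refine le_antisymm ?_ (hM ▸ dimH_mono hsub)
  exact (dimH_mono (Set.subset_univ _)).trans_eq (Real.dimH_univ_pi_fin n)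

end Pool.Agent.P.MP_246241_nt.TH
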