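import Pool.Agent.P.MP_246241_nt.TH.Iface

/-! Step LOWT. -/

set_option autoImplicit false
set_option linter.unusedSectionVars false

namespace Pool.Agent.P.MP_246241_nt.TH

open Finset Matrix
open scoped Classical

theorem p_LOWT (hCRU2 : S_CRU2) (hUP : S_UP) (hBADC : S_BADC) (hHT : S_HT) :
    S_LOWT := by
  intro n hn
  obtain ⟨w, hw, hC⟩ := hCRU2 n hn
  refine ⟨w, hw, fun p u M m z S hp hu h5 hz hS => ?_⟩
  have p0 : 0 < p := by omega
  have p1 : 1 < p := hp
  obtain ⟨b, hb⟩ : ∃ b, b = (n + 1) * (72 * u) := ⟨_, rfl⟩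
  obtain ⟨Hy, hH⟩ : ∃ Hy : ℕ → ℕ, ∀ y, Hy y = p ^ (w * (72 * u)) * p ^ ((n + 1) * u * y) :=
    ⟨_, fun _ => rfl⟩
  rw [← hb] at hz hS ⊢
  have mono : ∀ {y y'}, y ≤ y' → Hy y ≤ Hy y' := fun h => by
    rw [hH, hH]
    exact Nat.mul_le_mul_left _ (Nat.pow_le_pow_right p0 (Nat.mul_le_mul_left _ h))
  have ex : ∀ (i : ℕ) (a : Vc n), ∃ y, ¬ Short p (Hy y) (i * b) a := fun i a =>
    ⟨n * (i * b) + 1, fun h => by
      have h1 := short_le p0 h
      rw [hH, ← pow_add, Nat.pow_le_pow_iff_right p1] at h1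
      have h2 : 1 * (n * (i * b) + 1) ≤ (n + 1) * u * (n * (i * b) + 1) :=
        Nat.mul_le_mul_right _ (Nat.mul_pos (by omega) hu)
      omega⟩
  obtain ⟨ht, h1, h2⟩ : ∃ ht : ℕ → Vc n → ℕ,
      (∀ i a y, ht i a ≤ y → ¬ Short p (Hy y) (i * b) a) ∧
      ∀ i a y, ¬ Short p (Hy y) (i * b) a → ht i a ≤ y :=
    ⟨fun i a => Nat.find (ex i a),
      fun i a y h e => Nat.find_spec (ex i a) (e.mono (mono h)),
      fun i a y h => Nat.find_min' (ex i a) h⟩
  have pp : ∀ (x : Vc n) (i : ℕ), i < M →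
      pre p b (pre p ((M - (i + 1)) * b) x) = pre p ((M - i) * b) x := fun x i hi => by
    rw [pre_pre, ← Nat.succ_mul]
    congr 2
    omega
  have key := hBADC n p b (p ^ u) (fun i a => max (ht i (pre p b a)) 1 ≤ ht (i + 1) a) z p0
    (fun i a₀ T hT => by
      obtain ⟨y, hy⟩ : ∃ y, max (ht i a₀) 1 = y + 1 := ⟨max (ht i a₀) 1 - 1, by omega⟩
      have e : Hy y * p ^ ((n + 1) * u) = Hy (y + 1) := by
        rw [hH, hH, mul_assoc, ← pow_add, Nat.mul_succ]
      have c := hC p (Hy y) (72 * u) u (i * b) a₀ T hp (by omega)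
        (by rw [hH]; exact Nat.le_mul_of_pos_right _ (by positivity))
        (by rw [e]; exact h1 i a₀ _ (by omega))
        (fun a ha => by
          obtain ⟨a1, a2⟩ := hT a ha
          rw [← hb, ← Nat.succ_mul]
          refine ⟨a1, ?_⟩
          by_contra h
          have := h2 (i + 1) a y h
          rw [a1] at a2
          omega)
      rw [← hb] at c
      have c2 : #T * p ^ u * (p ^ u * p ^ u) ≤ p ^ (n * b) * (p ^ u * p ^ u) :=
        calc #T * p ^ u * (p ^ u * p ^ u) = #T * p ^ (3 * u) := by ring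
          _ ≤ #T * p ^ (72 * u) :=
            Nat.mul_le_mul_left _ (Nat.pow_le_pow_right p0 (by omega))
          _ ≤ _ := c
          _ ≤ p ^ u * p ^ u * p ^ (n * b) :=
            Nat.mul_le_mul_right _ (Nat.mul_le_mul_right _ h5)
          _ = _ := mul_comm _ _
      exact Nat.le_of_mul_le_mul_right c2 (by positivity)) M S hz
  refine le_trans ?_ key
  rw [← smul_eq_mul, ← sum_const]
  refine sum_le_sum fun x hx => Nat.pow_le_pow_right (by positivity) ?_
  have c := hHT (72 * n + 1) M (fun i => ht i (pre p ((M - i) * b) x))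
    (Nat.le_zero.1 (h2 0 _ 0 fun h => by
      have h3 := short_le p0 h
      rw [hH, ← pow_add, Nat.pow_le_pow_iff_right p1] at h3
      have : 0 < w * (72 * u) := Nat.mul_pos hw (by omega)
      simp only [zero_mul, mul_zero] at h3
      omega))
    (fun i hi => h2 _ _ _ fun h => by
      refine h1 i (pre p ((M - i) * b) x) _ le_rfl ?_
      generalize ht i (pre p ((M - i) * b) x) = y at h ⊢
      rw [← pp x i hi]
      refine hUP n p _ b (i * b) _ p0 ?_
      rw [← Nat.succ_mul]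
      refine h.mono ?_
      rw [hH, hH, mul_assoc, mul_add ((n + 1) * u), pow_add p ((n + 1) * u * y)]
      refine Nat.mul_le_mul_left _ (Nat.mul_le_mul_left _ ?_)
      rw [show (n + 1) * u * (72 * n + 1) = u * (n + 1) + n * b by rw [hb]; ring, pow_add p, pow_mul p u]
      exact Nat.mul_le_mul_right _ (Nat.pow_le_pow_left
        (hp.trans (Nat.le_self_pow (n := u) (by omega) p)) _))
  have c1 := (hS x hx).trans_le (le_trans (card_le_card ?_) c)
  · refine (Nat.lt_of_mul_lt_mul_left c1).le.trans (card_le_card fun i hi => ?_)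
    simp only [mem_filter] at hi ⊢
    refine ⟨hi.1, ?_⟩
    rw [pp x i (mem_range.1 hi.1)]
    exact hi.2
  · intro i hi
    simp only [mem_filter] at hi ⊢
    refine ⟨hi.1, fun e => h1 i _ 0 e.le ?_⟩
    rw [hH, mul_zero, pow_zero, mul_one]
    exact hi.2

end Pool.Agent.P.MP_246241_nt.TH
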