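import Pool.Agent.P.MP_246241_nt.TH.Iface

/-! Step MIX. -/

set_option autoImplicit false
set_option linter.unusedSectionVars false

namespace Pool.Agent.P.MP_246241_nt.TH

open Finset Matrix
open scoped Classical

theorem p_MIX (hNU : S_NU) (hSUPP : S_SUPP) (hDENS : S_DENS) :
    S_MIX := by
  intro n w hn hw
  obtain ⟨e, he, h1⟩ := hNU n w hn hw
  refine ⟨e, he, fun p hp => ?_⟩
  obtain ⟨u₀, h2⟩ := h1 p
  refine ⟨u₀, fun u hu hu1 => ?_⟩
  obtain ⟨A, B, M₀, hB, h3⟩ := h2 u hu hu1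
  have hA : (0 : ℝ) < A ^ 2 + 1 := by positivity
  obtain ⟨K₀, G₀, h4⟩ := hDENS n hn p (1 / (A ^ 2 + 1)) (by positivity)
  refine ⟨K₀ * ((n + 1) ^ (n + 1) * B), G₀, M₀, ?_⟩
  intro M j a H z S L hM hH hK hj ha hL h0 hS
  by_contra hc
  rw [not_le] at hc
  obtain ⟨N, hN, hN2, hfr, hv⟩ := h3 M j a z S L hM hj ha hL h0
    (fun x hx => ⟨(hS x hx).1, (hS x hx).2.1⟩) hc
  set b := (n + 1) * (72 * u) with hb
  set T := S.image (pre p ((M - N) * b)) with hT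
  have hub : u ≤ b := by rw [hb]; nlinarith
  have hjN : j ≤ N * b := by
    have e1 : u * M ≤ u * (2 * N) := Nat.mul_le_mul_left u hN2
    have e2 : u * N ≤ b * N := Nat.mul_le_mul_right N hub
    nlinarith
  have hS0 : S.Nonempty := by
    rw [← card_pos]
    rcases Nat.eq_zero_or_pos #S with h | h
    · rw [h, zero_mul] at hc; exact absurd hc (Nat.not_lt_zero _)
    · exact h
  have hs : (0 : ℝ) < #T := by exact_mod_cast card_pos.2 (hS0.image _)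
  have hsup := (hSUPP n p j B (N * b) T).2 H hjN (by
    intro y hy
    obtain ⟨x, hx, rfl⟩ := mem_image.1 hy
    refine ⟨hfr x hx, fun i _ => ?_⟩
    rw [Nat.sub_mul]
    exact (hS x hx).2.2 (N * b) (Nat.mul_le_mul_right b hN) _ (Nat.sub_le _ _))
  have hC : 1 ≤ (n + 1) ^ (n + 1) * B := Nat.mul_pos (by positivity) hB
  have hd := h4 j ((n + 1) ^ (n + 1) * B * H) (hH.trans (Nat.le_mul_of_pos_left H hC))
    (by rw [← mul_assoc]; exact hK)
  have hp0 : (0 : ℝ) < p := by exact_mod_cast hp.out.pos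
  have hQ : (0 : ℝ) < ((p : ℝ) ^ j) ^ (n + 1) := by positivity
  set Q := ((p : ℝ) ^ j) ^ (n + 1) with hQd
  have hv2 : vv p j B (N * b) T ^ 2 ≤ (A * #T) ^ 2 := pow_le_pow_left₀ (vv_nonneg _ _ _ _ _) hv 2
  have h5 : (#T : ℝ) ^ 2 * Q ≤ (A * #T) ^ 2 * (1 / (A ^ 2 + 1) * Q) :=
    hsup.trans (mul_le_mul hv2 hd (Nat.cast_nonneg _) (by positivity))
  have h6 : (A * #T) ^ 2 * (1 / (A ^ 2 + 1) * Q) = (#T : ℝ) ^ 2 * Q * (A ^ 2 / (A ^ 2 + 1)) := by
    ring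
  have h7 : A ^ 2 / (A ^ 2 + 1) < 1 := (div_lt_one hA).2 (by linarith)
  have h8 : (0 : ℝ) < (#T : ℝ) ^ 2 * Q := by positivity
  rw [h6] at h5
  nlinarith

end Pool.Agent.P.MP_246241_nt.TH
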