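import Pool.Agent.P.MP_246241_nt.TH.Iface

/-! Step NU. -/

set_option autoImplicit false
set_option linter.unusedSectionVars false

namespace Pool.Agent.P.MP_246241_nt.TH

open Finset Matrix
open scoped Classical

namespace NUx

theorem last {R Q : ℝ} {M N r : ℕ} (hR : 1 ≤ R) (hQ0 : 0 ≤ Q) (hQ : Q ^ 2 ≤ R ^ M) (hr : 8 * r ≤ M)
    (hN : M ≤ 2 * N) : √Q * R ^ (2 * r) / R ^ N ≤ 1 := by
  rw [div_le_one (by positivity)]
  refine (pow_le_pow_iff_left₀ (by positivity) (by positivity) (show 4 ≠ 0 by norm_num)).1 ?_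
  have e : √Q ^ 4 = Q ^ 2 := by rw [show 4 = 2 * 2 from rfl, pow_mul, Real.sq_sqrt hQ0]
  rw [mul_pow, e, ← pow_mul, ← pow_mul]
  calc _ ≤ R ^ M * R ^ M := mul_le_mul hQ (pow_le_pow_right₀ hR (by omega)) (by positivity)
        (by positivity)
    _ = R ^ (M + M) := (pow_add _ _ _).symm
    _ ≤ _ := pow_le_pow_right₀ hR (by omega)

end NUx

theorem p_NU (hSTEP : S_STEP) (hSUPP : S_SUPP) (hREC : S_REC) (hFRAME : EK.S_FRAME) :
    S_NU := by
  intro n w hn hw
  obtain ⟨e, he, hS⟩ := hSTEP n hn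
  obtain ⟨a₀, hF⟩ := hFRAME n
  refine ⟨3 * e + 1, by omega, fun p hp => ?_⟩
  obtain ⟨K, hK0, hK⟩ := hS p
  have p2 : 2 ≤ p := two_le
  have p2' : (2 : ℝ) ≤ p := two_le'
  obtain ⟨u₀, hu₀⟩ := pow_unbounded_of_one_lt K (show (1 : ℝ) < p by linarith)
  refine ⟨u₀, fun u hu hu1 => ?_⟩
  obtain ⟨b, hb⟩ : ∃ b, b = (n + 1) * (72 * u) := ⟨_, rfl⟩
  obtain ⟨H, hH⟩ : ∃ H, H = p ^ (w * (72 * u)) := ⟨_, rfl⟩
  obtain ⟨R, hR⟩ : ∃ R : ℝ, R = (p : ℝ) ^ u := ⟨_, rfl⟩
  obtain ⟨r, hr⟩ : ∃ r, r = 72 * w * (a₀ + 1) * e + 1 := ⟨_, rfl⟩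
  have hpH : p ≤ H := hH ▸ Nat.le_self_pow (by positivity) p
  have hHB : p ≤ H ^ (a₀ + 1) := hpH.trans (Nat.le_self_pow (by omega) H)
  have hR2 : 2 ≤ R := hR ▸ p2'.trans (le_self_pow₀ (by linarith) (by omega))
  have hR1 : 1 ≤ R := by linarith
  have hKR : K ≤ R := hR ▸ hu₀.le.trans (pow_le_pow_right₀ (by linarith) hu)
  have hB : (((H ^ (a₀ + 1) : ℕ) : ℝ)) ^ e = R ^ (72 * w * (a₀ + 1) * e) := by
    rw [hH, hR]; push_cast; ring
  rw [← hb, ← hH]
  refine ⟨1 + 2 * (K * ((H ^ (a₀ + 1) : ℕ) : ℝ) ^ e) * (R ^ (3 * e) * R) ^ r, H ^ (a₀ + 1), 8 * r,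
    by omega, fun M j a z S L hM hj ha hh h0 hx hc => ?_⟩
  have hne : S.Nonempty := card_pos.1 (Nat.pos_of_ne_zero fun h => by simp [h] at hc)
  have hfr : ∀ i ∈ L, i ≤ M → ∀ x ∈ S, ∃ g, Frame p (H ^ (a₀ + 1)) (i * b)
      (pre p ((M - i) * b) x) g := fun i hi hiM x hxS => by
    obtain ⟨g, hg⟩ := hF p H _ _ (by omega) (by omega) ((hx x hxS).2 i hi hiM)
    exact ⟨g, hg.mono (Nat.pow_le_pow_right (by omega) (Nat.le_succ _))⟩
  have hpar : ∀ i k, i + k ≤ M → ∀ y ∈ S.image (pre p ((M - (i + k)) * b)),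
      pre p (k * b) y ∈ S.image (pre p ((M - i) * b)) := fun i k hik y hy => by
    obtain ⟨x, hxS, rfl⟩ := mem_image.1 hy
    rw [pre_pre, ← add_mul, show M - (i + k) + k = M - i by omega]
    exact mem_image_of_mem _ hxS
  obtain ⟨N, hNL, hNM, hN, -, hv⟩ := hREC M r a ((3 * e + 1) * #(range (M + 1) \ L)) L
    (fun i => #(S.image (pre p ((M - i) * b))))
    (fun i => vv p j (H ^ (a₀ + 1)) (i * b) (S.image (pre p ((M - i) * b))))
    ((p : ℝ) ^ (n * b)) R (R ^ (3 * e)) (K * ((H ^ (a₀ + 1) : ℕ) : ℝ) ^ e)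
    (√(((p : ℝ) ^ j) ^ (n + 1))) hR2 (hR2.trans (le_self_pow₀ hR1 (by omega))) (by positivity)
    (by positivity)
    (by rw [hB, hr, pow_succ, mul_comm]; exact mul_le_mul_of_nonneg_left hKR (by positivity))
    (by omega) (Real.sqrt_nonneg _) h0
    (by
      have : S.image (pre p ((M - 0) * b)) = {z} := by
        rw [Nat.sub_zero, image_congr (g := fun _ => z) fun x hxS => (hx x hxS).1, image_const hne]
      simp only [this, card_singleton, Nat.cast_one])
    (fun _ => Nat.cast_nonneg _)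
    (fun i hi => by
      have := card_le_parents (b := b) hp.out.pos _ _ fun y hy => by
        simpa only [one_mul] using hpar i 1 hi y hy
      exact_mod_cast this)
    (fun i _ => (hSUPP n p j _ _ _).1)
    (fun i hi k hk hik hiL => by
      have e1 : (n + 1) * (24 * (3 * u * k)) = k * b := by rw [hb]; ring
      have := hK j (H ^ (a₀ + 1)) (i * b) (3 * u * k) (S.image (pre p ((M - i) * b)))
        (S.image (pre p ((M - (i + k)) * b))) hHB (Nat.mul_pos (by omega) (by omega))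
        (by rw [e1]; exact hpar i k hik)
        (fun y hy => by
          obtain ⟨x, hxS, rfl⟩ := mem_image.1 hy
          exact hfr i hi (by omega) x hxS)
        (fun y hy => by
          obtain ⟨x, hxS, rfl⟩ := mem_image.1 hy
          rw [e1, ← add_mul]
          exact hfr _ hiL hik x hxS)
      rw [e1, ← add_mul] at this
      refine this.trans_eq ?_
      rw [hR]
      ring)
    (by
      have e1 : S.image (pre p ((M - M) * b)) = S := by
        rw [Nat.sub_self, zero_mul, image_congr (g := id) fun x _ => pre_zero p x, image_id]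
      simp only [e1, hR]
      exact_mod_cast hc.le)
    (by rw [← pow_succ, ← pow_mul])
  have hMN : M ≤ 2 * N := by
    rw [mul_assoc] at hh
    omega
  refine ⟨N, hNM, hMN, hfr N hNL hNM, hv.trans (mul_le_mul_of_nonneg_right ?_ (Nat.cast_nonneg _))⟩
  refine add_le_add_left (NUx.last hR1 (by positivity) ?_ hM hMN) _
  rw [hR, ← pow_mul, ← pow_mul, ← pow_mul]
  exact pow_le_pow_right₀ (by linarith) (le_of_eq_of_le (by ring) hj)

end Pool.Agent.P.MP_246241_nt.TH
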