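import Pool.Agent.P.MP_246241_nt.TH.Iface

/-! Step ODD. -/

set_option autoImplicit false
set_option linter.unusedSectionVars false

namespace Pool.Agent.P.MP_246241_nt.TH

open Finset Matrix
open scoped Classical

namespace ODDx

theorem one (hRED : S_RED) (n p i y : ℕ) (u : Vc (n + 1)) (V : Mt (n + 1)) (hn : 1 ≤ n)
    (hu : Prim p u) (hd : V.det ≠ 0) (hV : ∀ r, V r ∈ cube (n + 1) y ∧ V r ∈ Dl p i u) :
    ∃ ρ ∈ cube (n + 1) ((n + 1) * y), ρ ∈ Dl p i u ∧ Prim p ρ := by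
  by_cases h : ∃ r, Prim p (V r)
  · obtain ⟨r, hr⟩ := h
    refine ⟨V r, mem_cube.2 fun c => (mem_cube.1 (hV r).1 c).trans ?_, (hV r).2, hr⟩
    have : y ≤ (n + 1) * y := Nat.le_mul_of_pos_left _ (by omega)
    exact_mod_cast this
  · have h1 : ∀ r c, (p : ℤ) ∣ V r c := fun r c => by
      by_contra e
      exact h ⟨r, c, e⟩
    obtain ⟨a, ha⟩ := hu
    have : Nontrivial (Fin (n + 1)) := Fin.nontrivial_iff_two_le.2 (by omega)
    obtain ⟨b, hb⟩ := exists_ne a
    obtain ⟨σ, hσ⟩ := hRED (n + 1) y V (Pi.single b (u a) - Pi.single a (u b)) hd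
      fun r => (hV r).1
    refine ⟨_, hσ, ?_, b, fun e => ha ?_⟩
    · rw [mem_Dl, sub_dotProduct, sub_dotProduct, single_dotProduct, single_dotProduct,
        mul_comm (u a), sub_self, zero_sub, dvd_neg, ← dotProduct_mulVec]
      exact dvd_sum fun r _ => Dvd.dvd.mul_left (hV r).2 _
    · have e2 : (p : ℤ) ∣ (σ ᵥ* V) b := by
        change (p : ℤ) ∣ ∑ r, σ r * V r b
        exact dvd_sum fun r _ => Dvd.dvd.mul_left (h1 r b) _
      have e3 := dvd_add e e2
      simpa [Pi.single_eq_of_ne hb] using e3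

end ODDx

theorem p_ODD (hRED : S_RED) :
    S_ODD := by
  intro n p i y u V hn _ hu hd hV
  obtain ⟨τ, hτ, hτ1, c, hc⟩ := ODDx.one hRED n p i y u V hn hu hd hV
  rw [← card_filter_add_card_filter_not (s := {ρ ∈ cube (n + 1) y | ρ ∈ Dl p i u}) (Prim p),
    two_mul]
  refine add_le_add (card_le_card fun ρ hρ => ?_) ?_
  · obtain ⟨h1, h2⟩ := mem_filter.1 hρ
    obtain ⟨h3, h4⟩ := mem_filter.1 h1
    refine mem_filter.2 ⟨mem_cube.2 fun k => (mem_cube.1 h3 k).trans ?_, h4, h2⟩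
    have : y ≤ (n + 2) * y := Nat.le_mul_of_pos_left _ (by omega)
    exact_mod_cast this
  · refine card_le_card_of_injOn (fun ρ => ρ + τ) (fun ρ hρ => ?_)
      (add_left_injective τ).injOn
    obtain ⟨h1, h2⟩ := mem_filter.1 (mem_coe.1 hρ)
    obtain ⟨h3, h4⟩ := mem_filter.1 h1
    refine mem_coe.2 (mem_filter.2 ⟨mem_cube.2 fun k => ?_, ?_, c, fun e => hc ?_⟩)
    · have a1 := mem_cube.1 h3 k
      have a2 := mem_cube.1 hτ k
      have a3 := abs_add_le (ρ k) (τ k)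
      push_cast at a2 ⊢
      rw [Pi.add_apply]
      linarith
    · rw [mem_Dl, add_dotProduct]
      exact dvd_add h4 hτ1
    · have e2 : (p : ℤ) ∣ ρ c := by
        by_contra e3
        exact h2 ⟨c, e3⟩
      exact (dvd_add_right e2).1 e

end Pool.Agent.P.MP_246241_nt.TH
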