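import Pool.Agent.P.MP_246241_nt.TH.Iface

/-! Step ONE. -/

set_option autoImplicit false
set_option linter.unusedSectionVars false

namespace Pool.Agent.P.MP_246241_nt.TH

open Finset Matrix
open scoped Classical

namespace ONEx

theorem swap {α β : Type} (X : Finset α) (C : Finset β) (R : α → β → Prop) (P : β → Prop) :
    ∑ x ∈ X, #{ρ ∈ C | R x ρ ∧ P ρ} = ∑ ρ ∈ C with P ρ, #{x ∈ X | R x ρ} := by
  simp only [card_filter, sum_filter]
  rw [sum_comm]
  refine sum_congr rfl fun ρ _ => ?_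
  by_cases h : P ρ <;> simp [h]

end ONEx

theorem p_ONE (hMART : S_MART) :
    S_ONE := by
  intro D p j hp G a b i hD hG hi hj
  have p0 : (0 : ℝ) < p := by exact_mod_cast hp.out.pos
  simp only [Ph, sum_filter]
  rw [sum_comm, sum_comm (s := XX D p j G i)]
  refine sum_le_sum fun k _ => ?_
  by_cases h1 : i + 1 ≤ k
  · simp only [if_pos h1, if_pos (show i ≤ k by omega)]
    rw [← sum_div, ← sum_div, ← sum_mul, ← sum_mul]
    apply div_le_div_of_nonneg_right _ (by positivity)
    have key : ∑ x ∈ XX D p j G i, #{ρ ∈ cube D (rad D p G k) | ρ ∈ DlA i x ∧ Prim p ρ} ≤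
        p * ∑ x ∈ XX D p j G i, #{ρ ∈ cube D (rad D p G k) | ρ ∈ DlA (i + 1) x ∧ Prim p ρ} := by
      have e1 := ONEx.swap (XX D p j G i) (cube D (rad D p G k)) (fun x ρ => ρ ∈ DlA i x) (Prim p)
      have e2 := ONEx.swap (XX D p j G i) (cube D (rad D p G k)) (fun x ρ => ρ ∈ DlA (i + 1) x)
        (Prim p)
      rw [e1, e2, mul_sum]
      exact sum_le_sum fun ρ hρ =>
        hMART D p j i _ ρ hj (mem_filter.1 hρ).2 fun x hx t => XX_add hi hx t
    have key' : (∑ x ∈ XX D p j G i,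
        (#{ρ ∈ cube D (rad D p G k) | ρ ∈ DlA i x ∧ Prim p ρ} : ℝ)) ≤
        p * ∑ x ∈ XX D p j G i,
          (#{ρ ∈ cube D (rad D p G k) | ρ ∈ DlA (i + 1) x ∧ Prim p ρ} : ℝ) := by
      exact_mod_cast key
    calc _ ≤ _ := mul_le_mul_of_nonneg_right key' (by positivity)
      _ = _ := by ring
  · simp only [if_neg h1, sum_const_zero]
    refine le_of_eq (sum_eq_zero fun x hx => ?_)
    split_ifs with h2
    · obtain rfl : k = i := by omega
      have : ({ρ ∈ cube D (rad D p G k) | ρ ∈ DlA k x ∧ Prim p ρ} : Finset (Vc D)) = ∅ := by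
        refine filter_eq_empty_iff.2 fun ρ hρ h => ?_
        have hf := (mem_XX.1 hx).2 k le_rfl
        have h0 := hf ρ h.1 fun c => (abs_le_rad hD hG).1 (mem_cube.1 hρ c)
        obtain ⟨c, hc⟩ := h.2
        exact hc (by rw [h0]; exact dvd_zero _)
      rw [this]; simp
    · rfl

end Pool.Agent.P.MP_246241_nt.TH
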