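import Pool.Agent.P.MP_246241_nt.TH.Iface

/-! Step PACK. -/

set_option autoImplicit false
set_option linter.unusedSectionVars false

namespace Pool.Agent.P.MP_246241_nt.TH

open Finset Matrix
open scoped Classical

theorem p_PACK :
    S_PACK := by
  intro n y r P ξ t hξ ht hy hP h0 hsep
  obtain ⟨c0, hc0⟩ := Finite.exists_max fun c => |ξ c|
  have hx : 0 < |ξ c0| := by
    obtain ⟨c, hc⟩ := Function.ne_iff.1 hξ
    exact (abs_pos.2 hc).trans_le (hc0 c)
  have hr : (0 : ℝ) < r + 1 := by positivity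
  have hn : (0 : ℝ) < n + 1 := by positivity
  set K : ℕ := ⌊(n + 1 : ℝ) * t⌋₊ with hK
  have hK1 : (K : ℝ) ≤ (n + 1) * t := Nat.floor_le (by positivity)
  have hK2 : (n + 1 : ℝ) * t < K + 1 := Nat.lt_floor_add_one _
  let f : Vc (n + 1) → Fin n → ℤ := fun ρ c => ⌊(ρ (c0.succAbove c) : ℝ) * (n + 1) / (r + 1)⌋
  have hcard : #P ≤ #(Fintype.piFinset fun _ : Fin n => Icc (-(K : ℤ) - 1) K) := by
    refine card_le_card_of_injOn f (fun ρ hρ => ?_) fun ρ hρ ρ' hρ' e => ?_
    · rw [mem_coe, Fintype.mem_piFinset]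
      intro c
      have h1 : |(ρ (c0.succAbove c) : ℝ)| ≤ y := by
        exact_mod_cast mem_cube.1 (hP hρ) (c0.succAbove c)
      obtain ⟨h2, h3⟩ := abs_le.1 (h1.trans hy)
      rw [mem_Icc, Int.le_floor, Int.floor_le_iff, le_div_iff₀ hr, div_lt_iff₀ hr]
      push_cast
      constructor <;> nlinarith
    · have h1 : ∀ c, |((ρ (c0.succAbove c) - ρ' (c0.succAbove c) : ℤ) : ℝ)| * (n + 1) < r + 1 := by
        intro c
        have := Int.abs_sub_lt_one_of_floor_eq_floor (congrFun e c)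
        rwa [← sub_div, ← sub_mul, abs_div, abs_mul, abs_of_pos hr, abs_of_pos hn, div_lt_one hr,
          ← Int.cast_sub] at this
      have h2 : ((ρ c0 - ρ' c0 : ℤ) : ℝ) * ξ c0 =
          -∑ c, ((ρ (c0.succAbove c) - ρ' (c0.succAbove c) : ℤ) : ℝ) * ξ (c0.succAbove c) := by
        have a := h0 ρ hρ
        have b := h0 ρ' hρ'
        simp only [dotProduct, rv_apply, Fin.sum_univ_succAbove _ c0] at a b
        push_cast
        simp only [sub_mul, sum_sub_distrib]
        linarith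
      have h3 : |((ρ c0 - ρ' c0 : ℤ) : ℝ)| * |ξ c0| ≤ n * ((r + 1) / (n + 1) * |ξ c0|) := by
        rw [← abs_mul, h2, abs_neg]
        refine (abs_sum_le_sum_abs _ _).trans ((sum_le_card_nsmul _ _ _ fun c _ => ?_).trans
          (by rw [card_univ, Fintype.card_fin, nsmul_eq_mul]))
        rw [abs_mul]
        exact mul_le_mul ((le_div_iff₀ hn).2 (h1 c).le) (hc0 _) (abs_nonneg _) (by positivity)
      have h4 : ∀ c, |((ρ c - ρ' c : ℤ) : ℝ)| < r + 1 := by
        intro c
        rcases Fin.eq_self_or_eq_succAbove c0 c with rfl | ⟨c, rfl⟩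
        · rw [← mul_assoc] at h3
          refine (le_of_mul_le_mul_right h3 hx).trans_lt ?_
          rw [← mul_div_assoc, div_lt_iff₀ hn]
          nlinarith
        · have := h1 c
          nlinarith [abs_nonneg ((ρ (c0.succAbove c) - ρ' (c0.succAbove c) : ℤ) : ℝ),
            (n.cast_nonneg : (0 : ℝ) ≤ n)]
      refine hsep ρ hρ ρ' hρ' fun c => Int.lt_add_one_iff.1 ?_
      exact_mod_cast h4 c
  rw [Fintype.card_piFinset, prod_const, card_univ, Fintype.card_fin, Int.card_Icc,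
    show ((K : ℤ) + 1 - (-(K : ℤ) - 1)).toNat = 2 * K + 2 by omega] at hcard
  refine (Nat.cast_le.2 hcard).trans ?_
  push_cast
  refine pow_le_pow_left₀ (by positivity) ?_ _
  nlinarith [(n.cast_nonneg : (0 : ℝ) ≤ n)]

end Pool.Agent.P.MP_246241_nt.TH
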