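import Pool.Agent.P.MP_246241_nt.TH.Iface

/-! Step PHB. -/

set_option autoImplicit false
set_option linter.unusedSectionVars false

namespace Pool.Agent.P.MP_246241_nt.TH

open Finset Matrix
open scoped Classical

namespace PHBx

theorem geo {θ : ℝ} (h0 : 0 ≤ θ) (h1 : θ < 1) (i b : ℕ) {s : Finset ℕ} (hs : s ⊆ Ico i b) :
    ∑ k ∈ s, θ ^ (k - i) ≤ (1 - θ)⁻¹ := by
  refine (sum_le_sum_of_subset_of_nonneg hs fun k _ _ => pow_nonneg h0 _).trans ?_
  rw [sum_Ico_eq_sum_range, ← tsum_geometric_of_lt_one h0 h1]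
  simp only [Nat.add_sub_cancel_left]
  exact (summable_geometric_of_lt_one h0 h1).sum_le_tsum _ fun k _ => pow_nonneg h0 _

end PHBx

theorem p_PHB (hUPB : S_UPB) (hLOWB : S_LOWB) :
    S_PHB := by
  intro n hn p hp
  obtain ⟨C, θ, hC, h0, h1, hU⟩ := hUPB n
  obtain ⟨c, G₀, hc, hG₀, hL⟩ := hLOWB n hn
  have p0 : (0 : ℝ) < p := Nat.cast_pos.2 hp.out.pos
  have h2 : 0 < (1 - θ)⁻¹ := inv_pos.2 (sub_pos.2 h1)
  refine ⟨c, p * C * (1 + (1 - θ)⁻¹) + 1, G₀, hc, by positivity, hG₀,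
    fun j G i x hG hj hi hx => ?_⟩
  obtain ⟨u, rfl⟩ := rv_surj x
  obtain ⟨hx1, hx2⟩ := mem_XX.1 hx
  have hu := (Pr_rv hj u).1 hx1
  have hF := hx2 i le_rfl
  rw [DlA_rv hi] at hF
  have G1 : 1 ≤ G := hG₀.trans hG
  have G0 : (0 : ℝ) < G := Nat.cast_pos.2 G1
  refine ⟨?_, fun a => ?_⟩
  · rw [Ph, filter_true_of_mem fun k hk => (Nat.le_add_right i G).trans (mem_Ico.1 hk).1]
    refine le_trans (le_of_eq ?_) (card_nsmul_le_sum _ _ (c / G) fun k hk => ?_)
    · rw [Nat.card_Ico, show i + 2 * G - (i + G) = G by omega, nsmul_eq_mul]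
      field_simp
    · obtain ⟨m, rfl⟩ := Nat.exists_eq_add_of_le ((Nat.le_add_right i G).trans (mem_Ico.1 hk).1)
      have := hL p G i m u hp.out hG (by have := (mem_Ico.1 hk).1; omega) hu hF
      rw [DlA_rv hi, pow_add, mul_comm ((p : ℝ) ^ i), mul_div_mul_right _ _ (by positivity),
        le_div_iff₀ (by positivity), div_mul_eq_mul_div]
      exact this
  · refine le_trans (sum_le_sum (g := fun k => p * C * (1 / G + θ ^ (k - i))) fun k hk => ?_) ?_
    · obtain ⟨m, rfl⟩ := Nat.exists_eq_add_of_le ((Nat.le_succ i).trans (mem_filter.1 hk).2)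
      have h3 := hU p G i m u hp.out G1 hu hF
      have h4 : (#{ρ ∈ cube (n + 1) (rad (n + 1) p G (i + m)) |
          ρ ∈ DlA (i + 1) (rv (RR p j) u) ∧ Prim p ρ} : ℝ) ≤
          #{ρ ∈ cube (n + 1) (rad (n + 1) p G (i + m)) | ρ ∈ Dl p i u} :=
        Nat.cast_le.2 (card_le_card (monotone_filter_right _ fun ρ _ h => by
          rw [← DlA_rv hi]
          exact (pow_dvd_pow _ (Nat.le_succ i)).trans h.1))
      rw [Nat.add_sub_cancel_left, div_le_iff₀ (by positivity)]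
      refine (mul_le_mul_of_nonneg_right (h4.trans h3) (by positivity)).trans (le_of_eq ?_)
      ring
    · rw [← mul_sum, sum_add_distrib, sum_const, nsmul_eq_mul]
      have h3 : (#{k ∈ Ico a (a + G) | i + 1 ≤ k} : ℝ) * (1 / G) ≤ 1 := by
        rw [mul_one_div, div_le_one G0]
        exact Nat.cast_le.2 ((card_filter_le _ _).trans (by simp))
      have h4 := PHBx.geo h0 h1 i (a + G) (s := {k ∈ Ico a (a + G) | i + 1 ≤ k}) fun k hk =>
        mem_Ico.2 ⟨(Nat.le_succ i).trans (mem_filter.1 hk).2, (mem_Ico.1 (mem_filter.1 hk).1).2⟩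
      exact (mul_le_mul_of_nonneg_left (add_le_add h3 h4) (by positivity)).trans
        (le_add_of_nonneg_right zero_le_one)

end Pool.Agent.P.MP_246241_nt.TH
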