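import Pool.Agent.P.MP_246241_nt.TH.Iface

/-! Step PICK. -/

set_option autoImplicit false
set_option linter.unusedSectionVars false

namespace Pool.Agent.P.MP_246241_nt.TH

open Finset Matrix
open scoped Classical

theorem p_PICK :
    S_PICK := by
  intro p L K H₀ T₁ f A hp hL hK hf hn
  obtain ⟨a, ha1, ha⟩ : ∃ a : ℕ, 1 ≤ a ∧ A ≤ a :=
    ⟨⌈A⌉₊ + 1, by omega, by push_cast; linarith [Nat.le_ceil A]⟩
  have hlp : 0 < Real.log p := Real.log_pos (by exact_mod_cast hp)
  have a0 : (0 : ℝ) < a := by exact_mod_cast ha1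
  have K0 : (0 : ℝ) < K := by exact_mod_cast hK
  have L0 : (0 : ℝ) < L := by exact_mod_cast hL
  have hex : ∃ k : ℕ, p ^ (L * (K * (H₀ + a + 1) + T₁)) ≤ k ∧
      f k < 1 / (4 * a * K * L * Real.log p) * Real.log k := by
    by_contra h
    refine hn ⟨1 / (4 * a * K * L * Real.log p), by positivity,
      p ^ (L * (K * (H₀ + a + 1) + T₁)), fun k hk => ?_⟩
    by_contra h'
    exact h ⟨k, hk, not_le.1 h'⟩
  obtain ⟨k, hk, hfk⟩ := hex
  have k0 : 0 < k := lt_of_lt_of_le (by positivity) hk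
  have e1 : L * (K * (H₀ + a + 1) + T₁) ≤ Nat.log p k := Nat.le_log_of_pow_le (by omega) hk
  obtain ⟨m, hm⟩ : ∃ m, m = Nat.log p k / L := ⟨_, rfl⟩
  have m1 : K * (H₀ + a + 1) + T₁ ≤ m := by
    rw [hm, Nat.le_div_iff_mul_le (by omega), mul_comm]
    exact e1
  have m2 : L * m ≤ Nat.log p k := hm ▸ Nat.mul_div_le _ _
  have m3 : Nat.log p k < L * (m + 1) := hm ▸ Nat.lt_mul_div_succ _ (by omega)
  have m4 : p ^ (L * m) ≤ k :=
    (Nat.pow_le_pow_right (by omega) m2).trans (Nat.pow_log_le_self p k0.ne')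
  have m5 : k ≤ p ^ (L * (m + 1)) :=
    (Nat.lt_pow_succ_log_self (by omega) k).le.trans (Nat.pow_le_pow_right (by omega) m3)
  obtain ⟨H, hH⟩ : ∃ H, H = m / K := ⟨_, rfl⟩
  have H1 : H₀ + a + 1 ≤ H := by
    rw [hH, Nat.le_div_iff_mul_le (by omega), mul_comm]
    omega
  have H2 : K * H ≤ m := hH ▸ Nat.mul_div_le _ _
  have H3 : m < K * (H + 1) := hH ▸ Nat.lt_mul_div_succ _ (by omega)
  have H4 : m + 1 ≤ K * (2 * H) := le_trans H3 (Nat.mul_le_mul_left _ (by omega))
  refine ⟨m, H, le_trans (by omega) (Nat.le_mul_of_pos_left m hL), by omega, H2, ?_⟩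
  have l1 : Real.log k ≤ L * (K * (2 * H)) * Real.log p := by
    have b1 : (k : ℝ) ≤ (p : ℝ) ^ (L * (K * (2 * H))) := by
      exact_mod_cast m5.trans (Nat.pow_le_pow_right (by omega) (Nat.mul_le_mul_left _ H4))
    have b2 := Real.log_le_log (by exact_mod_cast k0) b1
    rw [Real.log_pow] at b2
    exact_mod_cast b2
  have H0 : (a : ℝ) < H := by exact_mod_cast (by omega : a < H)
  have l2 : a * f (p ^ (L * m)) < H := by
    have b1 : f (p ^ (L * m)) < 1 / (4 * a * K * L * Real.log p) *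
        (L * (K * (2 * H)) * Real.log p) :=
      lt_of_le_of_lt (hf m4) (lt_of_lt_of_le hfk (mul_le_mul_of_nonneg_left l1 (by positivity)))
    have b2 : a * (1 / (4 * a * K * L * Real.log p) * (L * (K * (2 * H)) * Real.log p)) =
        (H : ℝ) / 2 := by
      field_simp
      ring
    have b3 := mul_lt_mul_of_pos_left b1 a0
    linarith
  refine lt_of_le_of_lt (mul_le_mul_of_nonneg_right ha (le_trans zero_le_one (le_max_left _ _))) ?_
  rcases le_total 1 (f (p ^ (L * m))) with h | h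
  · rwa [max_eq_right h]
  · rwa [max_eq_left h, mul_one]

end Pool.Agent.P.MP_246241_nt.TH
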