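import Pool.Agent.P.MP_246241_nt.TH.Iface

/-! Step PIECE. -/

set_option autoImplicit false
set_option linter.unusedSectionVars false

namespace Pool.Agent.P.MP_246241_nt.TH

open Finset Matrix
open scoped Classical

theorem p_PIECE (hCORE : S_CORE) (hDIM : S_DIM) (hPICK : S_PICK) (hFIN : EK.S_FIN) :
    S_PIECE := by
  intro n hn
  obtain ⟨c, hc0, hc1, hC⟩ := hCORE n hn
  have hn' : (1 : ℝ) ≤ n := by exact_mod_cast hn
  refine ⟨c, hc0, fun p f δ z hp hf hlow hδ => ?_⟩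
  obtain ⟨L, K, H₀, hL, hK, hC⟩ := hC p hp
  refine hDIM n p _ (n - c) hp.two_le (by linarith) fun T₁ => ?_
  obtain ⟨m, H, h1, h2, h3, h4⟩ :=
    hPICK p L K (H₀ + 2) T₁ f ((2 / δ) ^ n) hp.two_le hL hK hf hlow
  obtain ⟨S, hS, hS'⟩ := hC m H z (by omega) h3
  refine ⟨L * m, h1, S, hS, fun α hα => hS' _ ?_ ?_⟩
  · rw [← hα.1]
    funext i
    have h1 := Int.floor_div_natCast ((p : ℝ) ^ (L * m) * α i) (p ^ (L * m))
    have h2 : ((p : ℝ) ^ (L * m)) ≠ 0 := pow_ne_zero _ (by exact_mod_cast hp.ne_zero)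
    push_cast at h1
    rw [mul_div_cancel_left₀ _ h2] at h1
    exact h1.symm
  · have m0 : (0 : ℝ) < max 1 (f (p ^ (L * m))) := lt_max_of_lt_left one_pos
    refine hFIN n p H _ α δ (max 1 (f (p ^ (L * m))) ^ ((1 : ℝ) / (n : ℝ))) hn hp (by omega) hδ
      (Real.rpow_pos_of_pos m0 _) ?_ fun k hk hk' => ?_
    · rw [mul_div_right_comm, mul_pow, one_div, Real.rpow_inv_natCast_pow m0.le (by omega)]
      exact h4
    · obtain ⟨i, hi⟩ := hα.2 k hk
      refine ⟨i, hi.trans (mul_le_mul_of_nonneg_right (mul_le_mul_of_nonneg_left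
        (Real.rpow_le_rpow (le_max_of_le_left zero_le_one) (max_le_max le_rfl (hf hk'))
          (by positivity)) ?_) (abs_nonneg _))⟩
      exact Real.rpow_nonneg (mul_nonneg (by positivity) (by exact_mod_cast padicNorm.nonneg _)) _

end Pool.Agent.P.MP_246241_nt.TH
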