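import Pool.Agent.P.MP_246241_nt.TH.Iface

/-! Step PIG. -/

set_option autoImplicit false
set_option linter.unusedSectionVars false

namespace Pool.Agent.P.MP_246241_nt.TH

open Finset Matrix
open scoped Classical

theorem p_PIG :
    S_PIG := by
  intro D p i y u hp
  have hq : (0 : ℤ) < (p : ℤ) ^ i := pow_pos (Int.natCast_pos.2 hp) i
  have hB : #(Fintype.piFinset fun _ : Fin D => Ico (0 : ℤ) y) = y ^ D := by
    simp [Fintype.card_piFinset]
  have hT : #(Ico (0 : ℤ) ((p : ℤ) ^ i)) = p ^ i := by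
    rw [Int.card_Ico, sub_zero, ← Nat.cast_pow, Int.toNat_natCast]
  rw [← hB, ← hT]
  refine card_le_mul_card_image_of_maps_to (f := fun ρ : Vc D => (ρ ⬝ᵥ u) % (p : ℤ) ^ i)
    (fun ρ _ => mem_Ico.2 ⟨Int.emod_nonneg _ hq.ne', Int.emod_lt_of_pos _ hq⟩) _ fun b _ => ?_
  rcases Finset.eq_empty_or_nonempty
    {a ∈ Fintype.piFinset fun _ : Fin D => Ico (0 : ℤ) y | (a ⬝ᵥ u) % (p : ℤ) ^ i = b} with h | ⟨r, hr⟩
  · rw [h]; simp
  · obtain ⟨hr1, hr2⟩ := mem_filter.1 hr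
    refine card_le_card_of_injOn (fun a => a - r) (fun a ha => ?_) fun a _ c _ e => sub_left_injective e
    obtain ⟨ha1, ha2⟩ := mem_filter.1 (mem_coe.1 ha)
    refine mem_coe.2 (mem_filter.2 ⟨mem_cube.2 fun c => ?_, mem_Dl.2 ?_⟩)
    · have h1 := mem_Ico.1 (Fintype.mem_piFinset.1 ha1 c)
      have h2 := mem_Ico.1 (Fintype.mem_piFinset.1 hr1 c)
      show |a c - r c| ≤ (y : ℤ)
      rw [abs_le]
      constructor <;> omega
    · rw [sub_dotProduct]
      exact Int.ModEq.dvd (hr2.trans ha2.symm)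

end Pool.Agent.P.MP_246241_nt.TH
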