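import Pool.Agent.P.MP_246241_nt.TH.Iface

/-! Step PT2. -/

set_option autoImplicit false
set_option linter.unusedSectionVars false

namespace Pool.Agent.P.MP_246241_nt.TH

open Finset Matrix
open scoped Classical

theorem p_PT2 :
    S_PT2 := by
  intro n p H η δ l a₀ a hp hη hns hpre ⟨w, hw0, hw⟩
  set P : ℤ := (p : ℤ) ^ ((n + 1) * η) with hP
  set E : ℤ := (p : ℤ) ^ (n * η + δ) with hE
  set y := w ᵥ* Tm p (l + (n + 1) * η) a with hy
  set v := w ᵥ* Tm p l a₀ with hv
  have hp0 : (2 : ℤ) ≤ p := by exact_mod_cast hp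
  have hE0 : 0 < E := by positivity
  have hP0 : 0 < P := by positivity
  have hPE : 2 * E ≤ P := by
    have h1 : P = (p : ℤ) ^ (η - δ) * E := by
      rw [hP, hE, ← pow_add]; congr 1
      rw [add_mul, one_mul]; omega
    have h2 : (2 : ℤ) ≤ (p : ℤ) ^ (η - δ) := hp0.trans (le_self_pow₀ (by linarith) (by omega))
    rw [h1]; exact mul_le_mul_of_nonneg_right h2 hE0.le
  have h0 : v 0 = y 0 := by rw [hv, hy, vecMul_Tm_zero, vecMul_Tm_zero]
  have hs : ∀ i : Fin n, P * v i.succ + v 0 * (a i - P * a₀ i) = y i.succ := by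
    intro i
    rw [hv, hy, vecMul_Tm_zero, vecMul_Tm_succ, vecMul_Tm_succ, pow_add, ← hP]; ring
  have hd : ∀ i : Fin n, |a i - P * a₀ i| ≤ P := by
    intro i
    have h1 : a₀ i = a i / P := by rw [← hpre]; rfl
    have h2 := Int.emod_nonneg (a i) hP0.ne'
    have h3 := Int.emod_lt_of_pos (a i) hP0
    rw [h1, ← Int.emod_def, abs_of_nonneg h2]; exact h3.le
  have hb : ∀ i : Fin n, P * |v i.succ| ≤ |y i.succ| + |v 0| * P := by
    intro i
    have h1 : P * v i.succ = y i.succ - v 0 * (a i - P * a₀ i) := by rw [← hs i]; ring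
    calc P * |v i.succ| = |P * v i.succ| := by rw [abs_mul, abs_of_pos hP0]
      _ ≤ |y i.succ| + |v 0 * (a i - P * a₀ i)| := by rw [h1]; exact abs_sub _ _
      _ ≤ _ := by
        rw [abs_mul]
        exact add_le_add_right (mul_le_mul_of_nonneg_left (hd i) (abs_nonneg _)) _
  obtain ⟨c, hc⟩ : ∃ c, (p : ℤ) ^ (n * l) < H * (p : ℤ) ^ ((n + 1) * δ) * |v c| ^ (n + 1) := by
    by_contra h
    push Not at h
    exact hns ⟨w, hw0, fun c => by push_cast; exact h c⟩
  have hlt : ∀ c', |y c'| < E * |v c| := by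
    intro c'
    have h1 : (p : ℤ) ^ (n * (l + (n + 1) * η)) =
        (p : ℤ) ^ (n * l) * ((p : ℤ) ^ (n * η)) ^ (n + 1) := by
      rw [← pow_mul, ← pow_add]; congr 1; ring
    have h2 : (H : ℤ) * |y c'| ^ (n + 1) < H * (E * |v c|) ^ (n + 1) := by
      calc _ ≤ _ := hw c'
        _ = _ := h1
        _ < H * (p : ℤ) ^ ((n + 1) * δ) * |v c| ^ (n + 1) * ((p : ℤ) ^ (n * η)) ^ (n + 1) :=
          mul_lt_mul_of_pos_right hc (by positivity)
        _ = _ := by rw [hE]; ring
    exact lt_of_pow_lt_pow_left₀ (n + 1) (by positivity)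
      (lt_of_mul_lt_mul_left h2 (Nat.cast_nonneg H))
  have hc0 : 0 < |v c| := by
    have := (abs_nonneg _).trans_lt (hlt 0)
    exact (mul_pos_iff_of_pos_left hE0).1 this
  have hc2 : |v c| ≤ 2 * |v 0| := by
    refine Fin.cases (motive := fun c => (∀ c', |y c'| < E * |v c|) → |v c| ≤ 2 * |v 0|)
      (fun _ => by linarith [abs_nonneg (v 0)]) (fun i h => ?_) c hlt
    have h1 := hb i
    have h2 := h i.succ
    have h3 := mul_le_mul_of_nonneg_right hPE (abs_nonneg (v i.succ))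
    have h4 : P * |v i.succ| ≤ P * (2 * |v 0|) := by linarith
    exact le_of_mul_le_mul_left h4 hP0
  refine ⟨w, v, rfl, abs_pos.1 (by linarith), fun c' => ?_, fun i => ?_⟩
  · have key : ∀ z : Fin (n + 1), |v c'| ≤ 2 * |y z| → (H : ℤ) * |v c'| ^ (n + 1) ≤
        2 ^ (n + 1) * (p : ℤ) ^ (n * (l + (n + 1) * η)) := by
      intro z hz
      calc _ ≤ (H : ℤ) * (2 * |y z|) ^ (n + 1) :=
            mul_le_mul_of_nonneg_left (pow_le_pow_left₀ (abs_nonneg _) hz _) (Nat.cast_nonneg H)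
        _ = 2 ^ (n + 1) * (H * |y z| ^ (n + 1)) := by rw [mul_pow]; ring
        _ ≤ _ := mul_le_mul_of_nonneg_left (hw z) (by positivity)
    revert key
    refine Fin.cases (fun key => key 0 (by rw [h0]; linarith [abs_nonneg (y 0)]))
      (fun i key => ?_) c'
    have h1 := hb i
    have h2 : |y i.succ| ≤ P * |y i.succ| := le_mul_of_one_le_left (abs_nonneg _) hP0
    have h3 : P * |v i.succ| ≤ P * (|y i.succ| + |y 0|) := by rw [← h0]; linarith
    have h4 := le_of_mul_le_mul_left h3 hP0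
    rcases le_total |y i.succ| |y 0| with h | h
    · exact key 0 (by linarith)
    · exact key i.succ (by linarith)
  · rw [hs i]
    have h1 := hlt i.succ
    have h2 := mul_le_mul_of_nonneg_left hc2 hE0.le
    linarith

end Pool.Agent.P.MP_246241_nt.TH
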