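import Pool.Agent.P.MP_246241_nt.TH.Iface

/-! Step REC. -/

set_option autoImplicit false
set_option linter.unusedSectionVars false

namespace Pool.Agent.P.MP_246241_nt.TH

open Finset Matrix
open scoped Classical

namespace RECx

/-- the number of high times -/
def hh (L : Finset ℕ) (i : ℕ) : ℕ := #(range (i + 1) \ L)

theorem hh_mono (L : Finset ℕ) {i j : ℕ} (h : i ≤ j) : hh L i ≤ hh L j :=
  card_le_card (sdiff_subset_sdiff (range_mono (by omega)) Subset.rfl)

theorem hh_succ (L : Finset ℕ) {i : ℕ} (h : i + 1 ∉ L) : hh L (i + 1) = hh L i + 1 := by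
  unfold hh
  rw [range_add_one (n := i + 1), insert_sdiff_of_notMem _ h, card_insert_of_notMem (by simp)]

theorem hh_add (L : Finset ℕ) (i n : ℕ) (h : ∀ x, i < x → x ≤ i + n → x ∉ L) :
    hh L (i + n) = hh L i + n := by
  induction n with
  | zero => rfl
  | succ n ih =>
    rw [← add_assoc, hh_succ L (h _ (by omega) (by omega)), ih fun x h1 h2 => h x h1 (by omega),
      add_assoc]

theorem step {q R W K J β v v' s' : ℝ} {r k i h h' : ℕ} (hR : 2 ≤ R) (hW : 2 ≤ W) (hq : 0 < q)
    (hK : 0 ≤ K) (hKr : K ≤ R ^ r) (hr : 1 ≤ r) (hJ : 0 ≤ J) (hβ : 0 ≤ β) (hk : r ≤ k)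
    (h1 : h' ≤ h) (h2 : h' + k ≤ h + r)
    (hv : v ≤ K * (q * R) ^ k * (v' / R ^ (3 * k) + W ^ k * s'))
    (hv' : v' ≤ J * R ^ (2 * r) / R ^ i * q ^ i + 2 * K * (W * R) ^ r * (β * (q ^ i * (W * R) ^ h')))
    (hs : s' ≤ β * (q ^ i * (W * R) ^ h')) :
    v ≤ J * R ^ (2 * r) / R ^ (i + k) * q ^ (i + k) +
      2 * K * (W * R) ^ r * (β * (q ^ (i + k) * (W * R) ^ h)) := by
  have hR0 : 0 < R := by linarith
  have hV : 1 ≤ W * R := by nlinarith
  have hKk : K ≤ R ^ k := hKr.trans (pow_le_pow_right₀ (by linarith) hk)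
  have h2k : 2 ≤ R ^ k := by
    calc (2:ℝ) ≤ R ^ 1 := by rwa [pow_one]
      _ ≤ R ^ k := pow_le_pow_right₀ (by linarith) (by omega)
  have hX : 0 < R ^ k := by positivity
  set A := J * R ^ (2 * r) / R ^ i * q ^ i with hA
  set B := β * (q ^ (i + k) * (W * R) ^ h) with hB
  set B' := β * (q ^ i * (W * R) ^ h') with hB'
  have hA0 : 0 ≤ A := by positivity
  have hB0 : 0 ≤ B := by positivity
  have e1 : J * R ^ (2 * r) / R ^ (i + k) * q ^ (i + k) = q ^ k / R ^ k * A := by
    rw [hA, pow_add, pow_add]; field_simp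
  have b1 : q ^ k * B' ≤ B := by
    have := pow_le_pow_right₀ hV h1
    calc q ^ k * B' = β * (q ^ (i + k) * (W * R) ^ h') := by rw [hB', pow_add]; ring
      _ ≤ B := by rw [hB]; gcongr
  have b2 : (q * R) ^ k * (W ^ k * s') ≤ (W * R) ^ r * B := by
    have := pow_le_pow_right₀ hV h2
    calc (q * R) ^ k * (W ^ k * s') ≤ (q * R) ^ k * (W ^ k * B') := by gcongr
      _ = β * (q ^ (i + k) * (W * R) ^ (h' + k)) := by
        rw [hB', pow_add, pow_add, mul_pow, mul_pow W R k]; ring
      _ ≤ β * (q ^ (i + k) * (W * R) ^ (h + r)) := by gcongr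
      _ = (W * R) ^ r * B := by rw [hB, pow_add (W * R)]; ring
  have b3 : K * (q * R) ^ k * (v' / R ^ (3 * k)) ≤ q ^ k / R ^ k * A + K * ((W * R) ^ r * B) := by
    calc K * (q * R) ^ k * (v' / R ^ (3 * k))
        ≤ K * (q * R) ^ k * ((A + 2 * K * (W * R) ^ r * B') / R ^ (3 * k)) := by gcongr
      _ = K / R ^ k * (q ^ k / R ^ k * A) +
          K / R ^ k * (2 / R ^ k) * (K * ((W * R) ^ r * (q ^ k * B'))) := by
        rw [mul_pow q, mul_comm 3 k, pow_mul]; field_simp
      _ ≤ 1 * (q ^ k / R ^ k * A) + 1 * 1 * (K * ((W * R) ^ r * B)) := by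
        have c1 : K / R ^ k ≤ 1 := (div_le_one hX).2 hKk
        have c2 : 2 / R ^ k ≤ 1 := (div_le_one hX).2 h2k
        have hB'0 : 0 ≤ B' := by positivity
        gcongr
      _ = _ := by ring
  have b4 := mul_le_mul_of_nonneg_left b2 hK
  rw [e1]
  calc v ≤ K * (q * R) ^ k * (v' / R ^ (3 * k)) + K * ((q * R) ^ k * (W ^ k * s')) := by
        linarith
    _ ≤ _ := by linarith

end RECx

open RECx in
theorem p_REC :
    S_REC := by
  intro M r a a' L s v Λ R W K J hR hW hΛ hK hKr hr hJ h0 hs0 hs hsΛ hvJ hrec hM hV'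
  have hR0 : 0 < R := by linarith
  obtain ⟨q, rfl⟩ : ∃ q, Λ = q * R := ⟨Λ / R, by field_simp⟩
  have hq : 0 < q := (mul_pos_iff_of_pos_right hR0).1 hΛ
  have hV : 1 ≤ W * R := by nlinarith
  have hD : ∀ i, 0 < q ^ i * (W * R) ^ hh L i := fun i => by positivity
  obtain ⟨N, hN, hmax⟩ := exists_max_image (range (M + 1))
    (fun i => s i / (q ^ i * (W * R) ^ hh L i)) ⟨0, by simp⟩
  have hNM : N ≤ M := by simpa [Nat.lt_succ_iff] using hN
  set β := s N / (q ^ N * (W * R) ^ hh L N) with hβ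
  have hB : ∀ i ≤ M, s i ≤ β * (q ^ i * (W * R) ^ hh L i) := fun i hi =>
    (div_le_iff₀ (hD i)).1 (hmax i (by simpa [Nat.lt_succ_iff] using hi))
  have hh0 : hh L 0 = 0 := by simp [hh, h0]
  have hβ1 : 1 ≤ β := by simpa [hs0, hh0] using hB 0 (Nat.zero_le _)
  have hsN : s N = β * (q ^ N * (W * R) ^ hh L N) := (div_mul_cancel₀ _ (hD N).ne').symm
  have hsp : ∀ i ≤ M, s i ≤ (q * R) ^ i := by
    intro i
    induction i with
    | zero => intro _; simp [hs0]
    | succ i ih =>
      intro hi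
      calc s (i + 1) ≤ q * R * s i := hsΛ i hi
        _ ≤ q * R * (q * R) ^ i := by gcongr; exact ih (by omega)
        _ = _ := by ring
  have hNL : N ∈ L := by
    by_contra hc
    obtain ⟨n, rfl⟩ : ∃ n, N = n + 1 := ⟨N - 1, by
      rcases N with _ | n
      · exact absurd h0 hc
      · rfl⟩
    have h1 := hsΛ n hNM
    have h2 := mul_le_mul_of_nonneg_left (hB n (by omega)) hΛ.le
    rw [hsN, hh_succ L hc] at h1
    have h3 : 0 < q * R * (β * (q ^ n * (W * R) ^ hh L n)) := by have := hD n; positivity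
    have e : β * (q ^ (n + 1) * (W * R) ^ (hh L n + 1)) =
        W * (q * R * (β * (q ^ n * (W * R) ^ hh L n))) := by ring
    rw [e] at h1
    nlinarith
  have key : ∀ i, i ∈ L → i ≤ M → v i ≤ J * R ^ (2 * r) / R ^ i * q ^ i +
      2 * K * (W * R) ^ r * (β * (q ^ i * (W * R) ^ hh L i)) := by
    intro i
    induction i using Nat.strong_induction_on with
    | _ i ih =>
      intro hiL hiM
      rcases lt_or_ge i r with hir | hir
      · have h1 : v i ≤ J * (q * R) ^ i := (hvJ i hiM).trans (by gcongr; exact hsp i hiM)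
        have h2 : R ^ i ≤ R ^ (2 * r) / R ^ i := by
          rw [le_div_iff₀ (by positivity), ← pow_add]
          exact pow_le_pow_right₀ (by linarith) (by omega)
        have h3 : J * (q * R) ^ i ≤ J * R ^ (2 * r) / R ^ i * q ^ i := by
          calc J * (q * R) ^ i = J * R ^ i * q ^ i := by rw [mul_pow]; ring
            _ ≤ J * (R ^ (2 * r) / R ^ i) * q ^ i := by gcongr
            _ = _ := by ring
        have h4 : 0 ≤ 2 * K * (W * R) ^ r * (β * (q ^ i * (W * R) ^ hh L i)) := by positivity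
        linarith
      · have hne : (L.filter fun x => x + r ≤ i).Nonempty := ⟨0, by simp [h0, hir]⟩
        obtain ⟨j, hm, hle⟩ := exists_max_image _ (fun x : ℕ => x) hne
        rw [mem_filter] at hm
        obtain ⟨n, rfl⟩ : ∃ n, i = j + (n + r) := ⟨i - r - j, by omega⟩
        have h1 := hh_add L j n fun x a1 a2 a3 => by
          have : x ≤ j := hle x (mem_filter.2 ⟨a3, by omega⟩)
          omega
        have h2 := hh_mono L (show j + n ≤ j + (n + r) by omega)
        exact step hR hW hq hK hKr hr hJ (by linarith) (by omega) (by omega) (by omega)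
          (hrec j hm.1 (n + r) (by omega) hiM hiL) (ih j (by omega) hm.1 (by omega))
          (hB j (by omega))
  have hone : (1:ℝ) ≤ (W * R) ^ hh L N := one_le_pow₀ hV
  have hqN : 0 < q ^ N := by positivity
  have hlow : q ^ N * β ≤ s N := by
    rw [hsN]
    calc q ^ N * β = β * (q ^ N * 1) := by ring
      _ ≤ _ := by gcongr
  have hlow' : q ^ N ≤ s N := le_trans (by nlinarith) hlow
  refine ⟨N, hNL, hNM, ?_, hqN.trans_le hlow', ?_⟩
  · have h1 : β ≤ R ^ N := by
      have := hlow.trans (hsp N hNM)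
      rw [mul_pow] at this
      exact le_of_mul_le_mul_left this hqN
    have h2 : s M ≤ R ^ N * (q ^ M * R ^ a') := by
      refine (hB M le_rfl).trans ?_
      have : (W * R) ^ hh L M ≤ R ^ a' := hV'
      gcongr
    have h3 : q ^ M * R ^ M ≤ q ^ M * R ^ (N + a + a') := by
      calc q ^ M * R ^ M = (q * R) ^ M := (mul_pow _ _ _).symm
        _ ≤ s M * R ^ a := hM
        _ ≤ R ^ N * (q ^ M * R ^ a') * R ^ a := by gcongr
        _ = _ := by ring
    exact (pow_le_pow_iff_right₀ (by linarith : 1 < R)).1 (le_of_mul_le_mul_left h3 (by positivity))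
  · have h1 := key N hNL hNM
    rw [← hsN] at h1
    have h2 : J * R ^ (2 * r) / R ^ N * q ^ N ≤ J * R ^ (2 * r) / R ^ N * s N := by gcongr
    linarith

end Pool.Agent.P.MP_246241_nt.TH
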