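import Pool.Agent.P.MP_246241_nt.TH.Iface

/-! Step RED. -/

set_option autoImplicit false
set_option linter.unusedSectionVars false

namespace Pool.Agent.P.MP_246241_nt.TH

open Finset Matrix
open scoped Classical

theorem p_RED :
    S_RED := by
  intro D y V ρ hV hy
  have hd : IsUnit (rd ℝ V).det := by
    rw [det_rd]
    exact isUnit_iff_ne_zero.2 (Int.cast_ne_zero.2 hV)
  set τ : Fin D → ℝ := rv ℝ ρ ᵥ* (rd ℝ V)⁻¹ with hτ
  have h1 : τ ᵥ* rd ℝ V = rv ℝ ρ := by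
    rw [hτ, vecMul_vecMul, nonsing_inv_mul _ hd, vecMul_one]
  refine ⟨fun r => ⌊τ r⌋, mem_cube.2 fun c => ?_⟩
  have h2 : (((ρ - (fun r => ⌊τ r⌋) ᵥ* V) c : ℤ) : ℝ) = ∑ r, Int.fract (τ r) * (V r c : ℝ) := by
    have h3 := congrFun h1 c
    simp only [vecMul, dotProduct, rd_apply, rv_apply] at h3
    simp only [Pi.sub_apply, vecMul, dotProduct, Int.cast_sub, Int.cast_sum, Int.cast_mul,
      Int.fract, sub_mul, sum_sub_distrib, h3]
  have h4 : |∑ r, Int.fract (τ r) * (V r c : ℝ)| ≤ (D : ℝ) * y := by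
    refine (abs_sum_le_sum_abs _ _).trans ((sum_le_card_nsmul _ _ (y : ℝ) fun r _ => ?_).trans_eq ?_)
    · rw [abs_mul, abs_of_nonneg (Int.fract_nonneg _)]
      have h5 : |(V r c : ℝ)| ≤ y := by exact_mod_cast mem_cube.1 (hy r) c
      exact (mul_le_of_le_one_left (abs_nonneg _) (Int.fract_lt_one _).le).trans h5
    · simp
  rw [← h2] at h4
  exact_mod_cast h4

end Pool.Agent.P.MP_246241_nt.TH
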