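import Pool.Agent.P.MP_246241_nt.TH.Iface

/-! Step SL1. -/

set_option autoImplicit false
set_option linter.unusedSectionVars false

namespace Pool.Agent.P.MP_246241_nt.TH

open Finset Matrix
open scoped Classical

namespace SL1x

variable {p j : ℕ} [Fact p.Prime]

/-- the bottom row -/
def row (y : BV.GG p j) : AA 2 p j := fun c => y 1 c

theorem inv_row {F : AA 2 p j → ℝ} (h : UI F) : BV.Inv fun y : BV.GG p j => F (row y) := by
  intro b y hb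
  have h1 := BV.det_ent b
  rw [hb, mul_zero, sub_zero] at h1
  obtain ⟨u, hu⟩ : IsUnit (b 1 1) := IsUnit.of_mul_eq_one_right _ h1
  have : row (b * y) = (u : RR p j) • row y := funext fun c => by
    simp only [row, BV.mul_ent, hb, zero_mul, zero_add, Pi.smul_apply, smul_eq_mul, hu]
  simp only [this]
  exact h u _

theorem row_mul (y : BV.GG p j) (γ : BV.Ga) :
    row (y * BV.red p j γ) = row y ᵥ* rd (RR p j) (γ : Mt 2) := funext fun c => by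
  simp only [row, BV.mul_ent, BV.red_ent, vecMul, dotProduct, Fin.sum_univ_two, rd_apply]

end SL1x

open SL1x in
theorem p_SL1 (hFIB2 : S_FIB2) (hGAP : BV.S_GAP) :
    S_SL1 := by
  intro p _
  obtain ⟨C, hC, hG⟩ := hGAP p
  refine ⟨√(2 * C), Real.sqrt_nonneg _, ?_⟩
  intro j Y₀ F₁ F₂ X Y Z hY₀ h1 p1 p2 hU hX hY hZ n1 n2 s1
  obtain ⟨fib, ho⟩ := hFIB2 p j
  have fib' : ∀ h : AA 2 p j → ℝ, (∀ x, ¬ Pr x → h x = 0) →
      ∑ y : BV.GG p j, h (row y) = (p : ℝ) ^ j * ∑ x, h x := fib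
  have hq : (0 : ℝ) < (p : ℝ) ^ j := pow_pos (lt_of_lt_of_le two_pos two_le') j
  generalize (p : ℝ) ^ j = q at *
  have hG1 := hG j Y₀ (fun y => F₁ (row y)) hY₀ (inv_row hU) fun y => h1 _
  have a1 : nn (fun y : BV.GG p j => F₁ (row y)) = q * nn F₁ :=
    fib' (fun x => F₁ x ^ 2) fun x hx => by rw [p1 x hx]; ring
  have a2 : nn (fun y : BV.GG p j => F₂ (row y)) = q * nn F₂ :=
    fib' (fun x => F₂ x ^ 2) fun x hx => by rw [p2 x hx]; ring
  have a3 : q * ∑ γ ∈ BV.ball (Y₀ ^ 24), ip F₁ (fun x => F₂ (x ᵥ* rd (RR p j) (γ : Mt 2))) =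
      ip (BV.AA p j (Y₀ ^ 24) fun y => F₁ (row y)) fun y => F₂ (row y) := by
    rw [BV.ip_AA, mul_sum]
    simp only [ip, BV.AA_apply, mul_sum (BV.ball _), row_mul]
    rw [sum_comm]
    refine sum_congr rfl fun γ _ => ?_
    exact (fib' (fun x => F₁ x * F₂ (x ᵥ* rd (RR p j) (γ : Mt 2)))
      fun x hx => by rw [p1 x hx, zero_mul]).symm
  have a4 := ip_sq_le (BV.AA p j (Y₀ ^ 24) fun y : BV.GG p j => F₁ (row y)) fun y => F₂ (row y)
  rw [← a3, a2] at a4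
  rw [a1, fib' F₁ p1] at hG1
  have og : 0 < BV.oG p j := BV.oG_pos
  have nA := nn_nonneg (BV.AA p j (Y₀ ^ 24) fun y : BV.GG p j => F₁ (row y))
  generalize nn (BV.AA p j (Y₀ ^ 24) fun y : BV.GG p j => F₁ (row y)) = N at *
  generalize ∑ γ ∈ BV.ball (Y₀ ^ 24), ip F₁ (fun x => F₂ (x ᵥ* rd (RR p j) (γ : Mt 2))) = S at *
  generalize BV.oG p j = o at *
  have e1 : (Y₀ : ℝ) ^ 94 = ((Y₀ : ℝ) ^ 47) ^ 2 := by ring
  have e2 : (Y₀ : ℝ) ^ 700 = ((Y₀ : ℝ) ^ 350) ^ 2 := by ring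
  rw [e1, e2] at hG1
  have u0 : 0 ≤ (Y₀ : ℝ) ^ 47 := by positivity
  have v0 : 0 ≤ (Y₀ : ℝ) ^ 350 := by positivity
  generalize (Y₀ : ℝ) ^ 47 = u at *
  generalize (Y₀ : ℝ) ^ 350 = v at *
  have b1 : C * u ^ 2 * (q * nn F₁ * o) ≤ C * u ^ 2 * (q * X ^ 2 * o) := by gcongr
  have b2 : C * v ^ 2 * (q * ∑ x, F₁ x) ^ 2 ≤ C * v ^ 2 * (q * Z ^ 2 * (2 * o)) := by
    refine mul_le_mul_of_nonneg_left ?_ (by positivity)
    calc (q * ∑ x, F₁ x) ^ 2 = q ^ 2 * (∑ x, F₁ x) ^ 2 := by ring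
      _ ≤ q ^ 2 * (Z ^ 2 * q ^ 2) := by gcongr
      _ = q * Z ^ 2 * q ^ 3 := by ring
      _ ≤ _ := by gcongr
  have b3 : N ≤ 2 * C * q * (u * X + v * Z) ^ 2 := by
    refine le_of_mul_le_mul_right (hG1.trans ((add_le_add b1 b2).trans ?_)) og
    have : 0 ≤ C * q * o * (u ^ 2 * X ^ 2 + 4 * (u * X * (v * Z))) := by positivity
    nlinarith
  have b4 : (q * S) ^ 2 ≤ (q * (√(2 * C) * (u * X + v * Z) * Y)) ^ 2 := by
    refine a4.trans ?_
    calc N * (q * nn F₂) ≤ (2 * C * q * (u * X + v * Z) ^ 2) * (q * Y ^ 2) := by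
          have := nn_nonneg F₂
          gcongr
      _ = _ := by
          rw [mul_pow, mul_pow, mul_pow, Real.sq_sqrt (by positivity)]; ring
  exact le_of_mul_le_mul_left (le_of_sq_le_sq b4 (by positivity)) hq

end Pool.Agent.P.MP_246241_nt.TH
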