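import Pool.Agent.P.MP_246241_nt.TH.Iface

/-! Step STEP. -/

set_option autoImplicit false
set_option linter.unusedSectionVars false

namespace Pool.Agent.P.MP_246241_nt.TH

open Finset Matrix
open scoped Classical

theorem p_STEP (hDOMS : S_DOMS) (hGAPU : S_GAPU) (hFFB : VN.S_FFB) :
    S_STEP := by
  intro n hn
  obtain ⟨e₂, hG⟩ := hGAPU n hn
  obtain ⟨e₁, hD⟩ := hDOMS n
  refine ⟨e₁ + 2 * e₂ + 1, by omega, fun p hp => ?_⟩
  obtain ⟨K, hK, hG⟩ := hG p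
  refine ⟨K, hK, fun j B l g S S' hB hg h1 h2 h3 => ?_⟩
  have hp2 : 2 ≤ p := hp.out.two_le
  obtain ⟨Γ, hΓ, hN⟩ := hD p j B l (24 * g) S S' (by omega) h1 h2 h3
  obtain ⟨a1, a2, -⟩ := hFFB n p j B l S
  obtain ⟨b1, -, -⟩ := hFFB n p j B (l + (n + 1) * (24 * g)) S'
  have p2 : (2 : ℝ) ≤ p := by exact_mod_cast hp2
  have B2 : (2 : ℝ) ≤ B := by exact_mod_cast hp2.trans hB
  have u0 : 0 < nU p j := nU_pos
  have Q0 : 0 < ((p : ℝ) ^ j) ^ (n + 1) := by positivity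
  have s0 := Real.sqrt_pos.2 Q0
  have hGa := hG j (2 * B) g Γ _ _ _ _ (nU p j * #S / √(((p : ℝ) ^ j) ^ (n + 1))) (by omega) hg hΓ
    (Sy_nonneg (FF_nonneg p j B l S)) (Sy_nonneg (FF_nonneg p j B _ S')) (Sy_Pr a1) (Sy_Pr b1)
    (UI_Sy _) (Real.sqrt_nonneg _) (Real.sqrt_nonneg _) (by positivity)
    (Real.sq_sqrt (nn_nonneg _)).ge (Real.sq_sqrt (nn_nonneg _)).ge (by
      rw [sum_Sy, a2, div_pow, Real.sq_sqrt Q0.le, div_mul_cancel₀ _ Q0.ne'])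
  have h4 := hN.trans (mul_le_mul_of_nonneg_left hGa (by positivity))
  rw [vv, vv, Real.sqrt_mul (nn_nonneg _), Real.sqrt_mul (nn_nonneg _)]
  have y2 := Real.sq_sqrt (nn_nonneg (Sy (FF p j B (l + (n + 1) * (24 * g)) S')))
  have y0 := Real.sqrt_nonneg (nn (Sy (FF p j B (l + (n + 1) * (24 * g)) S')))
  have x0 := Real.sqrt_nonneg (nn (Sy (FF p j B l S)))
  generalize √(nn (Sy (FF p j B (l + (n + 1) * (24 * g)) S'))) = Y at *
  generalize √(nn (Sy (FF p j B l S))) = X at *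
  generalize √(((p : ℝ) ^ j) ^ (n + 1)) = r at *
  rw [← y2, ← mul_assoc, sq] at h4
  have h5 := y0.eq_or_lt.elim (fun e => e ▸ by positivity) fun e => le_of_mul_le_mul_right h4 e
  have h6 : (B : ℝ) ^ e₁ * ((2 * B : ℕ) : ℝ) ^ e₂ ≤ (B : ℝ) ^ (e₁ + 2 * e₂ + 1) := by
    push_cast
    calc _ ≤ (B : ℝ) ^ e₁ * (B * B) ^ e₂ := by gcongr
      _ = (B : ℝ) ^ (e₁ + 2 * e₂) := by ring
      _ ≤ _ := pow_le_pow_right₀ (by linarith) (by omega)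
  have h7 : (p : ℝ) ^ (e₂ * g) ≤ (p : ℝ) ^ ((e₁ + 2 * e₂ + 1) * g) :=
    pow_le_pow_right₀ (by linarith) (Nat.mul_le_mul_right _ (by omega))
  calc _ = Y * (r / nU p j) := by ring
    _ ≤ _ := mul_le_mul_of_nonneg_right h5 (by positivity)
    _ = K * ((B : ℝ) ^ e₁ * ((2 * B : ℕ) : ℝ) ^ e₂) * (p : ℝ) ^ (n * ((n + 1) * (24 * g))) *
        (X * r / nU p j / (p : ℝ) ^ g + (p : ℝ) ^ (e₂ * g) * #S) := by field_simp
    _ ≤ _ := by gcongr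

end Pool.Agent.P.MP_246241_nt.TH
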