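import Pool.Agent.P.MP_246241_nt.TH.Iface

/-! Step SUPP. -/

set_option autoImplicit false
set_option linter.unusedSectionVars false

namespace Pool.Agent.P.MP_246241_nt.TH

open Finset Matrix
open scoped Classical

theorem p_SUPP (hFAR : S_FAR) (hFFB : VN.S_FFB) :
    S_SUPP := by
  intro n p j hp B l S
  obtain ⟨h1, h2, -⟩ := hFFB n p j B l S
  have hU : 0 < nU p j := nU_pos
  have hs : ∑ x, Sy (FF p j B l S) x = nU p j * #S := by rw [sum_Sy, h2]
  have hn : ∀ x, 0 ≤ Sy (FF p j B l S) x := Sy_nonneg (FF_nonneg p j B l S)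
  have hQ : (0 : ℝ) ≤ ((p : ℝ) ^ j) ^ (n + 1) := by positivity
  refine ⟨?_, fun H hj hS => ?_⟩
  · rw [vv, div_le_iff₀ hU, Real.sqrt_mul (nn_nonneg _)]
    have : √(nn (Sy (FF p j B l S))) ≤ nU p j * #S :=
      Real.sqrt_le_iff.2 ⟨by positivity, hs ▸ nn_le_sq hn⟩
    calc _ ≤ nU p j * #S * √(((p : ℝ) ^ j) ^ (n + 1)) :=
          mul_le_mul_of_nonneg_right this (Real.sqrt_nonneg _)
      _ = _ := by ring
  · set X := XX (n + 1) p j ((n + 1) ^ (n + 1) * B * H) j with hX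
    have h3 : ∀ x, ¬ x ∈ X → FF p j B l S x = 0 := fun x hx => by
      by_contra h
      have hP : Pr x := by
        by_contra h4
        exact h (h1 x h4)
      obtain ⟨a, ha⟩ : ({a ∈ S | rv (RR p j) (col (fr p B l a)) = x} : Finset _).Nonempty :=
        card_pos.1 (Nat.pos_of_ne_zero fun e => h (by rw [FF, e, Nat.cast_zero]))
      obtain ⟨ha, e⟩ := mem_filter.1 ha
      refine hx (mem_XX.2 ⟨hP, fun i hi => ?_⟩)
      rw [← e, DlA_rv hi]
      exact hFAR n p B H l i a _ hp.out.pos (hi.trans hj) (fr_spec (hS a ha).1) ((hS a ha).2 i hi)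
    have h4 : ∀ x, ¬ x ∈ X → Sy (FF p j B l S) x = 0 :=
      Sy_supp (E := fun x => x ∈ X) (fun u x => (XX_smul u x).1) h3
    have h5 : ∑ x ∈ X, Sy (FF p j B l S) x = nU p j * #S := by
      rw [← hs]
      exact sum_subset (subset_univ _) fun x _ => h4 x
    have h6 : (nU p j * #S) ^ 2 ≤ #X * nn (Sy (FF p j B l S)) := by
      rw [← h5]
      refine sq_sum_le_card_mul_sum_sq.trans (mul_le_mul_of_nonneg_left ?_ (Nat.cast_nonneg _))
      exact sum_le_sum_of_subset_of_nonneg (subset_univ _) fun _ _ _ => sq_nonneg _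
    rw [vv, div_pow, Real.sq_sqrt (mul_nonneg (nn_nonneg _) hQ), div_mul_eq_mul_div,
      le_div_iff₀ (by positivity)]
    calc _ = (nU p j * #S) ^ 2 * ((p : ℝ) ^ j) ^ (n + 1) := by ring
      _ ≤ #X * nn (Sy (FF p j B l S)) * ((p : ℝ) ^ j) ^ (n + 1) := mul_le_mul_of_nonneg_right h6 hQ
      _ = _ := by ring

end Pool.Agent.P.MP_246241_nt.TH
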