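import Pool.Agent.P.MP_246241_nt.TH.Iface

/-! Step UP. -/

set_option autoImplicit false
set_option linter.unusedSectionVars false

namespace Pool.Agent.P.MP_246241_nt.TH

open Finset Matrix
open scoped Classical

theorem p_UP :
    S_UP := by
  intro n p H b l a hp ⟨w, hw0, hw⟩
  refine ⟨w, hw0, fun c' => ?_⟩
  set P : ℤ := (p : ℤ) ^ b with hP
  set y := w ᵥ* Tm p (l + b) a with hy
  set v := w ᵥ* Tm p l (pre p b a) with hv
  have hP0 : 0 < P := by positivity
  have h0 : v 0 = y 0 := by rw [hv, hy, vecMul_Tm_zero, vecMul_Tm_zero]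
  have hs : ∀ i : Fin n, P * v i.succ + v 0 * (a i - P * pre p b a i) = y i.succ := by
    intro i
    rw [hv, hy, vecMul_Tm_zero, vecMul_Tm_succ, vecMul_Tm_succ, pow_add, ← hP]; ring
  have hd : ∀ i : Fin n, |a i - P * pre p b a i| ≤ P := by
    intro i
    have h1 : pre p b a i = a i / P := rfl
    have h2 := Int.emod_nonneg (a i) hP0.ne'
    have h3 := Int.emod_lt_of_pos (a i) hP0
    rw [h1, ← Int.emod_def, abs_of_nonneg h2]; exact h3.le
  have hb : ∀ i : Fin n, P * |v i.succ| ≤ |y i.succ| + |v 0| * P := by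
    intro i
    have h1 : P * v i.succ = y i.succ - v 0 * (a i - P * pre p b a i) := by rw [← hs i]; ring
    calc P * |v i.succ| = |P * v i.succ| := by rw [abs_mul, abs_of_pos hP0]
      _ ≤ |y i.succ| + |v 0 * (a i - P * pre p b a i)| := by rw [h1]; exact abs_sub _ _
      _ ≤ _ := by
        rw [abs_mul]
        exact add_le_add_right (mul_le_mul_of_nonneg_left (hd i) (abs_nonneg _)) _
  have key : ∀ z : Fin (n + 1), |v c'| ≤ 2 * |y z| →
      (H : ℤ) * |v c'| ^ (n + 1) ≤ (p : ℤ) ^ (n * l) := by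
    intro z hz
    have h1 := hw z
    push_cast at h1
    refine le_of_mul_le_mul_right ?_ (show (0 : ℤ) < (p : ℤ) ^ (n * b) by positivity)
    calc _ ≤ (H : ℤ) * (2 * |y z|) ^ (n + 1) * (p : ℤ) ^ (n * b) :=
          mul_le_mul_of_nonneg_right (mul_le_mul_of_nonneg_left
            (pow_le_pow_left₀ (abs_nonneg _) hz _) (Nat.cast_nonneg H)) (by positivity)
      _ = H * (2 ^ (n + 1) * (p : ℤ) ^ (n * b)) * |y z| ^ (n + 1) := by rw [mul_pow]; ring
      _ ≤ _ := h1
      _ = _ := by rw [mul_add, pow_add]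
  revert key
  refine Fin.cases (fun key => key 0 (by rw [h0]; linarith [abs_nonneg (y 0)]))
    (fun i key => ?_) c'
  have h1 := hb i
  have h2 : |y i.succ| ≤ P * |y i.succ| := le_mul_of_one_le_left (abs_nonneg _) hP0
  have h3 : P * |v i.succ| ≤ P * (|y i.succ| + |y 0|) := by rw [← h0]; linarith
  have h4 := le_of_mul_le_mul_left h3 hP0
  rcases le_total |y i.succ| |y 0| with h | h
  · exact key 0 (by linarith)
  · exact key i.succ (by linarith)

end Pool.Agent.P.MP_246241_nt.TH
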