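import Pool.Agent.P.MP_246241_nt.TH.Iface

/-! Step UPB. -/

set_option autoImplicit false
set_option linter.unusedSectionVars false

namespace Pool.Agent.P.MP_246241_nt.TH

open Finset Matrix
open scoped Classical

theorem p_UPB (hDICH : S_DICH) (hFULL : S_FULL) :
    S_UPB := by
  intro n
  obtain ⟨C, θ, c0, t0, t1, h⟩ := hDICH n
  refine ⟨C + (3 * (n + 2)) ^ (n + 1), θ, by positivity, t0, t1, fun p G i m u hp hG hu hF => ?_⟩
  have hy := rad_spec (D := n + 1) (p := p) (k := i + m) (by omega) hG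
  generalize rad (n + 1) p G (i + m) = y at hy ⊢
  have s1 : ({ρ ∈ cube (n + 1) y | ρ ∈ Dl p i u} : Finset _) ⊆ cube (n + 1) y := filter_subset _ _
  have s2 : ∀ ρ ∈ ({ρ ∈ cube (n + 1) y | ρ ∈ Dl p i u} : Finset _), ρ ∈ Dl p i u :=
    fun _ hρ => (mem_filter.1 hρ).2
  have G0 : (0 : ℝ) < G := by exact_mod_cast hG
  have p0 : (0 : ℝ) < p := by exact_mod_cast hp.pos
  have a0 : 0 ≤ θ ^ m := pow_nonneg t0 m
  have b0 : (0 : ℝ) ≤ (3 * (n + 2)) ^ (n + 1) := by positivity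
  rcases h p G i m y u _ hp.two_le hG hF hy s1 s2 with ⟨V, hV, hr⟩ | h2
  · have h3 := hFULL (n + 1) p i y u V _ hp hu hV (fun r => mem_filter.1 (hr r)) s1 s2
    have y1 : 1 ≤ y := Nat.one_le_iff_ne_zero.2 fun e => hV (det_eq_zero_of_row_eq_zero 0 fun c => by
      have := mem_cube.1 (s1 (hr 0)) c
      rw [e] at this
      simpa using this)
    generalize #{ρ ∈ cube (n + 1) y | ρ ∈ Dl p i u} = N at h3 ⊢
    have h4 : N * G ≤ (3 * (n + 2)) ^ (n + 1) * p ^ m := by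
      refine Nat.le_of_mul_le_mul_right ?_ (pow_pos hp.pos i)
      calc N * G * p ^ i = G * (N * p ^ i) := by ring
        _ ≤ G * (3 * (n + 2) * y) ^ (n + 1) :=
          Nat.mul_le_mul_left _ (h3.trans (Nat.pow_le_pow_left (by nlinarith) _))
        _ = (3 * (n + 2)) ^ (n + 1) * (G * y ^ (n + 1)) := by rw [mul_pow]; ring
        _ ≤ (3 * (n + 2)) ^ (n + 1) * p ^ (i + m) := Nat.mul_le_mul_left _ hy
        _ = _ := by ring
    have h5 : (N : ℝ) * G ≤ (3 * (n + 2)) ^ (n + 1) * (p : ℝ) ^ m := by exact_mod_cast h4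
    calc (N : ℝ) ≤ (3 * (n + 2)) ^ (n + 1) * (p : ℝ) ^ m * (1 / G) := by
          rw [mul_one_div, le_div_iff₀ G0]; exact h5
      _ ≤ _ := by gcongr <;> linarith
  · refine h2.trans ?_
    rw [mul_pow, ← mul_assoc]
    have : (0 : ℝ) ≤ 1 / G := by positivity
    gcongr <;> linarith

end Pool.Agent.P.MP_246241_nt.TH
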