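import Pool.Agent.P.MP_246241_nt.TH.Iface
import Pool.Agent.P.MP_246241_nt.EK.TMAIN

/-! Step UPPER. -/

set_option autoImplicit false
set_option linter.unusedSectionVars false

namespace Pool.Agent.P.MP_246241_nt.TH

open Finset Matrix
open scoped Classical

open EK.MAINc in
theorem p_UPPER (hPIECE : S_PIECE) :
    S_UPPER := by
  intro n hn
  obtain ⟨κ, hκ, h⟩ := hPIECE n hn
  refine ⟨κ, hκ, fun p f hp hf h0 hl => ?_⟩
  refine (dimH_mono (t := ⋃ q : ℕ × Vc n, {α : Fin n → ℝ | (fun i => ⌊α i⌋) = q.2 ∧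
    ∀ k : ℕ, 1 ≤ k → ∃ i, 1 / ((q.1 : ℝ) + 1) ≤
      ((k : ℝ) * ((padicNorm p (k : ℚ) : ℚ) : ℝ)) ^ ((1 : ℝ) / (n : ℝ)) *
        max 1 (f k) ^ ((1 : ℝ) / (n : ℝ)) *
        |(k : ℝ) * α i - ((round ((k : ℝ) * α i) : ℤ) : ℝ)|})
    fun α hα => ?_).trans ?_
  · obtain ⟨ε, hε, N, hN⟩ := hα
    have h1 : ∀ k : ℕ, 1 ≤ k → ∃ i, 0 <
        ((k : ℝ) * ((padicNorm p (k : ℚ) : ℚ) : ℝ)) ^ ((1 : ℝ) / (n : ℝ)) *
          max 1 (f k) ^ ((1 : ℝ) / (n : ℝ)) *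
          |(k : ℝ) * α i - ((round ((k : ℝ) * α i) : ℤ) : ℝ)| := by
      intro k hk
      obtain ⟨i, hi⟩ := hN ((N + 1) * k) (by nlinarith)
      refine ⟨i, mul_pos (mul_pos (Real.rpow_pos_of_pos (wpos hp hk) _)
        (Real.rpow_pos_of_pos (lt_max_of_lt_left one_pos) _)) (abs_pos.2 fun e => ?_)⟩
      have e2 : (((N + 1) * k : ℕ) : ℝ) * α i =
          ((((N : ℤ) + 1) * round ((k : ℝ) * α i) : ℤ) : ℝ) := by
        push_cast
        rw [mul_assoc, sub_eq_zero.1 e, round_intCast]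
      rw [e2, round_intCast, sub_self, abs_zero, mul_zero] at hi
      exact absurd hε hi.not_gt
    obtain ⟨c, hc, h2⟩ := unif _ h1 N
    obtain ⟨j, hj⟩ := exists_nat_one_div_lt (lt_min hc hε)
    refine Set.mem_iUnion.2 ⟨(j, fun i => ⌊α i⌋), rfl, fun k hk => ?_⟩
    rcases lt_or_ge k N with h3 | h3
    · obtain ⟨i, hi⟩ := h2 k hk h3
      exact ⟨i, (hj.le.trans (min_le_left _ _)).trans hi⟩
    · obtain ⟨i, hi⟩ := hN k h3
      have hfk : 0 ≤ f k := h0.trans (hf (Nat.zero_le k))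
      refine ⟨i, (hj.le.trans (min_le_right _ _)).trans (hi.trans ?_)⟩
      rw [Real.mul_rpow (wpos hp hk).le hfk]
      exact mul_le_mul_of_nonneg_right (mul_le_mul_of_nonneg_left
        (Real.rpow_le_rpow hfk (le_max_right _ _) (by positivity))
        (Real.rpow_pos_of_pos (wpos hp hk) _).le) (abs_nonneg _)
  · rw [dimH_iUnion]
    exact iSup_le fun q => h p f _ q.2 hp hf hl (by positivity)

end Pool.Agent.P.MP_246241_nt.TH
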