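import Pool.Agent.P.MP_246241_nt.TH.Iface

/-! Step WIN. -/

set_option autoImplicit false
set_option linter.unusedSectionVars false

namespace Pool.Agent.P.MP_246241_nt.TH

open Finset Matrix
open scoped Classical

theorem p_WIN (hONE : S_ONE) (hPHB : S_PHB) :
    S_WIN := by
  intro n hn p _
  obtain ⟨c, A, G₀, hc, hA, hG, h⟩ := hPHB n hn p
  refine ⟨max 0 (1 - c / A), G₀, le_max_left _ _,
    max_lt one_pos (sub_lt_self _ (div_pos hc hA)), hG, fun j G i g hi hj => ?_⟩
  have key : ∀ d ≤ 2 * G, ∑ x ∈ XX (n + 1) p j G i, Ph (n + 1) p j G (i + G) (i + 2 * G) i x ≤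
      ∑ x ∈ XX (n + 1) p j G (i + d), Ph (n + 1) p j G (i + G) (i + 2 * G) (i + d) x +
        A * (#(XX (n + 1) p j G i) - #(XX (n + 1) p j G (i + d))) := by
    intro d hd
    induction d with
    | zero => simp
    | succ d ih =>
      have h1 := ih (by omega)
      have h2 := hONE (n + 1) p j G (i + G) (i + 2 * G) (i + d) (by omega) (by omega) (by omega)
        (by omega)
      have h3 : XX (n + 1) p j G (i + d + 1) ⊆ XX (n + 1) p j G (i + d) := XX_anti (by omega)
      rw [← sum_sdiff h3 (f := fun x => Ph (n + 1) p j G (i + G) (i + 2 * G) (i + d + 1) x)] at h2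
      have h4 := sum_le_card_nsmul (XX (n + 1) p j G (i + d) \ XX (n + 1) p j G (i + d + 1))
        (fun x => Ph (n + 1) p j G (i + G) (i + 2 * G) (i + d + 1) x) A fun x hx => by
          have := (h j G (i + d) x g (by omega) (by omega) (mem_sdiff.1 hx).1).2 (i + G)
          rwa [show i + G + G = i + 2 * G by ring] at this
      rw [nsmul_eq_mul, cast_card_sdiff h3] at h4
      rw [← add_assoc]
      linarith
  have h1 := key _ le_rfl
  have h2 : ∑ x ∈ XX (n + 1) p j G (i + 2 * G),
      Ph (n + 1) p j G (i + G) (i + 2 * G) (i + 2 * G) x = 0 := sum_eq_zero fun x _ =>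
    sum_eq_zero fun k hk => by
      have := mem_Ico.1 (mem_filter.1 hk).1
      have := (mem_filter.1 hk).2
      omega
  have h3 := card_nsmul_le_sum (XX (n + 1) p j G i)
    (fun x => Ph (n + 1) p j G (i + G) (i + 2 * G) i x) c fun x hx =>
      (h j G i x g (by omega) (by omega) hx).1
  rw [nsmul_eq_mul] at h3
  refine le_trans ?_ (mul_le_mul_of_nonneg_right (le_max_right _ _) (Nat.cast_nonneg _))
  rw [one_sub_div hA.ne', div_mul_eq_mul_div, le_div_iff₀ hA]
  linarith

end Pool.Agent.P.MP_246241_nt.TH
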