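import Pool.Agent.P.MP_246241_nt.TH.TFIB2
import Pool.Agent.P.MP_246241_nt.TH.TSL1
import Pool.Agent.P.MP_246241_nt.TH.TGAP1
import Pool.Agent.P.MP_246241_nt.TH.TGAPU
import Pool.Agent.P.MP_246241_nt.TH.TDOMS
import Pool.Agent.P.MP_246241_nt.TH.TSTEP
import Pool.Agent.P.MP_246241_nt.TH.TREC
import Pool.Agent.P.MP_246241_nt.TH.TPT2
import Pool.Agent.P.MP_246241_nt.TH.TCRU2
import Pool.Agent.P.MP_246241_nt.TH.TUP
import Pool.Agent.P.MP_246241_nt.TH.TBADC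
import Pool.Agent.P.MP_246241_nt.TH.THT
import Pool.Agent.P.MP_246241_nt.TH.TLOWT
import Pool.Agent.P.MP_246241_nt.TH.TPACK
import Pool.Agent.P.MP_246241_nt.TH.TDICH
import Pool.Agent.P.MP_246241_nt.TH.TRED
import Pool.Agent.P.MP_246241_nt.TH.TFULL
import Pool.Agent.P.MP_246241_nt.TH.TUPB
import Pool.Agent.P.MP_246241_nt.TH.TPIG
import Pool.Agent.P.MP_246241_nt.TH.TODD
import Pool.Agent.P.MP_246241_nt.TH.TLOWB
import Pool.Agent.P.MP_246241_nt.TH.TMART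
import Pool.Agent.P.MP_246241_nt.TH.TONE
import Pool.Agent.P.MP_246241_nt.TH.TPHB
import Pool.Agent.P.MP_246241_nt.TH.TWIN
import Pool.Agent.P.MP_246241_nt.TH.TDENS
import Pool.Agent.P.MP_246241_nt.TH.TFAR
import Pool.Agent.P.MP_246241_nt.TH.TSUPP
import Pool.Agent.P.MP_246241_nt.TH.TNU
import Pool.Agent.P.MP_246241_nt.TH.TMIX
import Pool.Agent.P.MP_246241_nt.TH.TCNT
import Pool.Agent.P.MP_246241_nt.TH.TCORE
import Pool.Agent.P.MP_246241_nt.TH.TDIM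
import Pool.Agent.P.MP_246241_nt.TH.TPICK
import Pool.Agent.P.MP_246241_nt.TH.TPIECE
import Pool.Agent.P.MP_246241_nt.TH.TUPPER
import Pool.Agent.P.MP_246241_nt.TH.TLOWER
import Pool.Agent.P.MP_246241_nt.VN.Main
import Pool.Agent.P.MP_246241_nt.EK.TFIN

/-! Assembly. -/

set_option autoImplicit false

namespace Pool.Agent.P.MP_246241_nt.TH

theorem f_FIB2 : S_FIB2 := p_FIB2
theorem f_SL1 : S_SL1 := p_SL1 f_FIB2 BV.f_GAP
theorem f_GAP1 : S_GAP1 := p_GAP1 f_SL1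
theorem f_GAPU : S_GAPU := p_GAPU f_GAP1 VN.f_GAP
theorem f_DOMS : S_DOMS := p_DOMS VN.f_SHELL (EK.p_MULT EK.p_QUOT)
theorem f_STEP : S_STEP := p_STEP f_DOMS f_GAPU VN.f_FFB
theorem f_REC : S_REC := p_REC
theorem f_PT2 : S_PT2 := p_PT2
theorem f_CRU2 : S_CRU2 := p_CRU2 VN.f_HYP VN.f_SLAB f_PT2
theorem f_UP : S_UP := p_UP
theorem f_BADC : S_BADC := p_BADC
theorem f_HT : S_HT := p_HT
theorem f_LOWT : S_LOWT := p_LOWT f_CRU2 f_UP f_BADC f_HT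
theorem f_PACK : S_PACK := p_PACK
theorem f_DICH : S_DICH := p_DICH f_PACK VN.f_HYP
theorem f_RED : S_RED := p_RED
theorem f_FULL : S_FULL := p_FULL f_RED
theorem f_UPB : S_UPB := p_UPB f_DICH f_FULL
theorem f_PIG : S_PIG := p_PIG
theorem f_ODD : S_ODD := p_ODD f_RED
theorem f_LOWB : S_LOWB := p_LOWB f_DICH f_PIG f_ODD
theorem f_MART : S_MART := p_MART
theorem f_ONE : S_ONE := p_ONE f_MART
theorem f_PHB : S_PHB := p_PHB f_UPB f_LOWB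
theorem f_WIN : S_WIN := p_WIN f_ONE f_PHB
theorem f_DENS : S_DENS := p_DENS f_WIN
theorem f_FAR : S_FAR := p_FAR
theorem f_SUPP : S_SUPP := p_SUPP f_FAR VN.f_FFB
theorem f_NU : S_NU := p_NU f_STEP f_SUPP f_REC EK.p_FRAME
theorem f_MIX : S_MIX := p_MIX f_NU f_SUPP f_DENS
theorem f_CNT : S_CNT := p_CNT f_LOWT f_MIX
theorem f_CORE : S_CORE := p_CORE f_CNT
theorem f_DIM : S_DIM := p_DIM
theorem f_PICK : S_PICK := p_PICK
theorem f_PIECE : S_PIECE := p_PIECE f_CORE f_DIM f_PICK EK.p_FIN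
theorem f_UPPER : S_UPPER := p_UPPER f_PIECE
theorem f_LOWER : S_LOWER := p_LOWER

theorem final (n : ℕ) (hn : 1 ≤ n) : ∃ c : ℝ, 0 < c ∧ ∀ (p : ℕ) (f : ℕ → ℝ), p.Prime → Monotone f →
    0 ≤ f 0 →
    ((∃ δ : ℝ, 0 < δ ∧ ∃ N : ℕ, ∀ k : ℕ, N ≤ k → δ * Real.log k ≤ f k) → dimH (Ex n p f) = n) ∧
    ((¬ ∃ δ : ℝ, 0 < δ ∧ ∃ N : ℕ, ∀ k : ℕ, N ≤ k → δ * Real.log k ≤ f k) →
      dimH (Ex n p f) ≤ ENNReal.ofReal (n - c)) := by
  obtain ⟨c, hc, h⟩ := f_UPPER n hn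
  exact ⟨c, hc, fun p f hp hf h0 => ⟨f_LOWER n p f hn hp (VN.final n p hn hp), h p f hp hf h0⟩⟩

end Pool.Agent.P.MP_246241_nt.TH
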