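import Pool.Agent.P.MP_246241_nt.TH.Iface

/-! Step BADC. -/

set_option autoImplicit false
set_option linter.unusedSectionVars false

namespace Pool.Agent.P.MP_246241_nt.TH

open Finset Matrix
open scoped Classical

theorem p_BADC :
    S_BADC := by
  intro n p b R bad z hp h M
  induction M with
  | zero =>
    intro S hS
    simpa using card_le_one.2 fun x hx y hy => by
      simpa [pre_zero] using ((pre_zero p x).symm.trans (by simpa using hS x hx)).trans
        ((pre_zero p y).symm.trans (by simpa using hS y hy)).symm
  | succ M ih =>
    intro S hS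
    have e1 : ∀ x, R ^ #{i ∈ range (M + 1) | bad i (pre p ((M + 1 - (i + 1)) * b) x)} =
        R ^ #{i ∈ range M | bad i (pre p ((M - (i + 1)) * b) (pre p b x))} *
          if bad M x then R else 1 := fun x => by
      have e : {i ∈ range M | bad i (pre p ((M + 1 - (i + 1)) * b) x)} =
          {i ∈ range M | bad i (pre p ((M - (i + 1)) * b) (pre p b x))} :=
        filter_congr fun i hi => by
          rw [pre_pre, show M + 1 - (i + 1) = M - (i + 1) + 1 by have := mem_range.1 hi; omega,
            add_mul, one_mul, add_comm]
      rw [range_add_one, filter_insert, e, Nat.sub_self, zero_mul, pre_zero]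
      split_ifs
      · rw [card_insert_of_notMem (by simp), pow_succ]
      · rw [mul_one]
    rw [sum_congr rfl fun x _ => e1 x,
      ← sum_fiberwise_of_maps_to (g := pre p b) fun x hx => mem_image_of_mem _ hx, pow_succ]
    refine le_trans (sum_le_sum fun a _ => ?_) (((sum_mul ..).symm.trans_le
      (Nat.mul_le_mul_right _ (ih (S.image (pre p b)) fun a ha => ?_))))
    · rw [sum_congr rfl fun x hx => by rw [(mem_filter.1 hx).2], ← mul_sum]
      refine Nat.mul_le_mul_left _ ?_
      rw [sum_ite, sum_const, sum_const, smul_eq_mul, smul_eq_mul, mul_one, two_mul]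
      exact add_le_add
        (h M a _ fun x hx => ⟨(mem_filter.1 (mem_filter.1 hx).1).2, (mem_filter.1 hx).2⟩)
        (card_children hp a _ fun x hx => (mem_filter.1 (mem_filter.1 hx).1).2)
    · obtain ⟨x, hx, rfl⟩ := mem_image.1 ha
      rw [pre_pre, ← hS x hx, add_mul, one_mul, add_comm]

end Pool.Agent.P.MP_246241_nt.TH
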