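import Pool.Agent.P.MP_246241_nt.TH.Iface
import Pool.Agent.P.MP_246241_nt.EK.TDIM

/-! Step DIM. -/

set_option autoImplicit false
set_option linter.unusedSectionVars false

namespace Pool.Agent.P.MP_246241_nt.TH

open Finset Matrix
open scoped Classical

theorem p_DIM :
    S_DIM := by
  intro n b E s hb hs' h
  have hb1 : (1 : ℝ) < b := by exact_mod_cast (by omega : 1 < b)
  have e1 : ENNReal.ofReal s = (s.toNNReal : ENNReal) := rfl
  rw [e1]
  refine dimH_le_of_hausdorffMeasure_ne_top ?_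
  rw [Real.coe_toNNReal _ hs'.le]
  choose T hT F hF hE using h
  have hTt : Filter.Tendsto T Filter.atTop Filter.atTop :=
    Filter.tendsto_atTop_mono hT Filter.tendsto_id
  have hr : Filter.Tendsto (fun l : ℕ => ENNReal.ofReal (((b : ℝ) ^ T l)⁻¹)) Filter.atTop
      (nhds 0) := by
    rw [← ENNReal.ofReal_zero]
    exact ENNReal.tendsto_ofReal
      ((tendsto_pow_atTop_atTop_of_one_lt hb1).comp hTt).inv_tendsto_atTop
  have hQ : ∀ l, (0 : ℝ) < (b : ℝ) ^ T l := fun l => by positivity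
  have key := MeasureTheory.Measure.hausdorffMeasure_le_liminf_sum (ι := fun l : ℕ => F l)
    (s : ℝ) E (fun l : ℕ => ENNReal.ofReal (((b : ℝ) ^ T l)⁻¹)) hr
    (fun l v => {α : Fin n → ℝ | (fun i => ⌊(b : ℝ) ^ T l * α i⌋) = v.1})
    (Filter.Eventually.of_forall fun l v => EK.DIMc.diam (hQ l) v.1)
    (Filter.Eventually.of_forall fun l α hα => Set.mem_iUnion.2 ⟨⟨_, hE l α hα⟩, rfl⟩)
  refine ne_top_of_le_ne_top ENNReal.one_ne_top (key.trans ?_)
  refine Filter.liminf_le_of_frequently_le' (Filter.Eventually.frequently ?_)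
  refine Filter.Eventually.of_forall fun l => ?_
  refine (sum_le_sum fun v _ => ENNReal.rpow_le_rpow (EK.DIMc.diam (hQ l) v.1) hs'.le).trans ?_
  have hp : (0 : ℝ) ≤ ((b : ℝ) ^ T l)⁻¹ := by positivity
  simp only [sum_const, card_univ, Fintype.card_coe, nsmul_eq_mul]
  rw [ENNReal.ofReal_rpow_of_nonneg hp hs'.le, ← ENNReal.ofReal_natCast,
    ← ENNReal.ofReal_mul (Nat.cast_nonneg _)]
  refine ENNReal.ofReal_le_one.2 (EK.DIMc.bound hb (T l) ?_)
  rcases Nat.eq_zero_or_pos (F l).card with h0 | h0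
  · rw [h0, Nat.cast_zero]; exact (Real.exp_pos _).le
  · exact (Real.log_le_iff_le_exp (by exact_mod_cast h0)).1 (hF l)

end Pool.Agent.P.MP_246241_nt.TH
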