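import Pool.Agent.P.MP_246241_nt.TH.Iface

/-! Step FIB2. -/

set_option autoImplicit false
set_option linter.unusedSectionVars false

namespace Pool.Agent.P.MP_246241_nt.TH

open Finset Matrix
open scoped Classical

namespace FIB2x

variable {p j : ℕ} [hp : Fact p.Prime]

theorem cu : #(univ : Finset (RR p j)) = p ^ j := card_univ.trans card_RR

theorem fib (x : AA 2 p j) (hx : Pr x) :
    #{y : BV.GG p j | (fun c => y 1 c) = x} = p ^ j := by
  obtain ⟨a, b, hab⟩ : ∃ a b : RR p j, a * x 1 - b * x 0 = 1 := by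
    obtain ⟨c, hc⟩ := hx
    obtain ⟨v, hv⟩ := hc.exists_left_inv
    fin_cases c
    · exact ⟨0, -v, by simpa using hv⟩
    · exact ⟨v, 0, by simpa using hv⟩
  refine Eq.trans (Eq.symm ?_) cu
  refine card_bij (fun t _ => (⟨!![a + t * x 0, b + t * x 1; x 0, x 1], by
    rw [det_fin_two_of]; linear_combination hab⟩ : BV.GG p j)) ?_ ?_ ?_
  · intro t _
    refine mem_filter.2 ⟨mem_univ _, funext fun c => ?_⟩
    fin_cases c <;> rfl
  · intro t _ s _ h
    have h0 : a + t * x 0 = a + s * x 0 := congrArg (fun y : BV.GG p j => y 0 0) h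
    have h1 : b + t * x 1 = b + s * x 1 := congrArg (fun y : BV.GG p j => y 0 1) h
    linear_combination (s - t) * hab + a * h1 - b * h0
  · intro y hy
    have e := (mem_filter.1 hy).2
    have e0 : y 1 0 = x 0 := congrFun e 0
    have e1 : y 1 1 = x 1 := congrFun e 1
    have d := BV.det_ent y
    rw [e0, e1] at d
    refine ⟨a * y 0 1 - b * y 0 0, mem_univ _, BV.sl_ext ?_ ?_ e0.symm e1.symm⟩
    · show a + (a * y 0 1 - b * y 0 0) * x 0 = y 0 0
      linear_combination (y 0 0) * hab - a * d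
    · show b + (a * y 0 1 - b * y 0 0) * x 1 = y 0 1
      linear_combination (y 0 1) * hab - b * d

theorem first (h : AA 2 p j → ℝ) (hh : ∀ x, ¬ Pr x → h x = 0) :
    ∑ y : BV.GG p j, h (fun c => y 1 c) = (p : ℝ) ^ j * ∑ x, h x := by
  rw [← sum_fiberwise univ (fun y : BV.GG p j => (fun c => y 1 c : AA 2 p j)), mul_sum]
  refine sum_congr rfl fun x _ => ?_
  rw [sum_congr rfl fun y hy => by rw [(mem_filter.1 hy).2], sum_const, nsmul_eq_mul]
  by_cases hx : Pr x
  · rw [fib x hx]; push_cast; rfl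
  · rw [hh x hx, mul_zero, mul_zero]

theorem units : p ^ j ≤ 2 * #{w : RR p j | IsUnit w} := by
  rcases Nat.eq_zero_or_pos j with rfl | hj
  · have : 0 < #{w : RR p 0 | IsUnit w} := card_pos.2 ⟨1, by simp⟩
    have e : p ^ 0 = 1 := pow_zero p
    omega
  have h1 := card_mult (p := p) (j := j) (e := 1) hj
  have h2 : p ^ j ≤ #{w : RR p j | IsUnit w} + #{w : RR p j | (p : RR p j) ^ 1 ∣ w} := by
    refine cu.symm.le.trans ((card_le_card fun w _ => ?_).trans (card_union_le _ _))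
    simpa using unit_or_dvd w
  have h3 := Nat.mul_le_mul_left #{w : RR p j | (p : RR p j) ^ 1 ∣ w} (two_le (p := p))
  rw [pow_one p] at h1
  omega

theorem prim : #{w : RR p j | IsUnit w} * p ^ j ≤ #{x : AA 2 p j | Pr x} := by
  refine (congrArg _ cu.symm).le.trans ?_
  rw [← card_product]
  refine card_le_card_of_injOn (fun z => ![z.1, z.2]) (fun z hz => ?_) fun z _ w _ e => ?_
  · exact mem_coe.2 (mem_filter.2 ⟨mem_univ _, 0, (mem_filter.1 (mem_product.1 hz).1).2⟩)
  · exact Prod.ext (congrFun e 0) (congrFun e 1)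

end FIB2x

theorem p_FIB2 :
    S_FIB2 := by
  intro p j _
  refine ⟨FIB2x.first, ?_⟩
  have h := FIB2x.first (p := p) (j := j) (fun x => if Pr x then 1 else 0) fun x hx => if_neg hx
  rw [sum_congr rfl fun y _ => if_pos (show Pr (fun c => y 1 c : AA 2 p j) from
    (BV.unit_or_unit y).elim (fun e => ⟨1, e⟩) fun e => ⟨0, e⟩), sum_boole, sum_const,
    nsmul_eq_mul, mul_one, card_univ] at h
  have h1 : (p : ℝ) ^ j ≤ 2 * #{w : RR p j | IsUnit w} := mod_cast FIB2x.units
  have h2 : (#{w : RR p j | IsUnit w} : ℝ) * p ^ j ≤ #{x : AA 2 p j | Pr x} :=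
    mod_cast FIB2x.prim
  have h3 : (0 : ℝ) ≤ (p : ℝ) ^ j := by positivity
  rw [BV.oG, h]
  calc ((p : ℝ) ^ j) ^ 3 = p ^ j * (p ^ j * p ^ j) := by ring
    _ ≤ p ^ j * (2 * #{w : RR p j | IsUnit w} * p ^ j) := by gcongr
    _ = 2 * (p ^ j * (#{w : RR p j | IsUnit w} * p ^ j)) := by ring
    _ ≤ _ := by gcongr

end Pool.Agent.P.MP_246241_nt.TH
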