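import Pool.Agent.P.MP_246241_nt.TH.Iface

/-! Step MART. -/

set_option autoImplicit false
set_option linter.unusedSectionVars false

namespace Pool.Agent.P.MP_246241_nt.TH

open Finset Matrix
open scoped Classical

theorem p_MART :
    S_MART := by
  intro D p j hp i Y ρ _ ⟨c, hc⟩ hY
  obtain ⟨v, hv⟩ : IsUnit ((ρ c : ℤ) : RR p j) := unit_int hc
  refine (card_le_card (t := (range p ×ˢ {x ∈ Y | ρ ∈ DlA (i + 1) x}).image fun z =>
    z.2 - (p : RR p j) ^ i • Pi.single c (z.1 : RR p j)) fun x hx => ?_).trans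
    (card_image_le.trans_eq (by rw [card_product, card_range]))
  obtain ⟨h1, s, hs⟩ := mem_filter.1 hx
  obtain ⟨k, hk⟩ := ZMod.natCast_zmod_surjective (-s * ((v⁻¹ : (RR p j)ˣ) : RR p j))
  refine mem_image.2 ⟨(k % p, x + (p : RR p j) ^ i • Pi.single c ((k % p : ℕ) : RR p j)),
    mem_product.2 ⟨mem_range.2 (Nat.mod_lt _ hp.out.pos), mem_filter.2 ⟨hY x h1 _, ?_⟩⟩,
    add_sub_cancel_right _ _⟩
  have e1 : (k : RR p j) = p * ((k / p : ℕ) : RR p j) + ((k % p : ℕ) : RR p j) := by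
    exact_mod_cast congrArg (Nat.cast : ℕ → RR p j) (Nat.div_add_mod k p).symm
  have e2 : (v : RR p j) * k = -s := by
    rw [hk, mul_comm, Units.inv_mul_cancel_right]
  refine mem_DlA.2 ⟨-(v * ((k / p : ℕ) : RR p j)), ?_⟩
  rw [dotProduct_add, dotProduct_smul, dotProduct_single, hs, rv_apply, ← hv, smul_eq_mul]
  linear_combination (p : RR p j) ^ i * e2 - (p : RR p j) ^ i * v * e1

end Pool.Agent.P.MP_246241_nt.TH
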